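import Pool.Agent.Helper25.KV.Goals

/-!
# Project KV, part H: assembly, first part
-/

namespace Pool.Agent.Helper25.KV

open Real MeasureTheory Set Filter Topology
open scoped ENNReal
open Pool.Agent.Helper41.KV (Q)
open Pool.Agent.Helper33.KV (SmoothSol outr)

theorem smoothSol_mono {u : ℝ → ℝ → ℝ} {a a' b : ℝ} (h : SmoothSol u a b) (ha : a ≤ a') :
    SmoothSol u a' b := by
  have hsub : Icc a' b ⊆ Icc a b := Icc_subset_Icc_left ha
  refine ⟨⟨fun t ht => h.hinf.smooth t (hsub ht), fun k => ?_, fun k t ht =>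
    h.hinf.memLp k t (hsub ht), fun k => ?_⟩, ?_⟩
  · exact (h.hinf.cont k).mono (prod_mono hsub subset_rfl)
  · obtain ⟨C, hC⟩ := h.hinf.bound k
    exact ⟨C, fun t ht => hC t (hsub ht)⟩
  · intro k t ht x
    exact (h.eqn k t (hsub ht) x).mono hsub

/-- The two square estimates: `(a+b)^2 ≤ 2a^2+2b^2` integrated. -/
theorem int_add_sq {f g : ℝ → ℝ} (hf : AEStronglyMeasurable f volume)
    (hg : AEStronglyMeasurable g volume)
    (hf2 : Integrable (fun x => f x ^ 2)) (hg2 : Integrable (fun x => g x ^ 2)) :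
    Integrable (fun x => (f x + g x) ^ 2) ∧
      (∫ x, (f x + g x) ^ 2) ≤ 2 * (∫ x, f x ^ 2) + 2 * ∫ x, g x ^ 2 := by
  have hi : Integrable (fun x => 2 * f x ^ 2 + 2 * g x ^ 2) := (hf2.const_mul 2).add (hg2.const_mul 2)
  have hle : ∀ x, (f x + g x) ^ 2 ≤ 2 * f x ^ 2 + 2 * g x ^ 2 := fun x => by
    nlinarith [sq_nonneg (f x - g x)]
  have hI : Integrable (fun x => (f x + g x) ^ 2) := by
    refine hi.mono' ((hf.add hg).pow 2) (Eventually.of_forall fun x => ?_)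
    rw [Real.norm_eq_abs, abs_of_nonneg (sq_nonneg _)]
    exact hle x
  refine ⟨hI, ?_⟩
  calc (∫ x, (f x + g x) ^ 2) ≤ ∫ x, (2 * f x ^ 2 + 2 * g x ^ 2) := integral_mono hI hi hle
    _ = 2 * (∫ x, f x ^ 2) + 2 * ∫ x, g x ^ 2 := by
      rw [integral_add (hf2.const_mul 2) (hg2.const_mul 2), integral_const_mul, integral_const_mul]

theorem int_sub_sq {f g : ℝ → ℝ} (hf : AEStronglyMeasurable f volume)
    (hg : AEStronglyMeasurable g volume)
    (hf2 : Integrable (fun x => f x ^ 2)) (hg2 : Integrable (fun x => g x ^ 2)) :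
    Integrable (fun x => (f x - g x) ^ 2) ∧
      (∫ x, (f x - g x) ^ 2) ≤ 2 * (∫ x, f x ^ 2) + 2 * ∫ x, g x ^ 2 := by
  have h := int_add_sq (f := f) (g := fun x => - g x) hf hg.neg hf2 (by simpa using hg2)
  simpa [sub_eq_add_neg] using h

theorem int_four {a b c d : ℝ → ℝ} (ha : Continuous a) (hb : Continuous b) (hc : Continuous c)
    (hd : Continuous d)
    (ha2 : Integrable (fun x => a x ^ 2)) (hb2 : Integrable (fun x => b x ^ 2))
    (hc2 : Integrable (fun x => c x ^ 2)) (hd2 : Integrable (fun x => d x ^ 2)) :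
    Integrable (fun x => ((a x - b x) + (c x - d x)) ^ 2) ∧
      (∫ x, ((a x - b x) + (c x - d x)) ^ 2) ≤
        4 * (∫ x, a x ^ 2) + 4 * (∫ x, b x ^ 2) + 4 * (∫ x, c x ^ 2) + 4 * ∫ x, d x ^ 2 := by
  have s1 := int_sub_sq ha.aestronglyMeasurable hb.aestronglyMeasurable ha2 hb2
  have s2 := int_sub_sq hc.aestronglyMeasurable hd.aestronglyMeasurable hc2 hd2
  have s3 := int_add_sq (f := fun x => a x - b x) (g := fun x => c x - d x)
    (ha.sub hb).aestronglyMeasurable (hc.sub hd).aestronglyMeasurable s1.1 s2.1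
  exact ⟨s3.1, by linarith [s3.2, s1.2, s2.2]⟩

theorem eLpNorm_two_eq {f : ℝ → ℝ} (hf : AEStronglyMeasurable f volume)
    (hf2 : Integrable (fun x => f x ^ 2)) :
    eLpNorm f 2 volume = ENNReal.ofReal (Real.sqrt (∫ x, f x ^ 2)) := by
  have hm : MemLp f 2 volume := (memLp_two_iff_integrable_sq hf).2 hf2
  rw [hm.eLpNorm_eq_integral_rpow_norm (by norm_num) (by norm_num)]
  congr 1
  have h2 : (2 : ℝ≥0∞).toReal = 2 := by norm_num
  rw [h2, Real.sqrt_eq_rpow]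
  congr 1
  · refine integral_congr_ae (Eventually.of_forall fun x => ?_)
    simp
  · norm_num

/-- Everything the limit argument needs about one approximating family. -/
structure Fam (κ T : ℝ) (m M k0 : ℕ) (C : ℝ → ℝ) (U : ℕ → ℝ → ℝ → ℝ) : Prop where
  sol : ∀ n : ℕ, SmoothSol (U n) (T / (n + 2)) T
  bd : ∀ n : ℕ, ∀ t ∈ Icc (T / (n + 2)) T,
    (Integrable (fun x => (U n t x - gp m M k0 n t x) ^ 2 * (1 + |x|) ^ κ) ∧
      (∫ x, (U n t x - gp m M k0 n t x) ^ 2 * (1 + |x|) ^ κ) ≤ C t) ∧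
    (Integrable (fun x => deriv (fun y => U n t y - gp m M k0 n t y) x ^ 2 * (1 + |x|) ^ (κ - 1)) ∧
      (∫ x, deriv (fun y => U n t y - gp m M k0 n t y) x ^ 2 * (1 + |x|) ^ (κ - 1)) ≤ C t)

theorem ev_time {T t0 : ℝ} (ht0 : 0 < t0) : ∀ᶠ n : ℕ in atTop, T / ((n : ℝ) + 2) ≤ t0 := by
  filter_upwards [eventually_ge_atTop (Nat.ceil (T / t0))] with n hn
  have h1 : T / t0 ≤ n := (Nat.le_ceil _).trans (by exact_mod_cast hn)
  rw [div_le_iff₀ ht0] at h1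
  rw [div_le_iff₀ (by positivity)]
  nlinarith

theorem gp_smooth (h1 : H_GP1) {m M k0 : ℕ} (hm : 1 ≤ m) (hM : m ≤ M) (n : ℕ) (t : ℝ) :
    ContDiff ℝ (⊤ : ℕ∞) (fun x => gp m M k0 n t x) := by
  have h := (h1.2 m M k0 hm hM).2.2.1 n
  have h2 : ContDiff ℝ (⊤ : ℕ∞) (fun x : ℝ => (t, x)) := contDiff_const.prodMk contDiff_id
  exact ContDiff.comp (g := fun p : ℝ × ℝ => gp m M k0 n p.1 p.2) (f := fun x : ℝ => (t, x)) h h2

section
variable {κ T : ℝ} {m M k0 : ℕ} {C : ℝ → ℝ} {U : ℕ → ℝ → ℝ → ℝ}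

theorem Fam.smooth (hF : Fam κ T m M k0 C U) {t : ℝ} {n : ℕ} (ht : t ∈ Icc (T / ((n : ℝ) + 2)) T) :
    ContDiff ℝ (⊤ : ℕ∞) (U n t) := (hF.sol n).hinf.smooth t ht

theorem Fam.smoothW (hF : Fam κ T m M k0 C U) (h1 : H_GP1) (hm : 1 ≤ m) (hM : m ≤ M)
    {t : ℝ} {n : ℕ} (ht : t ∈ Icc (T / ((n : ℝ) + 2)) T) :
    ContDiff ℝ (⊤ : ℕ∞) (fun y => U n t y - gp m M k0 n t y) :=
  (hF.smooth ht).sub (gp_smooth h1 hm hM n t)

/-- local sup and Hölder bounds for `U n`, uniformly in `n`. -/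
theorem Fam.loc (hF : Fam κ T m M k0 C U) (hL : H_LOC) (h1 : H_GP1) (hκ : 0 < κ) (hκ1 : κ < 1)
    (hm : 1 ≤ m) (hM : m ≤ M) (hC : AntitoneOn C (Ioc 0 T)) {t0 R : ℝ} (ht0 : 0 < t0) (htT : t0 < T)
    (hR : 0 < R) :
    ∃ A : ℝ, 0 < A ∧ ∀ᶠ n : ℕ in atTop, ∀ t ∈ Icc t0 T, ∀ x y, |x| ≤ R → |y| ≤ R →
      |U n t x| ≤ A ∧ |U n t x - U n t y| ≤ A * |x - y| ^ ((1 : ℝ) / 2) := by
  obtain ⟨M1, hM1, hLoc⟩ := hL κ (C t0) R hκ hκ1 hR
  obtain ⟨D, hD, hDb, hDl, -⟩ := (h1.2 m M k0 hm hM).2.2.2.2.2.2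
  refine ⟨M1 + D + D * (2 * R) ^ ((1 : ℝ) / 2), by positivity, ?_⟩
  filter_upwards [ev_time (T := T) ht0] with n hn t ht x y hx hy
  have htn : t ∈ Icc (T / ((n : ℝ) + 2)) T := ⟨hn.trans ht.1, ht.2⟩
  have hb := hF.bd n t htn
  have hCt : C t ≤ C t0 := hC ⟨ht0, htT.le⟩ ⟨ht0.trans_le ht.1, ht.2⟩ ht.1
  have hw := hLoc (fun y => U n t y - gp m M k0 n t y)
    ((hF.smoothW h1 hm hM htn).of_le (by exact_mod_cast le_top)) hb.1.1 (hb.1.2.trans hCt) hb.2.1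
    (hb.2.2.trans hCt) x y hx hy
  have hg1 := hDb n t x
  have hg2 := hDl n t x y
  have hxy : |x - y| ≤ 2 * R := by
    calc |x - y| ≤ |x| + |y| := abs_sub _ _
      _ ≤ 2 * R := by linarith
  have hpow : |x - y| ≤ (2 * R) ^ ((1 : ℝ) / 2) * |x - y| ^ ((1 : ℝ) / 2) := by
    have : |x - y| = |x - y| ^ ((1 : ℝ) / 2) * |x - y| ^ ((1 : ℝ) / 2) := by
      rw [← Real.sqrt_eq_rpow, Real.mul_self_sqrt (abs_nonneg _)]
    calc |x - y| = |x - y| ^ ((1 : ℝ) / 2) * |x - y| ^ ((1 : ℝ) / 2) := this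
      _ ≤ _ := by
        apply mul_le_mul_of_nonneg_right _ (by positivity)
        exact Real.rpow_le_rpow (abs_nonneg _) hxy (by norm_num)
  constructor
  · have h3 : |U n t x| ≤ |U n t x - gp m M k0 n t x| + |gp m M k0 n t x| := by
      have := abs_add_le (U n t x - gp m M k0 n t x) (gp m M k0 n t x)
      simpa using this
    have h4 : 0 ≤ D * (2 * R) ^ ((1 : ℝ) / 2) := by positivity
    linarith [hw.1]
  · have h3 : |U n t x - U n t y| ≤ |(U n t x - gp m M k0 n t x) - (U n t y - gp m M k0 n t y)| +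
        |gp m M k0 n t x - gp m M k0 n t y| := by
      have := abs_add_le ((U n t x - gp m M k0 n t x) - (U n t y - gp m M k0 n t y))
        (gp m M k0 n t x - gp m M k0 n t y)
      refine le_trans (le_of_eq ?_) this
      congr 1; ring
    have h5 : 0 ≤ |x - y| ^ ((1 : ℝ) / 2) := by positivity
    have h6 : D * |x - y| ≤ D * ((2 * R) ^ ((1 : ℝ) / 2) * |x - y| ^ ((1 : ℝ) / 2)) :=
      mul_le_mul_of_nonneg_left hpow hD.le
    have h7 := hw.2
    nlinarith [mul_nonneg hD.le h5]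

/-- The hypothesis of `H_LIM`. -/
theorem Fam.limHyp (hF : Fam κ T m M k0 C U) (hL : H_LOC) (h1 : H_GP1) (hQ : H_TEQ)
    (hκ : 0 < κ) (hκ1 : κ < 1)
    (hm : 1 ≤ m) (hM : m ≤ M) (hC : AntitoneOn C (Ioc 0 T)) :
    ∀ t0 : ℝ, 0 < t0 → t0 < T → ∀ R : ℝ, 0 < R → ∃ M : ℝ, ∀ᶠ n in atTop,
      ∀ t ∈ Icc t0 T, ∀ x, |x| ≤ R → |U n t x| ≤ M ∧
        ∀ s ∈ Icc t0 T, ∀ y, |y| ≤ R → |t - s| ≤ 1 →
          |U n t x - U n s y| ≤ M * (|x - y| ^ ((1 : ℝ) / 2) + |t - s| ^ ((1 : ℝ) / 7)) := by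
  intro t0 ht0 htT R hR
  obtain ⟨A, hA, hloc⟩ := hF.loc hL h1 hκ hκ1 hm hM hC ht0 htT (R := R + 1) (by linarith)
  obtain ⟨C', hC', hteq⟩ := hQ A hA
  refine ⟨A + C', ?_⟩
  filter_upwards [hloc, ev_time (T := T) ht0] with n hn hn2 t ht x hx
  refine ⟨((hn t ht x x (by linarith) (by linarith)).1).trans (by linarith), ?_⟩
  intro s hs y hy hts
  have hsol : SmoothSol (U n) t0 T := smoothSol_mono (hF.sol n) hn2
  have e1 := (hn t ht x y (by linarith) (by linarith)).2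
  have e2 := hteq t0 T (U n) hsol R hR.le (fun t ht x hx => (hn t ht x x hx hx).1)
    (fun t ht x y hx hy => (hn t ht x y hx hy).2) s hs t ht hts y hy
  have e3 : |U n t x - U n s y| ≤ |U n t x - U n t y| + |U n t y - U n s y| := by
    have := abs_add_le (U n t x - U n t y) (U n t y - U n s y)
    refine le_trans (le_of_eq ?_) this
    congr 1; ring
  have p1 : 0 ≤ |x - y| ^ ((1 : ℝ) / 2) := by positivity
  have p2 : 0 ≤ |t - s| ^ ((1 : ℝ) / 7) := by positivity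
  nlinarith [mul_nonneg hA.le p2, mul_nonneg hC'.le p1]

end

end Pool.Agent.Helper25.KV
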