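import Pool.Agent.Helper25.KV.RTight

/-!
# Project KV: tightness on the right, the estimate
-/

namespace Pool.Agent.Helper25.KV

open Real MeasureTheory Set Filter Topology
open Pool.Agent.Helper33.KV Pool.Agent.Helper48.KV

theorem binf_wR (R t1 t2 : ℝ) : BInf (fun _ => wR R) (fun _ _ => 0) t1 t2 where
  smooth := fun _ _ => wR_smooth R
  cont := by
    intro k
    have hc : Continuous (iteratedDeriv k (wR R)) := by
      cases k with
      | zero => rw [iteratedDeriv_zero]; exact (wR_smooth R).continuous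
      | succ k => rw [wR_iter]; exact (iter_bdd_of_hcs (thR_smooth R) (thR_hcs R) k).1.continuous
    exact (hc.comp continuous_snd).continuousOn
  bound := by
    intro k
    cases k with
    | zero =>
      obtain ⟨C, hC⟩ := wR_bdd R
      exact ⟨C, fun t _ x => by rw [iteratedDeriv_zero]; exact hC x⟩
    | succ k =>
      obtain ⟨C, hC⟩ := (iter_bdd_of_hcs (thR_smooth R) (thR_hcs R) k).2.2
      exact ⟨C, fun t _ x => by rw [wR_iter]; exact hC x⟩
  dt := fun t _ x => hasDerivWithinAt_const _ _ _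
  contt := continuousOn_const
  boundt := ⟨0, fun t _ x => by simp⟩

theorem iter_zero (k : ℕ) : iteratedDeriv k (fun _ : ℝ => (0 : ℝ)) = fun _ => 0 := by
  induction k with
  | zero => rw [iteratedDeriv_zero]
  | succ k ih => rw [iteratedDeriv_succ, ih]; funext x; simp

theorem binf_zero (t1 t2 : ℝ) : BInf (fun _ _ => (0 : ℝ)) (fun _ _ => 0) t1 t2 where
  smooth := fun _ _ => contDiff_const
  cont := by intro k; rw [iter_zero]; exact continuousOn_const
  bound := by intro k; exact ⟨0, fun t _ x => by rw [iter_zero]; simp⟩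
  dt := fun t _ x => hasDerivWithinAt_const _ _ _
  contt := continuousOn_const
  boundt := ⟨0, fun t _ x => by simp⟩

theorem hinf_zero (t1 t2 : ℝ) : HInf (fun _ _ => (0 : ℝ)) t1 t2 where
  smooth := fun _ _ => contDiff_const
  cont := by intro k; rw [iter_zero]; exact continuousOn_const
  memLp := by intro k t _; rw [iter_zero]; exact MemLp.zero
  bound := by intro k; exact ⟨0, fun t _ => by rw [iter_zero]; simp⟩

theorem htd_zero (t1 t2 : ℝ) : HasTimeDeriv (fun _ _ => (0 : ℝ)) (fun _ _ => 0) t1 t2 := by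
  intro k t _ x
  rw [iter_zero]
  exact hasDerivWithinAt_const _ _ _

/-- The source vanishes for solutions. -/
theorem srcS_sol {u : ℝ → ℝ → ℝ} {t : ℝ} (hu : ContDiff ℝ (⊤ : ℕ∞) (u t)) (x : ℝ) :
    srcS (fun _ _ => 0) u (fun t x => - deriv (flux (u t)) x) t x = 0 := by
  have h0 : ContDiff ℝ (⊤ : ℕ∞) (deriv (u t)) := (contDiff_infty_iff_deriv.1 hu).2
  have h1 : ContDiff ℝ (⊤ : ℕ∞) (deriv (deriv (u t))) := (contDiff_infty_iff_deriv.1 h0).2
  have hfl : flux (u t) = fun x => deriv (deriv (u t)) x + u t x ^ 5 := by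
    funext y
    unfold flux
    rw [iteratedDeriv_succ, iteratedDeriv_one]
  have hd1 : DifferentiableAt ℝ (deriv (deriv (u t))) x := h1.differentiable (by simp) x
  have hd2 : DifferentiableAt ℝ (fun x => u t x ^ 5) x := (hu.differentiable (by simp) x).pow 5
  have hnG : (fun x' => nG 0 (u t x')) = fun x' => u t x' ^ 5 := by
    funext y; unfold nG; ring
  unfold srcS
  show - deriv (flux (u t)) x + iteratedDeriv 3 (u t) x + deriv (fun x' => nG 0 (u t x')) x = 0
  rw [hfl, deriv_fun_add hd1 hd2, hnG, iteratedDeriv_succ, iteratedDeriv_succ, iteratedDeriv_one]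
  ring

theorem kato_right {M : ℝ} : ∃ C : ℝ, 0 ≤ C ∧ ∀ (u : ℝ → ℝ → ℝ) (t1 t2 : ℝ), t1 < t2 → SmoothSol u t1 t2 →
    (∀ t ∈ Icc t1 t2, (∫ x, u t x ^ 2) ≤ M) → (∀ t ∈ Icc t1 t2, ∀ x, 1 ≤ x → |u t x| ≤ 1) →
    (∀ x, 1 ≤ x → u t1 x = 0) → ∀ R, ∀ t ∈ Icc t1 t2,
      Integrable (fun x => wR R x * u t x ^ 2) ∧
      (∫ x, wR R x * u t x ^ 2) ≤ C * (t2 - t1) := by
  obtain ⟨C3, hC3, hb3⟩ := wR_third
  refine ⟨(C3 + 5 / 3) * |M|, by positivity, ?_⟩
  intro u t1 t2 h12 hsol hM hle hinit R t ht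
  have hT := Pool.Agent.Helper75.KV.time Pool.Agent.Helper79.KV.stat
  have hsub : Icc t1 t ⊆ Icc t1 t2 := Icc_subset_Icc_right ht.2
  have hinf : HInf u t1 t := Pool.Agent.Helper26.KV.hinf_mono hsol.hinf le_rfl ht.2
  have hinf' : HInf (fun t x => - deriv (flux (u t)) x) t1 t := Pool.Agent.Helper26.KV.HInf_wflux hinf
  have htd : HasTimeDeriv u (fun t x => - deriv (flux (u t)) x) t1 t := fun k s hs x =>
    (hsol.eqn k s (hsub hs) x).mono hsub
  obtain ⟨a1, a2, a3, a4⟩ := hT t1 t (fun _ => wR R) (fun _ _ => 0) (fun _ _ => 0) (fun _ _ => 0)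
    (fun _ _ => 0) (fun _ _ => 0) u (fun t x => - deriv (flux (u t)) x) ht.1 (binf_wR R t1 t)
    (binf_zero t1 t) (hinf_zero t1 t) (hinf_zero t1 t) (htd_zero t1 t) hinf hinf' htd
  have hdens : ∀ s x, dens (wR R x) 0 0 (u s x) (deriv (u s) x) = wR R x * u s x ^ 2 := by
    intro s x; unfold dens; ring
  have htI : t ∈ Icc t1 t := ⟨ht.1, le_rfl⟩
  refine ⟨(a2 t htI).congr (Eventually.of_forall fun x => hdens t x), ?_⟩
  have hf2 : ∀ s, fun2 (fun _ => wR R) (fun _ _ => 0) (fun _ _ => 0) u s = ∫ x, wR R x * u s x ^ 2 := by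
    intro s
    unfold fun2
    exact integral_congr_ae (Eventually.of_forall fun x => hdens s x)
  have hstart : (∫ x, wR R x * u t1 x ^ 2) = 0 := by
    rw [← integral_zero ℝ ℝ]
    refine integral_congr_ae (Eventually.of_forall fun x => ?_)
    show wR R x * u t1 x ^ 2 = 0
    rcases le_total x 1 with h | h
    · rw [wR_left h, zero_mul]
    · rw [hinit x h]; ring
  rw [hf2, hf2, hstart, sub_zero] at a4
  rw [a4]
  -- pointwise bound of the integrand
  have hpt : ∀ s ∈ Icc t1 t, ∀ x, tInt (fun _ => wR R) (fun _ _ => 0) (fun _ _ => 0) (fun _ _ => 0)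
      (fun _ _ => 0) (fun _ _ => 0) u (fun t x => - deriv (flux (u t)) x) s x ≤
      (C3 + 5 / 3) * u s x ^ 2 := by
    intro s hs x
    have hsm := hinf.smooth s hs
    have hS : srcS (fun _ _ => 0) u (fun t x => - deriv (flux (u t)) x) s x = 0 := srcS_sol hsm x
    have hp1 : deriv (wR R) x = thR R x := by rw [wR_deriv]
    unfold tInt
    rw [hS, hp1]
    unfold rhsD nGG nG nG2
    have k1 := thR_nonneg R x
    have k2 := thR_le_one R x
    have k3 := (abs_le.1 (hb3 R x)).2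
    have k4 : thR R x * u s x ^ 6 ≤ u s x ^ 2 := by
      rcases le_total x 1 with h | h
      · rw [thR_left h, zero_mul]; positivity
      · have h1 := hle s (hsub hs) x h
        have h2 : u s x ^ 2 ≤ 1 := by rw [← sq_abs]; exact pow_le_one₀ (abs_nonneg _) h1
        have h3 : u s x ^ 6 ≤ u s x ^ 2 := by
          have : u s x ^ 6 = u s x ^ 2 * (u s x ^ 2) ^ 2 := by ring
          rw [this]
          exact mul_le_of_le_one_right (sq_nonneg _) (pow_le_one₀ (sq_nonneg _) h2)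
        calc thR R x * u s x ^ 6 ≤ 1 * u s x ^ 6 := mul_le_mul_of_nonneg_right k2 (by positivity)
          _ ≤ u s x ^ 2 := by rw [one_mul]; exact h3
    have k5 : 0 ≤ thR R x * deriv (u s) x ^ 2 := mul_nonneg k1 (sq_nonneg _)
    have k6 : iteratedDeriv 3 (wR R) x * u s x ^ 2 ≤ C3 * u s x ^ 2 :=
      mul_le_mul_of_nonneg_right k3 (sq_nonneg _)
    simp only [iter_zero, deriv_const]
    nlinarith
  have hin : ∀ s ∈ Icc t1 t, (∫ x, tInt (fun _ => wR R) (fun _ _ => 0) (fun _ _ => 0) (fun _ _ => 0)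
      (fun _ _ => 0) (fun _ _ => 0) u (fun t x => - deriv (flux (u t)) x) s x) ≤
      (C3 + 5 / 3) * |M| := by
    intro s hs
    have hi2 : Integrable (fun x => u s x ^ 2) := by
      have := hinf.memLp 0 s hs
      rw [iteratedDeriv_zero] at this
      exact this.integrable_sq
    calc _ ≤ ∫ x, (C3 + 5 / 3) * u s x ^ 2 := integral_mono (a1 s hs) (hi2.const_mul _) (hpt s hs)
      _ = (C3 + 5 / 3) * ∫ x, u s x ^ 2 := integral_const_mul _ _
      _ ≤ (C3 + 5 / 3) * |M| :=
        mul_le_mul_of_nonneg_left ((hM s (hsub hs)).trans (le_abs_self _)) (by positivity)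
  calc _ ≤ ∫ s in t1..t, (C3 + 5 / 3) * |M| :=
        intervalIntegral.integral_mono_on ht.1 a3 intervalIntegrable_const hin
    _ = (t - t1) * ((C3 + 5 / 3) * |M|) := by rw [intervalIntegral.integral_const, smul_eq_mul]
    _ ≤ (C3 + 5 / 3) * |M| * (t2 - t1) := by
      rw [mul_comm]
      exact mul_le_mul_of_nonneg_left (by linarith [ht.2]) (by positivity)

/-- **RTIGHT.** Tightness on the right with weight `1 + |x|`. -/
theorem rtight (M : ℝ) : ∃ C : ℝ, 0 ≤ C ∧ ∀ (u : ℝ → ℝ → ℝ) (t1 t2 : ℝ), t1 < t2 → t2 ≤ t1 + 1 →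
    SmoothSol u t1 t2 →
    (∀ t ∈ Icc t1 t2, (∫ x, u t x ^ 2) ≤ M) → (∀ t ∈ Icc t1 t2, ∀ x, 1 ≤ x → |u t x| ≤ 1) →
    (∀ x, 1 ≤ x → u t1 x = 0) → ∀ t ∈ Icc t1 t2,
      IntegrableOn (fun x => u t x ^ 2 * (1 + |x|)) (Ioi 2) ∧
      (∫ x in Ioi 2, u t x ^ 2 * (1 + |x|)) ≤ C := by
  obtain ⟨C, hC, hk⟩ := kato_right (M := M)
  refine ⟨C + 3 * |M|, by positivity, ?_⟩
  intro u t1 t2 h12 h21 hsol hM hle hinit t ht
  have hsm := hsol.hinf.smooth t ht
  have hi2 : Integrable (fun x => u t x ^ 2) := by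
    have := hsol.hinf.memLp 0 t ht
    rw [iteratedDeriv_zero] at this
    exact this.integrable_sq
  have hcont : Continuous (fun x => u t x ^ 2 * (1 + |x|)) :=
    (hsm.continuous.pow 2).mul (continuous_const.add continuous_abs)
  have hM0 : (∫ x, u t x ^ 2) ≤ |M| := (hM t ht).trans (le_abs_self _)
  -- bounds on `(2, n+1]`
  have hbd : ∀ n : ℕ, (∫ x in Ioc (2 : ℝ) ((n : ℝ) + 1), ‖u t x ^ 2 * (1 + |x|)‖) ≤ C + 3 * |M| := by
    intro n
    obtain ⟨k1, k2⟩ := hk u t1 t2 h12 hsol hM hle hinit (n : ℝ) t ht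
    have k3 : (∫ x, wR (n : ℝ) x * u t x ^ 2) ≤ C := by
      refine k2.trans ?_
      exact mul_le_of_le_one_right hC (by linarith)
    have hi3 : Integrable (fun x => wR (n : ℝ) x * u t x ^ 2 + 3 * u t x ^ 2) := k1.add (hi2.const_mul 3)
    calc (∫ x in Ioc (2 : ℝ) ((n : ℝ) + 1), ‖u t x ^ 2 * (1 + |x|)‖)
        ≤ ∫ x in Ioc (2 : ℝ) ((n : ℝ) + 1), (wR (n : ℝ) x * u t x ^ 2 + 3 * u t x ^ 2) := by
          refine setIntegral_mono_on ?_ hi3.integrableOn measurableSet_Ioc ?_
          · exact ((hcont.norm).integrableOn_Icc (a := 2) (b := (n : ℝ) + 1)).mono_set Ioc_subset_Icc_self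
          · intro x hx
            rw [Real.norm_eq_abs, abs_of_nonneg (by positivity), abs_of_nonneg (by linarith [hx.1] : (0:ℝ) ≤ x)]
            have h1 := wR_lower (R := (n : ℝ)) hx.1.le hx.2
            have h2 : 0 ≤ u t x ^ 2 := sq_nonneg _
            nlinarith [mul_le_mul_of_nonneg_right h1 h2]
      _ ≤ ∫ x, (wR (n : ℝ) x * u t x ^ 2 + 3 * u t x ^ 2) := by
          refine setIntegral_le_integral hi3 (Eventually.of_forall fun x => ?_)
          have := wR_nonneg (n : ℝ) x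
          positivity
      _ = (∫ x, wR (n : ℝ) x * u t x ^ 2) + 3 * ∫ x, u t x ^ 2 := by
          rw [integral_add k1 (hi2.const_mul 3), integral_const_mul]
      _ ≤ C + 3 * |M| := by linarith
  have htend : Tendsto (fun n : ℕ => (n : ℝ) + 1) atTop atTop :=
    tendsto_atTop_add_const_right _ _ tendsto_natCast_atTop_atTop
  have hint : IntegrableOn (fun x => u t x ^ 2 * (1 + |x|)) (Ioi 2) := by
    refine integrableOn_Ioi_of_intervalIntegral_norm_bounded (C + 3 * |M|) 2
      (fun n : ℕ => (hcont.integrableOn_Icc (a := 2) (b := (n : ℝ) + 1)).mono_set Ioc_subset_Icc_self)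
      htend ?_
    filter_upwards [eventually_ge_atTop 1] with n hn
    have h1n : (2 : ℝ) ≤ (n : ℝ) + 1 := by
      have : (1 : ℝ) ≤ n := by exact_mod_cast hn
      linarith
    rw [intervalIntegral.integral_of_le h1n]
    exact hbd n
  refine ⟨hint, ?_⟩
  have hlim := intervalIntegral_tendsto_integral_Ioi 2 hint htend
  refine le_of_tendsto hlim ?_
  filter_upwards [eventually_ge_atTop 1] with n hn
  have h1n : (2 : ℝ) ≤ (n : ℝ) + 1 := by
    have : (1 : ℝ) ≤ n := by exact_mod_cast hn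
    linarith
  rw [intervalIntegral.integral_of_le h1n]
  refine le_trans (setIntegral_mono_on ?_ ?_ measurableSet_Ioc fun x _ => Real.le_norm_self _) (hbd n)
  · exact (hcont.integrableOn_Icc (a := 2) (b := (n : ℝ) + 1)).mono_set Ioc_subset_Icc_self
  · exact ((hcont.norm).integrableOn_Icc (a := 2) (b := (n : ℝ) + 1)).mono_set Ioc_subset_Icc_self

end Pool.Agent.Helper25.KV
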