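import Pool.Agent.Helper33.KV.GoalsF2
import Pool.Agent.Helper48.KV.GoalsJ
import Pool.Agent.Helper25.KV.RTight2
import Pool.Agent.Helper25.KV.Fin1

/-!
# Project KV, assembly of `Goal_APPROX`, part 1: change of variables between inner and outer variables
-/

namespace Pool.Agent.Helper25.KV

open Real MeasureTheory Set Filter Topology
open Pool.Agent.Helper33.KV Pool.Agent.Helper48.KV
open Pool.Agent.Helper41.KV (Q wt)

/-- Outer version of an inner function. -/
noncomputable def ou (α t : ℝ) (f : ℝ → ℝ) (x : ℝ) : ℝ :=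
  (1 / Real.sqrt (lam α t)) * f ((x - sig α t) / lam α t)

theorem cov_int {lm sg : ℝ} (hl : 0 < lm) (F : ℝ → ℝ) :
    (∫ x, F ((x - sg) / lm)) = lm * ∫ y, F y := by
  have h1 : (∫ x, F ((x - sg) / lm)) = ∫ x, F (x / lm) :=
    integral_sub_right_eq_self (fun x => F (x / lm)) sg
  rw [h1, Measure.integral_comp_div, abs_of_pos hl, smul_eq_mul]

theorem cov_intble {lm sg : ℝ} (hl : 0 < lm) {F : ℝ → ℝ} (hF : Integrable F) :
    Integrable (fun x => F ((x - sg) / lm)) :=
  (hF.comp_div hl.ne').comp_sub_right sg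

theorem ou_sq {α t : ℝ} (hl : 0 < lam α t) (f : ℝ → ℝ) (x : ℝ) :
    ou α t f x ^ 2 = (1 / lam α t) * f ((x - sig α t) / lam α t) ^ 2 := by
  unfold ou
  rw [mul_pow, div_pow, one_pow, Real.sq_sqrt hl.le]

/-- `∫ m (ou f)^2 = ∫ m f^2`. -/
theorem ou_int {α t : ℝ} (hl : 0 < lam α t) (m f : ℝ → ℝ)
    (h : Integrable (fun y => m y * f y ^ 2)) :
    Integrable (fun x => m ((x - sig α t) / lam α t) * ou α t f x ^ 2) ∧
      (∫ x, m ((x - sig α t) / lam α t) * ou α t f x ^ 2) = ∫ y, m y * f y ^ 2 := by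
  have heq : (fun x => m ((x - sig α t) / lam α t) * ou α t f x ^ 2) = fun x =>
      (1 / lam α t) * (fun y => m y * f y ^ 2) ((x - sig α t) / lam α t) := by
    funext x
    rw [ou_sq hl]
    ring
  rw [heq]
  refine ⟨(cov_intble hl h).const_mul _, ?_⟩
  rw [integral_const_mul, cov_int hl (fun y => m y * f y ^ 2)]
  field_simp

theorem ou_int1 {α t : ℝ} (hl : 0 < lam α t) (f : ℝ → ℝ) (h : Integrable (fun y => f y ^ 2)) :
    Integrable (fun x => ou α t f x ^ 2) ∧ (∫ x, ou α t f x ^ 2) = ∫ y, f y ^ 2 := by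
  have := ou_int hl (fun _ => 1) f (by simpa using h)
  simpa using this

theorem ou_hasDerivAt {α t : ℝ} {f : ℝ → ℝ} (hf : Differentiable ℝ f) (x : ℝ) :
    HasDerivAt (ou α t f)
      ((1 / Real.sqrt (lam α t)) * (deriv f ((x - sig α t) / lam α t) * (1 / lam α t))) x := by
  have h1 : HasDerivAt (fun x : ℝ => (x - sig α t) / lam α t) (1 / lam α t) x :=
    ((hasDerivAt_id x).sub_const _).div_const _
  have h2 := ((hf ((x - sig α t) / lam α t)).hasDerivAt).comp x h1
  exact h2.const_mul _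

theorem ou_deriv {α t : ℝ} {f : ℝ → ℝ} (hf : Differentiable ℝ f) (x : ℝ) :
    deriv (ou α t f) x = (1 / lam α t) * ou α t (deriv f) x := by
  rw [(ou_hasDerivAt hf x).deriv]
  unfold ou
  ring

theorem ou_int_deriv {α t : ℝ} (hl : 0 < lam α t) (m : ℝ → ℝ) {f : ℝ → ℝ} (hf : Differentiable ℝ f)
    (h : Integrable (fun y => m y * deriv f y ^ 2)) :
    Integrable (fun x => m ((x - sig α t) / lam α t) * deriv (ou α t f) x ^ 2) ∧
      (∫ x, m ((x - sig α t) / lam α t) * deriv (ou α t f) x ^ 2) =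
        (1 / lam α t) ^ 2 * ∫ y, m y * deriv f y ^ 2 := by
  obtain ⟨h1, h2⟩ := ou_int hl m (deriv f) h
  have heq : (fun x => m ((x - sig α t) / lam α t) * deriv (ou α t f) x ^ 2) = fun x =>
      (1 / lam α t) ^ 2 * (m ((x - sig α t) / lam α t) * ou α t (deriv f) x ^ 2) := by
    funext x
    rw [ou_deriv hf]
    ring
  rw [heq]
  refine ⟨h1.const_mul _, ?_⟩
  rw [integral_const_mul, h2]

/-- `u = ou (inn u)`. -/
theorem ou_inn {α t : ℝ} (hl : 0 < lam α t) (u : ℝ → ℝ → ℝ) (x : ℝ) :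
    ou α t (inn α u t) x = u t x := by
  unfold ou inn
  have h1 : sig α t + lam α t * ((x - sig α t) / lam α t) = x := by field_simp; ring
  have h2 : Real.sqrt (lam α t) ≠ 0 := (Real.sqrt_pos.2 hl).ne'
  rw [h1]
  field_simp

theorem inn_smooth {α t : ℝ} {u : ℝ → ℝ → ℝ} (hu : ContDiff ℝ (⊤ : ℕ∞) (u t)) :
    ContDiff ℝ (⊤ : ℕ∞) (inn α u t) := by
  unfold inn
  exact contDiff_const.mul (hu.comp (contDiff_const.add (contDiff_const.mul contDiff_id)))

theorem ou_smooth {α t : ℝ} {f : ℝ → ℝ} (hf : ContDiff ℝ (⊤ : ℕ∞) f) :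
    ContDiff ℝ (⊤ : ℕ∞) (ou α t f) := by
  unfold ou
  exact contDiff_const.mul (hf.comp ((contDiff_id.sub contDiff_const).div_const _))

end Pool.Agent.Helper25.KV
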