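import Pool.Agent.Helper25.KV.Ap1

/-!
# Project KV, assembly of `Goal_APPROX`, part 2: static estimates at one time

Everything is a pointwise inequality between integrable functions.
-/

namespace Pool.Agent.Helper25.KV

open Real MeasureTheory Set Filter Topology

/-- (O2) weighted `L^2` bound from the left functional, the mass and the right tightness.
`c` = cut-off, `Zf = (z/3t)^κ`. -/
theorem stat_mass {κ CR Mw : ℝ} {w u c Zf : ℝ → ℝ} (hκ : 0 < κ) (hκ1 : κ < 1)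
    (hw : Continuous w) (hu : Continuous u)
    (hc0 : ∀ x, 0 ≤ c x) (hZ0 : ∀ x, 0 ≤ Zf x)
    (hleft : ∀ x, x ≤ -1 → c x = 1 ∧ (1 + |x|) ^ κ ≤ 3 * Zf x)
    (hwu : ∀ x, -1 ≤ x → w x = u x)
    (hJ : Integrable (fun x => c x * Zf x * w x ^ 2)) (hJ1 : (∫ x, c x * Zf x * w x ^ 2) ≤ 1)
    (hw2 : Integrable (fun x => w x ^ 2)) (hM : (∫ x, w x ^ 2) ≤ Mw)
    (hR : IntegrableOn (fun x => u x ^ 2 * (1 + |x|)) (Ioi 2))
    (hR1 : (∫ x in Ioi 2, u x ^ 2 * (1 + |x|)) ≤ CR) :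
    Integrable (fun x => w x ^ 2 * (1 + |x|) ^ κ) ∧
      (∫ x, w x ^ 2 * (1 + |x|) ^ κ) ≤ 3 + 3 * Mw + CR := by
  have hR' : Integrable ((Ioi (2 : ℝ)).indicator (fun x => u x ^ 2 * (1 + |x|))) :=
    (integrable_indicator_iff measurableSet_Ioi).2 hR
  have hmaj : Integrable (fun x => 3 * (c x * Zf x * w x ^ 2) + 3 * w x ^ 2 +
      (Ioi (2 : ℝ)).indicator (fun x => u x ^ 2 * (1 + |x|)) x) :=
    ((hJ.const_mul 3).add (hw2.const_mul 3)).add hR'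
  have hpt : ∀ x, w x ^ 2 * (1 + |x|) ^ κ ≤ 3 * (c x * Zf x * w x ^ 2) + 3 * w x ^ 2 +
      (Ioi (2 : ℝ)).indicator (fun x => u x ^ 2 * (1 + |x|)) x := by
    intro x
    have h0 : 0 ≤ w x ^ 2 := sq_nonneg _
    have h1 : 0 ≤ c x * Zf x * w x ^ 2 := mul_nonneg (mul_nonneg (hc0 x) (hZ0 x)) h0
    have h2 : 0 ≤ (Ioi (2 : ℝ)).indicator (fun x => u x ^ 2 * (1 + |x|)) x :=
      indicator_nonneg (fun y _ => by positivity) x
    rcases le_total x (-1) with hx | hx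
    · obtain ⟨e1, e2⟩ := hleft x hx
      have : w x ^ 2 * (1 + |x|) ^ κ ≤ w x ^ 2 * (3 * Zf x) := mul_le_mul_of_nonneg_left e2 h0
      rw [e1] at h1 ⊢
      linarith
    · rcases le_or_gt x 2 with hx2 | hx2
      · have hax : |x| ≤ 2 := abs_le.2 ⟨by linarith, hx2⟩
        have h3 : (1 + |x|) ^ κ ≤ 3 := by
          calc (1 + |x|) ^ κ ≤ (3 : ℝ) ^ κ :=
                Real.rpow_le_rpow (by positivity) (by linarith) hκ.le
            _ ≤ (3 : ℝ) ^ (1 : ℝ) := Real.rpow_le_rpow_of_exponent_le (by norm_num) hκ1.le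
            _ = 3 := Real.rpow_one 3
        have : w x ^ 2 * (1 + |x|) ^ κ ≤ w x ^ 2 * 3 := mul_le_mul_of_nonneg_left h3 h0
        linarith
      · have h3 : (1 + |x|) ^ κ ≤ 1 + |x| := by
          calc (1 + |x|) ^ κ ≤ (1 + |x|) ^ (1 : ℝ) :=
                Real.rpow_le_rpow_of_exponent_le (by linarith [abs_nonneg x]) hκ1.le
            _ = 1 + |x| := Real.rpow_one _
        have h4 : (Ioi (2 : ℝ)).indicator (fun x => u x ^ 2 * (1 + |x|)) x = u x ^ 2 * (1 + |x|) :=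
          indicator_of_mem (show x ∈ Ioi (2 : ℝ) from hx2) _
        rw [h4]
        have h5 : w x ^ 2 * (1 + |x|) ^ κ ≤ w x ^ 2 * (1 + |x|) := mul_le_mul_of_nonneg_left h3 h0
        rw [hwu x hx] at h5 ⊢
        have h6 : 0 ≤ c x * Zf x * u x ^ 2 := mul_nonneg (mul_nonneg (hc0 x) (hZ0 x)) (sq_nonneg _)
        have h7 : 0 ≤ u x ^ 2 := sq_nonneg _
        linarith
  have hcont : Continuous (fun x => w x ^ 2 * (1 + |x|) ^ κ) := by
    refine (hw.pow 2).mul (Continuous.rpow_const (by fun_prop) fun x => Or.inr hκ.le)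
  have hI : Integrable (fun x => w x ^ 2 * (1 + |x|) ^ κ) := by
    refine hmaj.mono' hcont.aestronglyMeasurable (Eventually.of_forall fun x => ?_)
    rw [Real.norm_eq_abs, abs_of_nonneg (by positivity)]
    exact hpt x
  refine ⟨hI, ?_⟩
  calc (∫ x, w x ^ 2 * (1 + |x|) ^ κ) ≤ ∫ x, (3 * (c x * Zf x * w x ^ 2) + 3 * w x ^ 2 +
      (Ioi (2 : ℝ)).indicator (fun x => u x ^ 2 * (1 + |x|)) x) := integral_mono hI hmaj hpt
    _ = 3 * (∫ x, c x * Zf x * w x ^ 2) + 3 * (∫ x, w x ^ 2) +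
        ∫ x in Ioi 2, u x ^ 2 * (1 + |x|) := by
      have i12 : Integrable (fun x => 3 * (c x * Zf x * w x ^ 2) + 3 * w x ^ 2) :=
        (hJ.const_mul 3).add (hw2.const_mul 3)
      rw [integral_add i12 hR',
        integral_add (hJ.const_mul 3) (hw2.const_mul 3), integral_const_mul, integral_const_mul,
        integral_indicator measurableSet_Ioi]
    _ ≤ 3 + 3 * Mw + CR := by linarith

/-- (O3) weighted bound of the derivative. `P` = logistic weight, `Zd = (z/3t)^{κ-1}`. -/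
theorem stat_deriv {κ B J1 W1 Z1 E1 : ℝ} {Dw Wd Zd' Ed c Zd P : ℝ → ℝ}
    (hDw : Continuous Dw) (hκ1 : κ < 1) (hB : 0 ≤ B)
    (hc0 : ∀ x, 0 ≤ c x) (hZ0 : ∀ x, 0 ≤ Zd x) (hP0 : ∀ x, 0 ≤ P x)
    (hsmall : ∀ x, P x < 1 / 4 → c x = 1 ∧ (1 + |x|) ^ (κ - 1) ≤ B * Zd x)
    (hlarge : ∀ x, 1 / 4 ≤ P x → Dw x = Wd x + Zd' x + Ed x)
    (hJ : Integrable (fun x => c x * Zd x * Dw x ^ 2)) (hJ1 : (∫ x, c x * Zd x * Dw x ^ 2) ≤ J1)
    (hW : Integrable (fun x => Wd x ^ 2)) (hW1 : (∫ x, Wd x ^ 2) ≤ W1)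
    (hZ : Integrable (fun x => Zd' x ^ 2)) (hZ1 : (∫ x, Zd' x ^ 2) ≤ Z1)
    (hE : Integrable (fun x => P x * Ed x ^ 2)) (hE1 : (∫ x, P x * Ed x ^ 2) ≤ E1) :
    Integrable (fun x => Dw x ^ 2 * (1 + |x|) ^ (κ - 1)) ∧
      (∫ x, Dw x ^ 2 * (1 + |x|) ^ (κ - 1)) ≤ B * J1 + 3 * W1 + 3 * Z1 + 12 * E1 := by
  have hmaj : Integrable (fun x => B * (c x * Zd x * Dw x ^ 2) + 3 * Wd x ^ 2 + 3 * Zd' x ^ 2 +
      12 * (P x * Ed x ^ 2)) :=
    (((hJ.const_mul B).add (hW.const_mul 3)).add (hZ.const_mul 3)).add (hE.const_mul 12)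
  have hpt : ∀ x, Dw x ^ 2 * (1 + |x|) ^ (κ - 1) ≤ B * (c x * Zd x * Dw x ^ 2) + 3 * Wd x ^ 2 +
      3 * Zd' x ^ 2 + 12 * (P x * Ed x ^ 2) := by
    intro x
    have h0 : 0 ≤ Dw x ^ 2 := sq_nonneg _
    have h1 : 0 ≤ B * (c x * Zd x * Dw x ^ 2) :=
      mul_nonneg hB (mul_nonneg (mul_nonneg (hc0 x) (hZ0 x)) h0)
    have h2 : 0 ≤ P x * Ed x ^ 2 := mul_nonneg (hP0 x) (sq_nonneg _)
    have h3 : 0 ≤ Wd x ^ 2 := sq_nonneg _
    have h4 : 0 ≤ Zd' x ^ 2 := sq_nonneg _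
    rcases lt_or_ge (P x) (1 / 4) with hx | hx
    · obtain ⟨e1, e2⟩ := hsmall x hx
      have : Dw x ^ 2 * (1 + |x|) ^ (κ - 1) ≤ Dw x ^ 2 * (B * Zd x) :=
        mul_le_mul_of_nonneg_left e2 h0
      rw [e1] at h1 ⊢
      nlinarith
    · have h5 : (1 + |x|) ^ (κ - 1) ≤ 1 :=
        Real.rpow_le_one_of_one_le_of_nonpos (by linarith [abs_nonneg x]) (by linarith)
      have h6 : Dw x ^ 2 * (1 + |x|) ^ (κ - 1) ≤ Dw x ^ 2 := mul_le_of_le_one_right h0 h5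
      have h7 : Dw x ^ 2 ≤ 3 * Wd x ^ 2 + 3 * Zd' x ^ 2 + 3 * Ed x ^ 2 := by
        rw [hlarge x hx]
        nlinarith [sq_nonneg (Wd x - Zd' x), sq_nonneg (Wd x - Ed x), sq_nonneg (Zd' x - Ed x)]
      have h8 : Ed x ^ 2 ≤ 4 * (P x * Ed x ^ 2) := by nlinarith [sq_nonneg (Ed x)]
      linarith
  have hcont : Continuous (fun x => Dw x ^ 2 * (1 + |x|) ^ (κ - 1)) := by
    refine (hDw.pow 2).mul (Continuous.rpow_const (by fun_prop) fun x => Or.inl ?_)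
    have := abs_nonneg x
    positivity
  have hI : Integrable (fun x => Dw x ^ 2 * (1 + |x|) ^ (κ - 1)) := by
    refine hmaj.mono' hcont.aestronglyMeasurable (Eventually.of_forall fun x => ?_)
    rw [Real.norm_eq_abs, abs_of_nonneg (by positivity)]
    exact hpt x
  refine ⟨hI, ?_⟩
  calc _ ≤ ∫ x, (B * (c x * Zd x * Dw x ^ 2) + 3 * Wd x ^ 2 + 3 * Zd' x ^ 2 +
      12 * (P x * Ed x ^ 2)) := integral_mono hI hmaj hpt
    _ = B * (∫ x, c x * Zd x * Dw x ^ 2) + 3 * (∫ x, Wd x ^ 2) + 3 * (∫ x, Zd' x ^ 2) +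
        12 * ∫ x, P x * Ed x ^ 2 := by
      have i12 : Integrable (fun x => B * (c x * Zd x * Dw x ^ 2) + 3 * Wd x ^ 2) :=
        (hJ.const_mul B).add (hW.const_mul 3)
      have i123 : Integrable (fun x => B * (c x * Zd x * Dw x ^ 2) + 3 * Wd x ^ 2 +
          3 * Zd' x ^ 2) := i12.add (hZ.const_mul 3)
      rw [integral_add i123 (hE.const_mul 12), integral_add i12 (hZ.const_mul 3),
        integral_add (hJ.const_mul B) (hW.const_mul 3), integral_const_mul, integral_const_mul,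
        integral_const_mul, integral_const_mul]
    _ ≤ B * J1 + 3 * W1 + 3 * Z1 + 12 * E1 := by
      have := mul_le_mul_of_nonneg_left hJ1 hB
      linarith

/-- (O1) distance to `W + g`. -/
theorem stat_dist {Nn Ln Zn En : ℝ} {w W0 Zo E0 D0 d P : ℝ → ℝ}
    (hD : AEStronglyMeasurable D0 volume) (hd0 : ∀ x, 0 ≤ d x) (hP0 : ∀ x, 0 ≤ P x)
    (hsmall : ∀ x, P x ≤ 1 / 2 → 1 / 2 ≤ d x ∧ D0 x = w x - W0 x)
    (hlarge : ∀ x, 1 / 2 ≤ P x → D0 x = Zo x + E0 x)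
    (hN : Integrable (fun x => d x ^ 2 * w x ^ 2)) (hN1 : (∫ x, d x ^ 2 * w x ^ 2) ≤ Nn)
    (hL : Integrable (fun x => (1 - P x) ^ 2 * W0 x ^ 2)) (hL1 : (∫ x, (1 - P x) ^ 2 * W0 x ^ 2) ≤ Ln)
    (hZ : Integrable (fun x => Zo x ^ 2)) (hZ1 : (∫ x, Zo x ^ 2) ≤ Zn)
    (hE : Integrable (fun x => P x * E0 x ^ 2)) (hE1 : (∫ x, P x * E0 x ^ 2) ≤ En) :
    Integrable (fun x => D0 x ^ 2) ∧
      (∫ x, D0 x ^ 2) ≤ 8 * Nn + 8 * Ln + 2 * Zn + 4 * En := by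
  have hmaj : Integrable (fun x => 8 * (d x ^ 2 * w x ^ 2) + 8 * ((1 - P x) ^ 2 * W0 x ^ 2) +
      2 * Zo x ^ 2 + 4 * (P x * E0 x ^ 2)) :=
    (((hN.const_mul 8).add (hL.const_mul 8)).add (hZ.const_mul 2)).add (hE.const_mul 4)
  have hpt : ∀ x, D0 x ^ 2 ≤ 8 * (d x ^ 2 * w x ^ 2) + 8 * ((1 - P x) ^ 2 * W0 x ^ 2) +
      2 * Zo x ^ 2 + 4 * (P x * E0 x ^ 2) := by
    intro x
    have h1 : 0 ≤ d x ^ 2 * w x ^ 2 := by positivity
    have h2 : 0 ≤ (1 - P x) ^ 2 * W0 x ^ 2 := by positivity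
    have h3 : 0 ≤ Zo x ^ 2 := sq_nonneg _
    have h4 : 0 ≤ P x * E0 x ^ 2 := mul_nonneg (hP0 x) (sq_nonneg _)
    rcases le_total (P x) (1 / 2) with hx | hx
    · obtain ⟨e1, e2⟩ := hsmall x hx
      have k1 : w x ^ 2 ≤ 4 * (d x ^ 2 * w x ^ 2) := by
        have : (1 : ℝ) ≤ 4 * d x ^ 2 := by nlinarith
        nlinarith [mul_le_mul_of_nonneg_right this (sq_nonneg (w x))]
      have k2 : W0 x ^ 2 ≤ 4 * ((1 - P x) ^ 2 * W0 x ^ 2) := by
        have : (1 : ℝ) ≤ 4 * (1 - P x) ^ 2 := by nlinarith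
        nlinarith [mul_le_mul_of_nonneg_right this (sq_nonneg (W0 x))]
      rw [e2]
      nlinarith [sq_nonneg (w x + W0 x)]
    · rw [hlarge x hx]
      have k3 : E0 x ^ 2 ≤ 2 * (P x * E0 x ^ 2) := by nlinarith [sq_nonneg (E0 x)]
      nlinarith [sq_nonneg (Zo x - E0 x)]
  have hI : Integrable (fun x => D0 x ^ 2) := by
    refine hmaj.mono' (hD.pow 2) (Eventually.of_forall fun x => ?_)
    rw [Real.norm_eq_abs, abs_of_nonneg (sq_nonneg _)]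
    exact hpt x
  refine ⟨hI, ?_⟩
  calc _ ≤ ∫ x, (8 * (d x ^ 2 * w x ^ 2) + 8 * ((1 - P x) ^ 2 * W0 x ^ 2) +
      2 * Zo x ^ 2 + 4 * (P x * E0 x ^ 2)) := integral_mono hI hmaj hpt
    _ = 8 * (∫ x, d x ^ 2 * w x ^ 2) + 8 * (∫ x, (1 - P x) ^ 2 * W0 x ^ 2) +
        2 * (∫ x, Zo x ^ 2) + 4 * ∫ x, P x * E0 x ^ 2 := by
      have i12 : Integrable (fun x => 8 * (d x ^ 2 * w x ^ 2) + 8 * ((1 - P x) ^ 2 * W0 x ^ 2)) :=
        (hN.const_mul 8).add (hL.const_mul 8)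
      have i123 : Integrable (fun x => 8 * (d x ^ 2 * w x ^ 2) + 8 * ((1 - P x) ^ 2 * W0 x ^ 2) +
          2 * Zo x ^ 2) := i12.add (hZ.const_mul 2)
      rw [integral_add i123 (hE.const_mul 4), integral_add i12 (hZ.const_mul 2),
        integral_add (hN.const_mul 8) (hL.const_mul 8), integral_const_mul, integral_const_mul,
        integral_const_mul, integral_const_mul]
    _ ≤ _ := by linarith

end Pool.Agent.Helper25.KV
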