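import Pool.Agent.Helper25.KV.Ap2
import Pool.Agent.Helper71.KV.F_WTL
import Pool.Agent.Helper26.KV.HInfAlg

/-!
# Project KV, assembly of `Goal_APPROX`, part 3: bounds at one time in inner variables
-/

namespace Pool.Agent.Helper25.KV

open Real MeasureTheory Set Filter Topology
open Pool.Agent.Helper33.KV Pool.Agent.Helper48.KV
open Pool.Agent.Helper41.KV (Q wt)

/-- In the region `wt ≤ 3/4` one is on the left and the exponential is small. -/
theorem wt_left {K ρ y : ℝ} (hK : 2 ≤ K) (hρ : 0 < ρ) (hρ3 : 3 * ρ < 1) (h : wt K ρ y ≤ 3 / 4) :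
    y ≤ 0 ∧ Real.exp (-|y| / 2) ≤ 3 * ρ := by
  have hK0 : 0 < K := by linarith
  unfold wt at h
  have h0 : 0 < ρ * Real.exp (-(y / K)) := by positivity
  rw [div_le_iff₀ (by linarith)] at h
  have h1 : 1 / 3 ≤ ρ * Real.exp (-(y / K)) := by linarith
  have h2 : Real.exp (y / K) ≤ 3 * ρ := by
    have h3 : Real.exp (-(y / K)) * Real.exp (y / K) = 1 := by
      rw [← Real.exp_add]
      simp
    have h4 : 0 < Real.exp (y / K) := Real.exp_pos _
    have h5 : 1 / 3 * Real.exp (y / K) ≤ ρ * Real.exp (-(y / K)) * Real.exp (y / K) :=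
      mul_le_mul_of_nonneg_right h1 h4.le
    have h6 : ρ * Real.exp (-(y / K)) * Real.exp (y / K) = ρ := by
      rw [mul_assoc, h3, mul_one]
    linarith
  have hy : y ≤ 0 := by
    by_contra hc
    push Not at hc
    have : (1 : ℝ) ≤ Real.exp (y / K) := Real.one_le_exp (by positivity)
    linarith
  refine ⟨hy, le_trans ?_ h2⟩
  apply Real.exp_le_exp.2
  rw [abs_of_nonpos hy, neg_neg]
  have h7 : (-y) / K ≤ (-y) / 2 := div_le_div_of_nonneg_left (by linarith) (by norm_num) hK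
  have h8 : (-y) / K = -(y / K) := by ring
  have h9 : (-y) / 2 = -(y / 2) := by ring
  linarith

theorem wt_half {K ρ y : ℝ} (hK : 0 < K) (hρ : 0 < ρ) (hρ1 : ρ ≤ 1) (hy : 0 ≤ y) :
    1 / 2 ≤ wt K ρ y := by
  unfold wt
  have h0 : 0 < ρ * Real.exp (-(y / K)) := by positivity
  have h1 : Real.exp (-(y / K)) ≤ 1 := Real.exp_le_one_iff.2 (by
    have : 0 ≤ y / K := by positivity
    linarith)
  rw [div_le_div_iff₀ (by norm_num) (by linarith)]
  nlinarith [mul_le_mul hρ1 h1 (Real.exp_pos _).le zero_le_one]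

theorem wt_le_one {K ρ : ℝ} (hρ : 0 < ρ) (y : ℝ) : wt K ρ y ≤ 1 := by
  unfold wt
  have h0 : 0 < ρ * Real.exp (-(y / K)) := by positivity
  rw [div_le_one (by linarith)]
  linarith

/-- Sup bound on the right half line by the weighted norm. -/
theorem sup_pos {K ρ : ℝ} (hK : 0 < K) (hρ : 0 < ρ) (hρ1 : ρ ≤ 1) {f : ℝ → ℝ}
    (hf : ContDiff ℝ 1 f) (h0 : MemLp f 2) (h1 : MemLp (deriv f) 2) {x : ℝ} (hx : 0 ≤ x) :
    f x ^ 2 ≤ 2 * ∫ y, wt K ρ y * (deriv f y ^ 2 + f y ^ 2) := by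
  have i0 : Integrable (fun y => f y ^ 2) := h0.integrable_sq
  have i1 : Integrable (fun y => deriv f y ^ 2) := h1.integrable_sq
  have hd : ∀ y, HasDerivAt (fun z => f z ^ 2) (2 * f y * deriv f y) y := by
    intro y
    have := ((hf.differentiable (by norm_num)) y).hasDerivAt.pow 2
    refine this.congr_deriv ?_
    norm_num
  have i2 : Integrable (fun y => 2 * f y * deriv f y) := by
    have : Integrable (fun y => f y * deriv f y) := h0.integrable_mul h1
    refine (this.const_mul 2).congr (Eventually.of_forall fun y => ?_)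
    simp only; ring
  have ht : Tendsto (fun y => f y ^ 2) atTop (𝓝 0) :=
    tendsto_zero_of_hasDerivAt_of_integrableOn_Ioi (a := 0) (fun y _ => hd y)
      i2.integrableOn i0.integrableOn
  have e := integral_Ioi_of_hasDerivAt_of_tendsto' (a := x) (fun y _ => hd y) i2.integrableOn ht
  have h3 : f x ^ 2 = ∫ y in Ioi x, -(2 * f y * deriv f y) := by
    rw [integral_neg, e]; ring
  have iw : Integrable (fun y => wt K ρ y * (deriv f y ^ 2 + f y ^ 2)) := by
    refine (i1.add i0).mono' ((Pool.Agent.Helper71.KV.wt_cont K hρ).mul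
      (((hf.continuous_deriv (by norm_num)).pow 2).add (hf.continuous.pow 2))).aestronglyMeasurable
      (Eventually.of_forall fun y => ?_)
    have hw0 := Pool.Agent.Helper71.KV.wt_pos K hρ y
    have hw1 := wt_le_one (K := K) hρ y
    rw [Real.norm_eq_abs, abs_of_nonneg (by positivity)]
    simp only [Pi.add_apply]
    exact mul_le_of_le_one_left (by positivity) hw1
  rw [h3]
  calc (∫ y in Ioi x, -(2 * f y * deriv f y))
      ≤ ∫ y in Ioi x, 2 * (wt K ρ y * (deriv f y ^ 2 + f y ^ 2)) := by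
        refine setIntegral_mono_on i2.neg.integrableOn (iw.const_mul 2).integrableOn
          measurableSet_Ioi fun y hy => ?_
        have h4 : 1 / 2 ≤ wt K ρ y := wt_half hK hρ hρ1 (hx.trans (le_of_lt hy))
        have h5 : 0 ≤ deriv f y ^ 2 + f y ^ 2 := by positivity
        nlinarith [mul_le_mul_of_nonneg_right h4 h5, sq_nonneg (f y + deriv f y)]
    _ ≤ ∫ y, 2 * (wt K ρ y * (deriv f y ^ 2 + f y ^ 2)) := by
        refine setIntegral_le_integral (iw.const_mul 2) (Eventually.of_forall fun y => ?_)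
        have hw0 := Pool.Agent.Helper71.KV.wt_pos K hρ y
        simp only [Pi.zero_apply]
        positivity
    _ = _ := integral_const_mul _ _

/-- Square of an exponentially localised function. -/
theorem loc_sq {s : ℝ} {f : ℝ → ℝ} (hf : Continuous f)
    (h : ∀ y, |f y| ≤ s * Real.exp (-(3 / 4) * |y|)) :
    Integrable (fun y => f y ^ 2) ∧ (∫ y, f y ^ 2) ≤ 2 * s ^ 2 := by
  have hi := Pool.Agent.Helper71.KV.integrable_exp_abs (3 / 2) (by norm_num)
  have hI := Pool.Agent.Helper71.KV.integral_exp_abs (3 / 2) (by norm_num)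
  have hpt : ∀ y, f y ^ 2 ≤ s ^ 2 * Real.exp (-(3 / 2 * |y|)) := by
    intro y
    have h1 : f y ^ 2 ≤ (s * Real.exp (-(3 / 4) * |y|)) ^ 2 := by
      rw [← sq_abs (f y)]
      exact pow_le_pow_left₀ (abs_nonneg _) (h y) 2
    have h2 : Real.exp (-(3 / 4) * |y|) ^ 2 = Real.exp (-(3 / 2 * |y|)) := by
      rw [← Real.exp_nat_mul]
      congr 1
      push_cast
      ring
    rw [mul_pow, h2] at h1
    exact h1
  have h3 : Integrable (fun y => f y ^ 2) := by
    refine (hi.const_mul (s ^ 2)).mono' (hf.pow 2).aestronglyMeasurable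
      (Eventually.of_forall fun y => ?_)
    rw [Real.norm_eq_abs, abs_of_nonneg (sq_nonneg _)]
    exact hpt y
  refine ⟨h3, ?_⟩
  calc (∫ y, f y ^ 2) ≤ ∫ y, s ^ 2 * Real.exp (-(3 / 2 * |y|)) :=
        integral_mono h3 (hi.const_mul _) hpt
    _ = s ^ 2 * (2 / (3 / 2)) := by rw [integral_const_mul, hI]
    _ ≤ 2 * s ^ 2 := by nlinarith [sq_nonneg s]

/-- `∫ f^2` for `(1+|y|)|f| ≤ D`. -/
theorem inv_sq {D : ℝ} {f : ℝ → ℝ} (hf : Continuous f) (h : ∀ y, (1 + |y|) * |f y| ≤ D) :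
    Integrable (fun y => f y ^ 2) ∧ (∫ y, f y ^ 2) ≤ D ^ 2 * ∫ y : ℝ, (1 + |y|) ^ (-2 : ℝ) := by
  have hi : Integrable (fun y : ℝ => (1 + |y|) ^ (-2 : ℝ)) := by
    have := integrable_one_add_norm (E := ℝ) (μ := volume) (r := 2) (by simp)
    simpa [Real.norm_eq_abs] using this
  have hpt : ∀ y, f y ^ 2 ≤ D ^ 2 * (1 + |y|) ^ (-2 : ℝ) := by
    intro y
    have h0 : 0 < 1 + |y| := by positivity
    have h1 : (1 + |y|) ^ (-2 : ℝ) = 1 / (1 + |y|) ^ 2 := by
      rw [Real.rpow_neg h0.le, one_div]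
      norm_num
    rw [h1, mul_one_div, le_div_iff₀ (by positivity)]
    have h2 : ((1 + |y|) * |f y|) ^ 2 ≤ D ^ 2 := pow_le_pow_left₀ (by positivity) (h y) 2
    have h3 : ((1 + |y|) * |f y|) ^ 2 = f y ^ 2 * (1 + |y|) ^ 2 := by
      rw [mul_pow, sq_abs]
      ring
    linarith
  have h3 : Integrable (fun y => f y ^ 2) := by
    refine (hi.const_mul (D ^ 2)).mono' (hf.pow 2).aestronglyMeasurable
      (Eventually.of_forall fun y => ?_)
    rw [Real.norm_eq_abs, abs_of_nonneg (sq_nonneg _)]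
    exact hpt y
  refine ⟨h3, ?_⟩
  calc (∫ y, f y ^ 2) ≤ ∫ y : ℝ, D ^ 2 * (1 + |y|) ^ (-2 : ℝ) :=
        integral_mono h3 (hi.const_mul _) hpt
    _ = _ := integral_const_mul _ _

end Pool.Agent.Helper25.KV
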