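import Pool.Agent.Helper25.KV.Ap3

/-!
# Project KV, assembly of `Goal_APPROX`, part 4: the three estimates at one time
-/

namespace Pool.Agent.Helper25.KV

open Real MeasureTheory Set Filter Topology
open Pool.Agent.Helper33.KV Pool.Agent.Helper48.KV
open Pool.Agent.Helper41.KV (Q wt)

/-- Everything at one time `t`: `u = W + ou zz + ou e`, packets `g`, weights. -/
structure Snap (α K t : ℝ) (u W g : ℝ → ℝ → ℝ) (zz e : ℝ → ℝ) (s : ℝ) : Prop where
  K0 : 2 ≤ K
  t0 : 0 < t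
  t1 : t ≤ 1
  lp : 0 < lam α t
  rp : 0 < rho α t
  r1 : rho α t ≤ 1
  us : ContDiff ℝ (⊤ : ℕ∞) (u t)
  Ws : ContDiff ℝ (⊤ : ℕ∞) (W t)
  gs : ContDiff ℝ (⊤ : ℕ∞) (g t)
  zs : ContDiff ℝ (⊤ : ℕ∞) zz
  es : ContDiff ℝ (⊤ : ℕ∞) e
  dec : ∀ y, inn α u t y = inn α W t y + zz y + e y
  g0 : ∀ x, -3 < x → g t x = 0
  d0 : ∀ x, 0 ≤ dJ α K t x
  d1 : ∀ x, dJ α K t x ≤ 1
  c1 : ∀ x, x ≤ -1 → pW α K t x < 1 / 4
  c2 : ∀ x, 1 / 2 ≤ x → 3 / 4 < pW α K t x
  c3 : ∀ x, pW α K t x ≤ 1 / 4 → dJ α K t x = 1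
  c4 : ∀ x, pW α K t x ≤ 1 / 2 → 1 / 2 ≤ dJ α K t x
  dc : Continuous (dJ α K t)
  uL : Integrable (fun x => u t x ^ 2)
  gL : Integrable (fun x => g t x ^ 2)
  eL : MemLp e 2
  eL1 : MemLp (deriv e) 2
  s0 : 0 ≤ s
  zb : ∀ y, |zz y| ≤ s * Real.exp (-(3 / 4) * |y|)
  zb1 : ∀ y, |deriv zz y| ≤ s * Real.exp (-(3 / 4) * |y|)

variable {α K t s : ℝ} {u W g : ℝ → ℝ → ℝ} {zz e : ℝ → ℝ}

theorem ou_add {f g : ℝ → ℝ} (x : ℝ) : ou α t (fun y => f y + g y) x = ou α t f x + ou α t g x := by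
  unfold ou
  ring

theorem Snap.sum (h : Snap α K t u W g zz e s) (x : ℝ) :
    u t x = W t x + ou α t zz x + ou α t e x := by
  have h1 := ou_inn h.lp u x
  have h2 : inn α u t = fun y => inn α W t y + zz y + e y := funext h.dec
  rw [h2] at h1
  have h3 : ou α t (fun y => inn α W t y + zz y + e y) x =
      ou α t (fun y => inn α W t y + zz y) x + ou α t e x := ou_add (f := fun y => inn α W t y + zz y) x
  have h4 : ou α t (fun y => inn α W t y + zz y) x = ou α t (inn α W t) x + ou α t zz x :=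
    ou_add (f := inn α W t) x
  rw [h3, h4, ou_inn h.lp W x] at h1
  exact h1.symm

theorem Snap.wt_int (h : Snap α K t u W g zz e s) :
    Integrable (fun y => wt K (rho α t) y * e y ^ 2) ∧
    Integrable (fun y => wt K (rho α t) y * deriv e y ^ 2) ∧
    (∫ y, wt K (rho α t) y * e y ^ 2) + (∫ y, wt K (rho α t) y * deriv e y ^ 2) =
      ∫ y, wt K (rho α t) y * (deriv e y ^ 2 + e y ^ 2) := by
  have hc : Continuous (wt K (rho α t)) := Pool.Agent.Helper71.KV.wt_cont K h.rp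
  have hde : Continuous (deriv e) := h.es.continuous_deriv (by exact_mod_cast le_top)
  have i1 : Integrable (fun y => wt K (rho α t) y * e y ^ 2) := by
    refine h.eL.integrable_sq.mono' (hc.mul (h.es.continuous.pow 2)).aestronglyMeasurable
      (Eventually.of_forall fun y => ?_)
    have hw0 := Pool.Agent.Helper71.KV.wt_pos K h.rp y
    have hw1 := wt_le_one (K := K) h.rp y
    rw [Real.norm_eq_abs, abs_of_nonneg (by positivity)]
    exact mul_le_of_le_one_left (sq_nonneg _) hw1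
  have i2 : Integrable (fun y => wt K (rho α t) y * deriv e y ^ 2) := by
    refine h.eL1.integrable_sq.mono' (hc.mul (hde.pow 2)).aestronglyMeasurable
      (Eventually.of_forall fun y => ?_)
    have hw0 := Pool.Agent.Helper71.KV.wt_pos K h.rp y
    have hw1 := wt_le_one (K := K) h.rp y
    rw [Real.norm_eq_abs, abs_of_nonneg (by positivity)]
    exact mul_le_of_le_one_left (sq_nonneg _) hw1
  refine ⟨i1, i2, ?_⟩
  rw [← integral_add i1 i2]
  congr 1
  funext y
  ring

/-- (O1) -/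
theorem Snap.dist (h : Snap α K t u W g zz e s) {Nn Ln En : ℝ}
    (hN : Nd α K t (fun x => u t x - g t x) ≤ Nn)
    (hLi : Integrable (fun y => (1 - wt K (rho α t) y) ^ 2 * inn α W t y ^ 2))
    (hL : (∫ y, (1 - wt K (rho α t) y) ^ 2 * inn α W t y ^ 2) ≤ Ln)
    (hE : (∫ y, wt K (rho α t) y * (deriv e y ^ 2 + e y ^ 2)) ≤ En) :
    Integrable (fun x => (u t x - g t x - W t x) ^ 2) ∧
      (∫ x, (u t x - g t x - W t x) ^ 2) ≤ 8 * Nn + 8 * Ln + 4 * s ^ 2 + 4 * En := by
  obtain ⟨i1, i2, i3⟩ := h.wt_int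
  have hw2 : Integrable (fun x => (u t x - g t x) ^ 2) :=
    (int_sub_sq h.us.continuous.aestronglyMeasurable h.gs.continuous.aestronglyMeasurable
      h.uL h.gL).1
  have hNi : Integrable (fun x => dJ α K t x ^ 2 * (u t x - g t x) ^ 2) := by
    refine hw2.mono' ((h.dc.pow 2).mul
      ((h.us.continuous.sub h.gs.continuous).pow 2)).aestronglyMeasurable
      (Eventually.of_forall fun x => ?_)
    rw [Real.norm_eq_abs, abs_of_nonneg (by positivity)]
    have h1 : dJ α K t x ^ 2 ≤ 1 := by nlinarith [h.d0 x, h.d1 x]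
    exact mul_le_of_le_one_left (sq_nonneg _) h1
  have hL' := ou_int (α := α) (t := t) h.lp (fun y => (1 - wt K (rho α t) y) ^ 2) (inn α W t) hLi
  simp only [ou_inn h.lp W] at hL'
  have hZ0 := loc_sq h.zs.continuous h.zb
  have hZ' := ou_int1 (α := α) (t := t) h.lp zz hZ0.1
  have hE' := ou_int (α := α) (t := t) h.lp (wt K (rho α t)) e i1
  have hE0 : (∫ y, wt K (rho α t) y * e y ^ 2) ≤ En := by
    have : 0 ≤ ∫ y, wt K (rho α t) y * deriv e y ^ 2 :=
      integral_nonneg fun y => mul_nonneg (Pool.Agent.Helper71.KV.wt_pos K h.rp y).le (sq_nonneg _)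
    linarith
  have hmain := stat_dist (Nn := Nn) (Ln := Ln) (Zn := 2 * s ^ 2) (En := En)
    (w := fun x => u t x - g t x) (W0 := W t) (Zo := ou α t zz) (E0 := ou α t e)
    (D0 := fun x => u t x - g t x - W t x) (d := dJ α K t) (P := pW α K t)
    (((h.us.continuous.sub h.gs.continuous).sub h.Ws.continuous).aestronglyMeasurable) h.d0
    (fun x => (Pool.Agent.Helper71.KV.wt_pos K h.rp _).le)
    (fun x hx => ⟨h.c4 x hx, rfl⟩)
    (fun x hx => by
      have hx1 : -1 < x := by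
        by_contra hc
        push Not at hc
        have := h.c1 x hc
        linarith
      show u t x - g t x - W t x = _
      rw [h.g0 x (by linarith), h.sum x]
      ring)
    hNi hN hL'.1 (hL'.2.le.trans hL) hZ'.1 (hZ'.2.le.trans hZ0.2) hE'.1 (hE'.2.le.trans hE0)
  refine ⟨hmain.1, hmain.2.trans (le_of_eq ?_)⟩
  ring

/-- (O3) -/
theorem Snap.deriv_bd (h : Snap α K t u W g zz e s) {κ A J1 D En : ℝ} {z : ℝ → ℝ}
    (hκ : 0 < κ) (hκ1 : κ < 1) (hz1 : ∀ x, x ≤ 1 → z x = A - x) (hA : 101 ≤ A)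
    (hz0 : ∀ x, 100 ≤ z x)
    (hJ : Integrable (fun x => cJ α K t x * (z x / (3 * t)) ^ (κ - 1) *
      deriv (fun x => u t x - g t x) x ^ 2))
    (hJ1 : (∫ x, cJ α K t x * (z x / (3 * t)) ^ (κ - 1) *
      deriv (fun x => u t x - g t x) x ^ 2) ≤ J1)
    (hD : ∀ y, (1 + |y|) * |deriv (inn α W t) y| ≤ D)
    (hE : (∫ y, wt K (rho α t) y * (deriv e y ^ 2 + e y ^ 2)) ≤ En) :
    Integrable (fun x => deriv (fun x => u t x - g t x) x ^ 2 * (1 + |x|) ^ (κ - 1)) ∧
      (∫ x, deriv (fun x => u t x - g t x) x ^ 2 * (1 + |x|) ^ (κ - 1)) ≤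
        (A + 1) / (3 * t) * J1 + (1 / lam α t) ^ 2 *
          (3 * (D ^ 2 * ∫ y : ℝ, (1 + |y|) ^ (-2 : ℝ)) + 6 * s ^ 2 + 12 * En) := by
  obtain ⟨i1, i2, i3⟩ := h.wt_int
  have ht0 := h.t0
  have h3t : 0 < 3 * t := by linarith
  have hvs : ContDiff ℝ (⊤ : ℕ∞) (inn α W t) := inn_smooth h.Ws
  have hvd : Differentiable ℝ (inn α W t) := hvs.differentiable (by simp)
  have hzd : Differentiable ℝ zz := h.zs.differentiable (by simp)
  have hed : Differentiable ℝ e := h.es.differentiable (by simp)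
  have hWou : ou α t (inn α W t) = W t := funext fun x => ou_inn h.lp W x
  have hV0 := inv_sq (hvs.continuous_deriv (by exact_mod_cast le_top)) hD
  have hW' := ou_int_deriv (α := α) (t := t) h.lp (fun _ => 1) hvd (by simpa using hV0.1)
  rw [hWou] at hW'
  simp only [one_mul] at hW'
  have hZ0 := loc_sq (h.zs.continuous_deriv (by exact_mod_cast le_top)) h.zb1
  have hZ' := ou_int_deriv (α := α) (t := t) h.lp (fun _ => 1) hzd (by simpa using hZ0.1)
  simp only [one_mul] at hZ'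
  have hE' := ou_int_deriv (α := α) (t := t) h.lp (wt K (rho α t)) hed i2
  have hE0 : (∫ y, wt K (rho α t) y * deriv e y ^ 2) ≤ En := by
    have : 0 ≤ ∫ y, wt K (rho α t) y * e y ^ 2 :=
      integral_nonneg fun y => mul_nonneg (Pool.Agent.Helper71.KV.wt_pos K h.rp y).le (sq_nonneg _)
    linarith
  have hl2 : 0 ≤ (1 / lam α t) ^ 2 := sq_nonneg _
  have hzp : ∀ x, 0 < z x := fun x => by linarith [hz0 x]
  set B : ℝ := ((A + 1) / (3 * t)) ^ (1 - κ) with hBdef
  have hA3 : 1 ≤ (A + 1) / (3 * t) := by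
    rw [le_div_iff₀ h3t]
    linarith [h.t1]
  have hB0 : 0 ≤ B := by positivity
  have hB1 : B ≤ (A + 1) / (3 * t) := by
    calc B ≤ ((A + 1) / (3 * t)) ^ (1 : ℝ) :=
          Real.rpow_le_rpow_of_exponent_le hA3 (by linarith)
      _ = _ := Real.rpow_one _
  have hus1 : ContDiff ℝ (⊤ : ℕ∞) (fun x => u t x - g t x) := h.us.sub h.gs
  have hmain := stat_deriv (κ := κ) (B := B) (J1 := J1)
    (W1 := (1 / lam α t) ^ 2 * (D ^ 2 * ∫ y : ℝ, (1 + |y|) ^ (-2 : ℝ)))
    (Z1 := (1 / lam α t) ^ 2 * (2 * s ^ 2)) (E1 := (1 / lam α t) ^ 2 * En)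
    (Dw := deriv (fun x => u t x - g t x)) (Wd := deriv (W t)) (Zd' := deriv (ou α t zz))
    (Ed := deriv (ou α t e)) (c := cJ α K t) (Zd := fun x => (z x / (3 * t)) ^ (κ - 1))
    (P := pW α K t) (hus1.continuous_deriv (by exact_mod_cast le_top)) hκ1 hB0
    (fun x => pow_nonneg (h.d0 x) _)
    (fun x => by have := hzp x; positivity)
    (fun x => (Pool.Agent.Helper71.KV.wt_pos K h.rp _).le)
    (fun x hx => by
      refine ⟨?_, ?_⟩
      · show dJ α K t x ^ 10 = 1
        rw [h.c3 x hx.le, one_pow]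
      · have hx1 : x ≤ 1 := by
          by_contra hc
          push Not at hc
          have := h.c2 x (by linarith)
          linarith
        have e1 : z x ≤ (A + 1) * (1 + |x|) := by
          rw [hz1 x hx1]
          nlinarith [neg_abs_le x, abs_nonneg x]
        have e2 : z x / (3 * t) ≤ (A + 1) / (3 * t) * (1 + |x|) := by
          rw [div_mul_eq_mul_div]
          exact div_le_div_of_nonneg_right e1 h3t.le
        have e3 : ((A + 1) / (3 * t) * (1 + |x|)) ^ (κ - 1) ≤ (z x / (3 * t)) ^ (κ - 1) :=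
          Real.rpow_le_rpow_of_nonpos (by have := hzp x; positivity) e2 (by linarith)
        rw [Real.mul_rpow (by positivity) (by positivity)] at e3
        have e4 : B * ((A + 1) / (3 * t)) ^ (κ - 1) = 1 := by
          rw [hBdef, ← Real.rpow_add (by linarith)]
          simp
        calc (1 + |x|) ^ (κ - 1) = B * (((A + 1) / (3 * t)) ^ (κ - 1) * (1 + |x|) ^ (κ - 1)) := by
              rw [← mul_assoc, e4, one_mul]
          _ ≤ B * (z x / (3 * t)) ^ (κ - 1) := mul_le_mul_of_nonneg_left e3 hB0)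
    (fun x hx => by
      have hx1 : -1 < x := by
        by_contra hc
        push Not at hc
        have := h.c1 x hc
        linarith
      have hev : (fun x => u t x - g t x) =ᶠ[𝓝 x] fun x => W t x + ou α t zz x + ou α t e x := by
        filter_upwards [Ioi_mem_nhds hx1] with y hy
        have hy1 : -1 < y := hy
        rw [h.g0 y (by linarith), h.sum y, sub_zero]
      rw [hev.deriv_eq]
      have dW : DifferentiableAt ℝ (W t) x := (h.Ws.differentiable (by simp)) x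
      have dZ : DifferentiableAt ℝ (ou α t zz) x := ((ou_smooth h.zs).differentiable (by simp)) x
      have dE : DifferentiableAt ℝ (ou α t e) x := ((ou_smooth h.es).differentiable (by simp)) x
      have := ((dW.hasDerivAt.add dZ.hasDerivAt).add dE.hasDerivAt).deriv
      exact this)
    hJ hJ1 hW'.1 (hW'.2.le.trans (mul_le_mul_of_nonneg_left hV0.2 hl2))
    hZ'.1 (hZ'.2.le.trans (mul_le_mul_of_nonneg_left hZ0.2 hl2))
    hE'.1 (hE'.2.le.trans (mul_le_mul_of_nonneg_left hE0 hl2))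
  have hJ0 : 0 ≤ J1 := le_trans (integral_nonneg fun x => by
    have := hzp x
    exact mul_nonneg (mul_nonneg (pow_nonneg (h.d0 x) _) (by positivity)) (sq_nonneg _)) hJ1
  refine ⟨hmain.1, hmain.2.trans ?_⟩
  have := mul_le_mul_of_nonneg_right hB1 hJ0
  nlinarith

/-- (O2) -/
theorem Snap.mass_bd (h : Snap α K t u W g zz e s) {κ A Mw CR : ℝ} {z : ℝ → ℝ}
    (hκ : 0 < κ) (hκ1 : κ < 1) (hz1 : ∀ x, x ≤ 1 → z x = A - x) (hA : 101 ≤ A)
    (hz0 : ∀ x, 100 ≤ z x)
    (hJ : Integrable (fun x => cJ α K t x * (z x / (3 * t)) ^ κ * (u t x - g t x) ^ 2))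
    (hJ1 : (∫ x, cJ α K t x * (z x / (3 * t)) ^ κ * (u t x - g t x) ^ 2) ≤ 1)
    (hM : 2 * (∫ x, u t x ^ 2) + 2 * (∫ x, g t x ^ 2) ≤ Mw)
    (hR : IntegrableOn (fun x => u t x ^ 2 * (1 + |x|)) (Ioi 2))
    (hR1 : (∫ x in Ioi 2, u t x ^ 2 * (1 + |x|)) ≤ CR) :
    Integrable (fun x => (u t x - g t x) ^ 2 * (1 + |x|) ^ κ) ∧
      (∫ x, (u t x - g t x) ^ 2 * (1 + |x|) ^ κ) ≤ 3 + 3 * Mw + CR := by
  have hw2 := int_sub_sq h.us.continuous.aestronglyMeasurable h.gs.continuous.aestronglyMeasurable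
      h.uL h.gL
  have ht0 := h.t0
  have h3t : 0 < 3 * t := by linarith
  have hzp : ∀ x, 0 < z x := fun x => by linarith [hz0 x]
  exact stat_mass (κ := κ) (CR := CR) (Mw := Mw) (w := fun x => u t x - g t x) (u := u t)
    (c := cJ α K t) (Zf := fun x => (z x / (3 * t)) ^ κ) hκ hκ1
    (h.us.continuous.sub h.gs.continuous) h.us.continuous
    (fun x => pow_nonneg (h.d0 x) _) (fun x => by have := hzp x; positivity)
    (fun x hx => by
      refine ⟨?_, ?_⟩
      · show dJ α K t x ^ 10 = 1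
        rw [h.c3 x (h.c1 x hx).le, one_pow]
      · have hax : |x| = -x := abs_of_nonpos (by linarith)
        have e1 : (1 + |x|) / 3 ≤ z x / (3 * t) := by
          rw [div_le_div_iff₀ (by norm_num) h3t, hz1 x (by linarith), hax]
          have : (1 + -x) * (3 * t) ≤ (1 + -x) * 3 :=
            mul_le_mul_of_nonneg_left (by linarith [h.t1]) (by linarith)
          nlinarith
        have e2 : ((1 + |x|) / 3) ^ κ ≤ (z x / (3 * t)) ^ κ :=
          Real.rpow_le_rpow (by positivity) e1 hκ.le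
        rw [Real.div_rpow (by positivity) (by norm_num)] at e2
        have e3 : (3 : ℝ) ^ κ ≤ 3 := by
          calc (3 : ℝ) ^ κ ≤ (3 : ℝ) ^ (1 : ℝ) :=
                Real.rpow_le_rpow_of_exponent_le (by norm_num) hκ1.le
            _ = 3 := Real.rpow_one 3
        have e4 : 0 < (3 : ℝ) ^ κ := by positivity
        rw [div_le_iff₀ e4] at e2
        have e5 : 0 ≤ (z x / (3 * t)) ^ κ := by have := hzp x; positivity
        nlinarith [mul_le_mul_of_nonneg_left e3 e5])
    (fun x hx => by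
      show u t x - g t x = u t x
      rw [h.g0 x (by linarith), sub_zero])
    hJ hJ1 hw2.1 (hw2.2.trans hM) hR hR1

/-- Pointwise bound on the right. -/
theorem Snap.right_bd (h : Snap α K t u W g zz e s) {En : ℝ} (hσ : sig α t ≤ 1 / 4)
    (hW1 : ∀ x, 1 ≤ x → W t x = 0)
    (hE : (∫ y, wt K (rho α t) y * (deriv e y ^ 2 + e y ^ 2)) ≤ En)
    (hsm : s + Real.sqrt (2 * En) ≤ Real.sqrt (lam α t)) :
    ∀ x, 1 ≤ x → |u t x| ≤ 1 := by
  intro x hx
  have hl := h.lp
  have hy : 0 ≤ (x - sig α t) / lam α t := div_nonneg (by linarith) hl.le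
  have h1 : |zz ((x - sig α t) / lam α t)| ≤ s := by
    refine (h.zb _).trans (mul_le_of_le_one_right h.s0 ?_)
    apply Real.exp_le_one_iff.2
    nlinarith [abs_nonneg ((x - sig α t) / lam α t)]
  have h2 : |e ((x - sig α t) / lam α t)| ≤ Real.sqrt (2 * En) := by
    apply Real.abs_le_sqrt
    have := sup_pos (K := K) (by linarith [h.K0]) h.rp h.r1 (h.es.of_le (by exact_mod_cast le_top))
      h.eL h.eL1 hy
    linarith
  rw [h.sum x, hW1 x hx, zero_add]
  unfold ou
  rw [← mul_add, abs_mul]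
  have hs : 0 < Real.sqrt (lam α t) := Real.sqrt_pos.2 hl
  rw [abs_of_pos (by positivity), div_mul_eq_mul_div, one_mul, div_le_one hs]
  calc |zz ((x - sig α t) / lam α t) + e ((x - sig α t) / lam α t)|
      ≤ |zz ((x - sig α t) / lam α t)| + |e ((x - sig α t) / lam α t)| := abs_add_le _ _
    _ ≤ s + Real.sqrt (2 * En) := add_le_add h1 h2
    _ ≤ _ := hsm

end Pool.Agent.Helper25.KV
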