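import Pool.Agent.Helper25.KV.Ap4
import Pool.Agent.Helper59.KV.HGP2
import Pool.Agent.Helper90.KV.HGP1

/-!
# Project KV, assembly of `Goal_APPROX`, part 5: conservation of mass, smallness of the packets
-/

namespace Pool.Agent.Helper25.KV

open Real MeasureTheory Set Filter Topology
open Pool.Agent.Helper33.KV Pool.Agent.Helper48.KV
open Pool.Agent.Helper41.KV (Q wt)

theorem smoothSol_mono_right {u : ℝ → ℝ → ℝ} {a b b' : ℝ} (h : SmoothSol u a b) (hb : b' ≤ b) :
    SmoothSol u a b' := by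
  have hsub : Icc a b' ⊆ Icc a b := Icc_subset_Icc_right hb
  refine ⟨⟨fun t ht => h.hinf.smooth t (hsub ht), fun k => ?_, fun k t ht =>
    h.hinf.memLp k t (hsub ht), fun k => ?_⟩, ?_⟩
  · exact (h.hinf.cont k).mono (prod_mono hsub subset_rfl)
  · obtain ⟨C, hC⟩ := h.hinf.bound k
    exact ⟨C, fun t ht => hC t (hsub ht)⟩
  · intro k t ht x
    exact (h.eqn k t (hsub ht) x).mono hsub

theorem iter_one_pos (k : ℕ) : iteratedDeriv (k + 1) (fun _ : ℝ => (1 : ℝ)) = fun _ => 0 := by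
  rw [iteratedDeriv_succ']
  have : deriv (fun _ : ℝ => (1 : ℝ)) = fun _ => 0 := by funext x; simp
  rw [this]
  exact iter_zero k

theorem binf_one (t1 t2 : ℝ) : BInf (fun _ _ => (1 : ℝ)) (fun _ _ => 0) t1 t2 where
  smooth := fun t _ => contDiff_const
  cont := fun k => by
    rcases k with _ | k
    · simp only [iteratedDeriv_zero]; exact continuousOn_const
    · simp only [iter_one_pos]; exact continuousOn_const
  bound := fun k => by
    rcases k with _ | k
    · exact ⟨1, fun t _ x => by simp⟩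
    · exact ⟨0, fun t _ x => by simp [iter_one_pos]⟩
  dt := fun t _ x => hasDerivWithinAt_const _ _ _
  contt := continuousOn_const
  boundt := ⟨0, fun t _ x => by simp⟩

/-- Conservation of mass. -/
theorem mass_sol {u : ℝ → ℝ → ℝ} {t1 t2 : ℝ} (hsol : SmoothSol u t1 t2) {t : ℝ}
    (ht : t ∈ Icc t1 t2) : (∫ x, u t x ^ 2) = ∫ x, u t1 x ^ 2 := by
  have hT := Pool.Agent.Helper75.KV.time Pool.Agent.Helper79.KV.stat
  have hsub : Icc t1 t ⊆ Icc t1 t2 := Icc_subset_Icc_right ht.2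
  have hinf : HInf u t1 t := Pool.Agent.Helper26.KV.hinf_mono hsol.hinf le_rfl ht.2
  have hinf' : HInf (fun t x => - deriv (flux (u t)) x) t1 t := Pool.Agent.Helper26.KV.HInf_wflux hinf
  have htd : HasTimeDeriv u (fun t x => - deriv (flux (u t)) x) t1 t := fun k s hs x =>
    (hsol.eqn k s (hsub hs) x).mono hsub
  obtain ⟨a1, a2, a3, a4⟩ := hT t1 t (fun _ _ => 1) (fun _ _ => 0) (fun _ _ => 0) (fun _ _ => 0)
    (fun _ _ => 0) (fun _ _ => 0) u (fun t x => - deriv (flux (u t)) x) ht.1 (binf_one t1 t)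
    (binf_zero t1 t) (hinf_zero t1 t) (hinf_zero t1 t) (htd_zero t1 t) hinf hinf' htd
  have hdens : ∀ s x, dens 1 0 0 (u s x) (deriv (u s) x) = u s x ^ 2 := by
    intro s x; unfold dens; ring
  have hf2 : ∀ s, fun2 (fun _ _ => 1) (fun _ _ => 0) (fun _ _ => 0) u s = ∫ x, u s x ^ 2 := by
    intro s
    unfold fun2
    exact integral_congr_ae (Eventually.of_forall fun x => hdens s x)
  rw [hf2, hf2] at a4
  have hpt : ∀ s ∈ Icc t1 t, (∫ x, tInt (fun _ _ => 1) (fun _ _ => 0) (fun _ _ => 0) (fun _ _ => 0)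
      (fun _ _ => 0) (fun _ _ => 0) u (fun t x => - deriv (flux (u t)) x) s x) = 0 := by
    intro s hs
    refine integral_eq_zero_of_ae (Eventually.of_forall fun x => ?_)
    have hsm := hinf.smooth s hs
    have hS : srcS (fun _ _ => 0) u (fun t x => - deriv (flux (u t)) x) s x = 0 := srcS_sol hsm x
    show tInt (fun _ _ => 1) (fun _ _ => 0) (fun _ _ => 0) (fun _ _ => 0)
      (fun _ _ => 0) (fun _ _ => 0) u (fun t x => - deriv (flux (u t)) x) s x = 0
    unfold tInt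
    rw [hS]
    unfold rhsD nGG nG nG2
    have hp3 : iteratedDeriv 3 (fun _ : ℝ => (1 : ℝ)) x = 0 := by
      have := congrFun (iter_one_pos 2) x
      exact this
    simp only [iter_zero, deriv_const, hp3]
    ring
  have h0 : (∫ s in t1..t, ∫ x, tInt (fun _ _ => 1) (fun _ _ => 0) (fun _ _ => 0) (fun _ _ => 0)
      (fun _ _ => 0) (fun _ _ => 0) u (fun t x => - deriv (flux (u t)) x) s x) = 0 := by
    rw [intervalIntegral.integral_congr (g := fun _ => (0 : ℝ))]
    · simp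
    · intro s hs
      rw [uIcc_of_le ht.1] at hs
      exact hpt s hs
  rw [h0] at a4
  linarith

/-- Splitting of the packets. -/
theorem gp_split (m M j n : ℕ) (t x : ℝ) : gp m M j n t x = gp m M 0 (j + n) t x - gp m M 0 j t x := by
  unfold gp
  rw [Finset.sum_range_add]
  simp

theorem gp_contB (m M k0 : ℕ) (t : ℝ) (n : ℕ)
    (h : Continuous (fun p : ℝ × ℝ => gp m M k0 n p.1 p.2)) :
    Continuous (fun x => gp m M k0 n t x) := by
  have h3 : Continuous (fun x : ℝ => (t, x)) := by fun_prop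
  refine (h.comp h3).congr fun x => ?_
  simp only [Function.comp_apply]

theorem gp_cont (m M k0 : ℕ) (hm : 1 ≤ m) (hM : m ≤ M) (t : ℝ) :
    (∀ n, Continuous (fun x => gp m M k0 n t x)) ∧ Continuous (fun x => ginf m M k0 t x) := by
  have h0 : H_GP1 := Pool.Agent.Helper90.KV.GP.thm_GP1
  obtain ⟨-, h0⟩ := h0
  have h2 := h0 m M k0 hm hM
  obtain ⟨-, -, hsm, hgs, -⟩ := h2
  exact ⟨fun n => gp_contB m M k0 t n (hsm n).continuous, (hgs t).continuous⟩

theorem gp_tail (m M k0 : ℕ) (hm : 1 ≤ m) (hM : m ≤ M) :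
    ∃ C : ℝ, 0 < C ∧ ∀ n t, Integrable (fun x => (gp m M k0 n t x - ginf m M k0 t x) ^ 2) ∧
      (∫ x, (gp m M k0 n t x - ginf m M k0 t x) ^ 2) ≤ C * (1 / 4) ^ n := by
  have h := thm_GP2 Pool.Agent.Helper90.KV.GP.thm_GP1 m M k0 (1 / 2) hm hM (by norm_num) (by norm_num)
  obtain ⟨C, hC, h⟩ := h
  exact ⟨C, hC, h.2.2.2.2.1⟩

/-- The packets with large numbers are small in `L^2`. -/
theorem gp_small (m M : ℕ) (hm : 1 ≤ m) (hM : m ≤ M) (ε : ℝ) (hε : 0 < ε) :
    ∃ j0 : ℕ, ∀ j, j0 ≤ j → ∀ n t, (∫ x, gp m M j n t x ^ 2) ≤ ε := by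
  obtain ⟨C, hC, hd⟩ := gp_tail m M 0 hm hM
  have hlim : Tendsto (fun j : ℕ => 4 * C * (1 / 4 : ℝ) ^ j) atTop (𝓝 (4 * C * 0)) :=
    (tendsto_pow_atTop_nhds_zero_of_lt_one (by norm_num) (by norm_num)).const_mul _
  rw [mul_zero] at hlim
  obtain ⟨j0, hj0⟩ := (hlim.eventually (gt_mem_nhds hε)).exists_forall_of_atTop
  refine ⟨j0, fun j hj n t => ?_⟩
  obtain ⟨c1, c2⟩ := gp_cont m M 0 hm hM t
  have d1 := hd (j + n) t
  have d2 := hd j t
  have s := int_sub_sq (f := fun x => gp m M 0 (j + n) t x - ginf m M 0 t x)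
    (g := fun x => gp m M 0 j t x - ginf m M 0 t x)
    ((c1 _).sub c2).aestronglyMeasurable ((c1 _).sub c2).aestronglyMeasurable d1.1 d2.1
  have heq : (fun x => gp m M j n t x ^ 2) = fun x =>
      ((gp m M 0 (j + n) t x - ginf m M 0 t x) - (gp m M 0 j t x - ginf m M 0 t x)) ^ 2 := by
    funext x
    rw [gp_split m M j n t x]
    ring
  rw [heq]
  refine s.2.trans ?_
  have e1 := d1.2
  have e2 := d2.2
  have e3 : (1 / 4 : ℝ) ^ (j + n) ≤ (1 / 4 : ℝ) ^ j :=
    pow_le_pow_of_le_one (by norm_num) (by norm_num) (by omega)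
  have e4 := mul_le_mul_of_nonneg_left e3 hC.le
  have e5 := hj0 j hj
  linarith

/-- The packets with large numbers are small in the exponentially weighted `H^1` norm. -/
theorem gp_exp (hP : S_PKQ) : ∃ j0 : ℕ, ∀ q : ℕ, 2 ≤ q → ∀ j, j0 ≤ j → ∀ n t,
    (∫ x, (gq q j n t x ^ 2 + deriv (gq q j n t) x ^ 2) * Real.exp x) ≤ 1 := by
  obtain ⟨C, hC, hP⟩ := hP
  have hlim : Tendsto (fun j : ℕ => (1 + C ^ 2) * (1 / 2 : ℝ) ^ j) atTop (𝓝 ((1 + C ^ 2) * 0)) :=
    (tendsto_pow_atTop_nhds_zero_of_lt_one (by norm_num) (by norm_num)).const_mul _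
  rw [mul_zero] at hlim
  obtain ⟨j0, hj0⟩ := (hlim.eventually (gt_mem_nhds (zero_lt_one' ℝ))).exists_forall_of_atTop
  refine ⟨j0, fun q hq j hj n t => ?_⟩
  obtain ⟨p1, p2, p3, -⟩ := hP q j n hq
  have hbd : ∀ x, (gq q j n t x ^ 2 + deriv (gq q j n t) x ^ 2) * Real.exp x ≤
      (Iic (0 : ℝ)).indicator (fun x => Real.exp x) x := by
    intro x
    by_cases hx : ∃ i ∈ Finset.Ico j (j + n), x ∈ Iq q i
    · obtain ⟨i, hi, hxi⟩ := hx
      obtain ⟨b1, b2, -⟩ := p3 t x i hi hxi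
      have hx3 := ((p1 i).2.2.2 x hxi).2.2
      rw [indicator_of_mem (show x ∈ Iic (0 : ℝ) from by simp only [mem_Iic]; linarith)]
      refine mul_le_of_le_one_left (Real.exp_pos _).le ?_
      have hji : j ≤ i := (Finset.mem_Ico.1 hi).1
      have hk1 : gq q j n t x ^ 2 ≤ (1 / 2 : ℝ) ^ j := by
        rw [← sq_abs]
        have h0 : |gq q j n t x| ≤ (1 / 2 : ℝ) ^ j := by
          refine b1.trans ?_
          rw [one_div_pow]
          exact one_div_le_one_div_of_le (by positivity)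
            (pow_le_pow_right₀ (by norm_num) (by omega))
        have h1 : (1 / 2 : ℝ) ^ j ≤ 1 := pow_le_one₀ (by norm_num) (by norm_num)
        calc |gq q j n t x| ^ 2 ≤ ((1 / 2 : ℝ) ^ j) ^ 2 := pow_le_pow_left₀ (abs_nonneg _) h0 2
          _ = (1 / 2 : ℝ) ^ j * (1 / 2 : ℝ) ^ j := sq _
          _ ≤ (1 / 2 : ℝ) ^ j := mul_le_of_le_one_right (by positivity) h1
      have hk2 : deriv (gq q j n t) x ^ 2 ≤ C ^ 2 * (1 / 2 : ℝ) ^ j := by
        rw [← sq_abs]
        have h0 : |deriv (gq q j n t) x| ≤ C * (1 / 2 : ℝ) ^ j := by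
          refine b2.trans ?_
          rw [div_eq_mul_one_div, one_div_pow]
          exact mul_le_mul_of_nonneg_left (one_div_le_one_div_of_le (by positivity)
            (pow_le_pow_right₀ (by norm_num) (by omega))) (by linarith)
        have h1 : (1 / 2 : ℝ) ^ j ≤ 1 := pow_le_one₀ (by norm_num) (by norm_num)
        calc |deriv (gq q j n t) x| ^ 2 ≤ (C * (1 / 2 : ℝ) ^ j) ^ 2 :=
              pow_le_pow_left₀ (abs_nonneg _) h0 2
          _ = C ^ 2 * ((1 / 2 : ℝ) ^ j * (1 / 2 : ℝ) ^ j) := by ring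
          _ ≤ C ^ 2 * (1 / 2 : ℝ) ^ j :=
              mul_le_mul_of_nonneg_left (mul_le_of_le_one_right (by positivity) h1) (sq_nonneg _)
      have := hj0 j hj
      nlinarith
    · push Not at hx
      obtain ⟨b1, b2, -⟩ := p2 t x hx
      rw [b1, b2]
      simp only [ne_eq, OfNat.ofNat_ne_zero, not_false_eq_true, zero_pow, add_zero, zero_mul]
      exact indicator_nonneg (fun y _ => (Real.exp_pos y).le) x
  have hint : Integrable ((Iic (0 : ℝ)).indicator (fun x => Real.exp x)) :=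
    (integrable_indicator_iff measurableSet_Iic).2 (integrableOn_exp_Iic 0)
  calc _ ≤ ∫ x, (Iic (0 : ℝ)).indicator (fun x => Real.exp x) x := by
        refine integral_mono_of_nonneg (Eventually.of_forall fun x => ?_) hint
          (Eventually.of_forall hbd)
        have := (Real.exp_pos x).le
        simp only [Pi.zero_apply]
        positivity
    _ = 1 := by
        rw [integral_indicator measurableSet_Iic, integral_exp_Iic, Real.exp_zero]

/-- The final distance. -/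
theorem fin_dist {D0 S f0 Wt' : ℝ → ℝ} {X Y : ℝ} (h1 : AEStronglyMeasurable D0 volume)
    (h2 : AEStronglyMeasurable (fun x => Wt' x - S x - f0 x) volume)
    (i1 : Integrable (fun x => D0 x ^ 2)) (i2 : Integrable (fun x => (Wt' x - S x - f0 x) ^ 2))
    (b1 : (∫ x, D0 x ^ 2) ≤ X) (b2 : (∫ x, (Wt' x - S x - f0 x) ^ 2) ≤ Y) :
    Integrable (fun x => (D0 x + (Wt' x - S x - f0 x)) ^ 2) ∧
      (∫ x, (D0 x + (Wt' x - S x - f0 x)) ^ 2) ≤ 2 * X + 2 * Y := by
  obtain ⟨a1, a2⟩ := int_add_sq h1 h2 i1 i2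
  exact ⟨a1, by linarith⟩

end Pool.Agent.Helper25.KV
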