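import Pool.Agent.Helper25.KV.Ap5
import Pool.Agent.Helper33.KV.GoalsF3
import Pool.Agent.Helper61.KV.QF

/-!
# Project KV, assembly of `Goal_APPROX`, part 6: preparatory lemmas
-/

namespace Pool.Agent.Helper25.KV

open Real MeasureTheory Set Filter Topology
open Pool.Agent.Helper33.KV Pool.Agent.Helper48.KV
open Pool.Agent.Helper41.KV (Q wt S_QF)

theorem iter_comb {A B : ℝ → ℝ} (hA : ContDiff ℝ (⊤ : ℕ∞) A) (hB : ContDiff ℝ (⊤ : ℕ∞) B)
    (a b : ℝ) (k : ℕ) (y : ℝ) :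
    iteratedDeriv k (fun y => a * A y + b * B y) y =
      a * iteratedDeriv k A y + b * iteratedDeriv k B y := by
  have hA' : ContDiffAt ℝ k A y := (hA.of_le (by exact_mod_cast le_top)).contDiffAt
  have hB' : ContDiffAt ℝ k B y := (hB.of_le (by exact_mod_cast le_top)).contDiffAt
  have h1 : iteratedDeriv k (fun y => a * A y + b * B y) y =
      iteratedDeriv k (fun y => a * A y) y + iteratedDeriv k (fun y => b * B y) y :=
    iteratedDeriv_fun_add (contDiffAt_const.mul hA') (contDiffAt_const.mul hB')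
  rw [h1, iteratedDeriv_const_mul a hA', iteratedDeriv_const_mul b hB']

/-- Bounds of `z = a tauA + b tauB`. -/
theorem zz_bd {CT s a b : ℝ} {A B : ℝ → ℝ} (hA : ContDiff ℝ (⊤ : ℕ∞) A)
    (hB : ContDiff ℝ (⊤ : ℕ∞) B)
    (h : ∀ k ≤ 4, ∀ y, |iteratedDeriv k A y| ≤ CT * Real.exp (-(3 / 4) * |y|) ∧
      |iteratedDeriv k B y| ≤ CT * Real.exp (-(3 / 4) * |y|)) (ha : |a| ≤ s) (hb : |b| ≤ s) :
    ∀ k ≤ 4, ∀ y, |iteratedDeriv k (fun y => a * A y + b * B y) y| ≤
      2 * CT * s * Real.exp (-(3 / 4) * |y|) := by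
  intro k hk y
  rw [iter_comb hA hB]
  obtain ⟨h1, h2⟩ := h k hk y
  have hE := Real.exp_pos (-(3 / 4) * |y|)
  have hs : 0 ≤ s := (abs_nonneg a).trans ha
  calc |a * iteratedDeriv k A y + b * iteratedDeriv k B y|
      ≤ |a * iteratedDeriv k A y| + |b * iteratedDeriv k B y| := abs_add_le _ _
    _ = |a| * |iteratedDeriv k A y| + |b| * |iteratedDeriv k B y| := by rw [abs_mul, abs_mul]
    _ ≤ s * (CT * Real.exp (-(3 / 4) * |y|)) + s * (CT * Real.exp (-(3 / 4) * |y|)) :=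
        add_le_add (mul_le_mul ha h1 (abs_nonneg _) hs) (mul_le_mul hb h2 (abs_nonneg _) hs)
    _ = _ := by ring

/-- The initial value in the region `wt ≤ 3/4`. -/
theorem init_bd {α K t L : ℝ} {W : ℝ → ℝ → ℝ} (hl : 0 < lam α t) (hr : 0 < rho α t)
    (hW : ContDiff ℝ (⊤ : ℕ∞) (W t))
    (hi : Integrable (fun y => (1 - wt K (rho α t) y) ^ 2 *
      (inn α W t y ^ 2 + deriv (inn α W t) y ^ 2 + iteratedDeriv 2 (inn α W t) y ^ 2)))
    (hI : (∫ y, (1 - wt K (rho α t) y) ^ 2 *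
      (inn α W t y ^ 2 + deriv (inn α W t) y ^ 2 + iteratedDeriv 2 (inn α W t) y ^ 2)) ≤ L) :
    (∫ x in {x | pW α K t x ≤ 3 / 4}, (W t x ^ 2 + lam α t ^ 2 * deriv (W t) x ^ 2)) ≤ 16 * L ∧
      Integrable (fun y => (1 - wt K (rho α t) y) ^ 2 * inn α W t y ^ 2) ∧
      (∫ y, (1 - wt K (rho α t) y) ^ 2 * inn α W t y ^ 2) ≤ L := by
  have hvs : ContDiff ℝ (⊤ : ℕ∞) (inn α W t) := inn_smooth hW
  have hvd : Differentiable ℝ (inn α W t) := hvs.differentiable (by simp)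
  have hwc : Continuous (wt K (rho α t)) := Pool.Agent.Helper71.KV.wt_cont K hr
  have hdc : Continuous (deriv (inn α W t)) := hvs.continuous_deriv (by exact_mod_cast le_top)
  have i0 : Integrable (fun y => (1 - wt K (rho α t) y) ^ 2 * inn α W t y ^ 2) := by
    refine hi.mono' ((((continuous_const.sub hwc).pow 2).mul
      (hvs.continuous.pow 2)).aestronglyMeasurable) (Eventually.of_forall fun y => ?_)
    rw [Real.norm_eq_abs, abs_of_nonneg (by positivity)]
    have k1 := sq_nonneg (deriv (inn α W t) y)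
    have k2 := sq_nonneg (iteratedDeriv 2 (inn α W t) y)
    exact mul_le_mul_of_nonneg_left (by linarith) (sq_nonneg _)
  have i1 : Integrable (fun y => (1 - wt K (rho α t) y) ^ 2 * deriv (inn α W t) y ^ 2) := by
    refine hi.mono' ((((continuous_const.sub hwc).pow 2).mul
      (hdc.pow 2)).aestronglyMeasurable) (Eventually.of_forall fun y => ?_)
    rw [Real.norm_eq_abs, abs_of_nonneg (by positivity)]
    have k1 := sq_nonneg (inn α W t y)
    have k2 := sq_nonneg (iteratedDeriv 2 (inn α W t) y)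
    exact mul_le_mul_of_nonneg_left (by linarith) (sq_nonneg _)
  have hsum : (∫ y, (1 - wt K (rho α t) y) ^ 2 * inn α W t y ^ 2) +
      (∫ y, (1 - wt K (rho α t) y) ^ 2 * deriv (inn α W t) y ^ 2) ≤ L := by
    rw [← integral_add i0 i1]
    refine (integral_mono (i0.add i1) hi fun y => ?_).trans hI
    simp only [Pi.add_apply]
    nlinarith [mul_nonneg (sq_nonneg (1 - wt K (rho α t) y))
      (sq_nonneg (iteratedDeriv 2 (inn α W t) y))]
  have n0 : 0 ≤ ∫ y, (1 - wt K (rho α t) y) ^ 2 * inn α W t y ^ 2 :=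
    integral_nonneg fun y => by positivity
  have n1 : 0 ≤ ∫ y, (1 - wt K (rho α t) y) ^ 2 * deriv (inn α W t) y ^ 2 :=
    integral_nonneg fun y => by positivity
  refine ⟨?_, i0, by linarith⟩
  have hWou : ou α t (inn α W t) = W t := funext fun x => ou_inn hl W x
  have o0 := ou_int (α := α) (t := t) hl (fun y => (1 - wt K (rho α t) y) ^ 2) (inn α W t) i0
  have o1 := ou_int_deriv (α := α) (t := t) hl (fun y => (1 - wt K (rho α t) y) ^ 2) hvd i1
  rw [hWou] at o0 o1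
  have o0i : Integrable (fun x => (1 - pW α K t x) ^ 2 * W t x ^ 2) := o0.1
  have o1i : Integrable (fun x => (1 - pW α K t x) ^ 2 * deriv (W t) x ^ 2) := o1.1
  have j : Integrable (fun x => 16 * ((1 - pW α K t x) ^ 2 * W t x ^ 2) +
      16 * lam α t ^ 2 * ((1 - pW α K t x) ^ 2 * deriv (W t) x ^ 2)) :=
    (o0i.const_mul 16).add (o1i.const_mul (16 * lam α t ^ 2))
  have hpc : Continuous (pW α K t) := by
    unfold pW
    exact hwc.comp (by fun_prop)
  have hS : MeasurableSet {x | pW α K t x ≤ 3 / 4} := measurableSet_le hpc.measurable measurable_const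
  have hdW : Continuous (deriv (W t)) := hW.continuous_deriv (by exact_mod_cast le_top)
  have hle : ∀ x ∈ {x | pW α K t x ≤ 3 / 4}, W t x ^ 2 + lam α t ^ 2 * deriv (W t) x ^ 2 ≤
      16 * ((1 - pW α K t x) ^ 2 * W t x ^ 2) +
      16 * lam α t ^ 2 * ((1 - pW α K t x) ^ 2 * deriv (W t) x ^ 2) := by
    intro x hx
    have hx' : pW α K t x ≤ 3 / 4 := hx
    have h1 : 1 ≤ 16 * (1 - pW α K t x) ^ 2 := by nlinarith
    have h2 : 0 ≤ W t x ^ 2 + lam α t ^ 2 * deriv (W t) x ^ 2 := by positivity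
    nlinarith [mul_le_mul_of_nonneg_right h1 h2]
  have jS : IntegrableOn (fun x => W t x ^ 2 + lam α t ^ 2 * deriv (W t) x ^ 2)
      {x | pW α K t x ≤ 3 / 4} := by
    refine j.integrableOn.mono' ((hW.continuous.pow 2).add
      (continuous_const.mul (hdW.pow 2))).aestronglyMeasurable ?_
    filter_upwards [ae_restrict_mem hS] with x hx
    rw [Real.norm_eq_abs, abs_of_nonneg (by positivity)]
    exact hle x hx
  calc (∫ x in {x | pW α K t x ≤ 3 / 4}, (W t x ^ 2 + lam α t ^ 2 * deriv (W t) x ^ 2))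
      ≤ ∫ x in {x | pW α K t x ≤ 3 / 4}, (16 * ((1 - pW α K t x) ^ 2 * W t x ^ 2) +
          16 * lam α t ^ 2 * ((1 - pW α K t x) ^ 2 * deriv (W t) x ^ 2)) :=
        setIntegral_mono_on jS j.integrableOn hS hle
    _ ≤ ∫ x, (16 * ((1 - pW α K t x) ^ 2 * W t x ^ 2) +
          16 * lam α t ^ 2 * ((1 - pW α K t x) ^ 2 * deriv (W t) x ^ 2)) :=
        setIntegral_le_integral j (Eventually.of_forall fun x => by
          simp only [Pi.zero_apply]; positivity)
    _ = 16 * (∫ x, (1 - pW α K t x) ^ 2 * W t x ^ 2) +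
          16 * lam α t ^ 2 * ∫ x, (1 - pW α K t x) ^ 2 * deriv (W t) x ^ 2 := by
        rw [integral_add (o0i.const_mul 16) (o1i.const_mul (16 * lam α t ^ 2)),
          integral_const_mul, integral_const_mul]
    _ = 16 * (∫ y, (1 - wt K (rho α t) y) ^ 2 * inn α W t y ^ 2) +
          16 * ∫ y, (1 - wt K (rho α t) y) ^ 2 * deriv (inn α W t) y ^ 2 := by
        have e0 : (∫ x, (1 - pW α K t x) ^ 2 * W t x ^ 2) =
          ∫ y, (1 - wt K (rho α t) y) ^ 2 * inn α W t y ^ 2 := o0.2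
        have e1 : (∫ x, (1 - pW α K t x) ^ 2 * deriv (W t) x ^ 2) =
          (1 / lam α t) ^ 2 * ∫ y, (1 - wt K (rho α t) y) ^ 2 * deriv (inn α W t) y ^ 2 := o1.2
        rw [e0, e1]
        have : lam α t ^ 2 * (1 / lam α t) ^ 2 = 1 := by
          field_simp
        linear_combination (16 * ∫ y, (1 - wt K (rho α t) y) ^ 2 * deriv (inn α W t) y ^ 2) * this
    _ ≤ 16 * L := by linarith

/-- `W = 0` on `[1,∞)`. -/
theorem W_right {W : ℝ → ℝ} (hc : Continuous W) (h : ∀ x, x ∉ Icc (-1 : ℝ) 1 → W x = 0) :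
    ∀ x, 1 ≤ x → W x = 0 := by
  intro x hx
  rcases eq_or_lt_of_le hx with rfl | hx
  · have h1 : Tendsto W (𝓝[>] 1) (𝓝 (W 1)) := hc.continuousAt.mono_left nhdsWithin_le_nhds
    have h2 : Tendsto W (𝓝[>] 1) (𝓝 0) := by
      refine tendsto_const_nhds.congr' ?_
      filter_upwards [self_mem_nhdsWithin] with y hy
      exact (h y fun hm => absurd hm.2 (not_le.2 hy)).symm
    exact tendsto_nhds_unique h1 h2
  · exact h x fun hm => absurd hm.2 (not_le.2 hx)

/-- `ρ^{N-3} ≤ √λ`. -/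
theorem pow_le_sqrt_lam {α t : ℝ} {N : ℕ} (hs : 0 < sig α t) (hs1 : sig α t ≤ 1)
    (hN3 : (2 * α + 1) / 2 ≤ 2 * α * N) :
    rho α t ^ N ≤ Real.sqrt (lam α t) := by
  unfold rho lam
  rw [Real.sqrt_eq_rpow, ← Real.rpow_natCast, ← Real.rpow_mul hs.le, ← Real.rpow_mul hs.le]
  exact Real.rpow_le_rpow_of_exponent_ge hs hs1 (by linarith)

/-- The modulus tends to zero. -/
theorem omega_tendsto {α κ : ℝ} (hC : S_CURVE) (h0 : 0 < α) (h1 : α < 1) (hκ : 0 < κ) (C : ℝ) :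
    Tendsto (fun t => C * (t ^ κ + rho α t ^ ((1 : ℝ) / 2))) (𝓝[>] 0) (𝓝 0) := by
  have a1 : Tendsto (fun t : ℝ => t ^ κ) (𝓝[>] 0) (𝓝 0) := by
    have := (Real.continuousAt_rpow_const 0 κ (Or.inr hκ.le)).tendsto
    rw [Real.zero_rpow hκ.ne'] at this
    exact this.mono_left nhdsWithin_le_nhds
  have a2 : Tendsto (rho α) (𝓝[>] 0) (𝓝 0) := by
    obtain ⟨p1, -, p3⟩ := hC α h0 h1
    rw [Metric.tendsto_nhds]
    intro ε hε
    obtain ⟨T, hT, hle⟩ := p3 (ε / 2) (by linarith)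
    filter_upwards [Ioo_mem_nhdsGT hT] with t ht
    have h2 := (hle t ht.1 ht.2.le).2.2
    have h3 := (p1 t ht.1).2.2.1
    rw [Real.dist_eq, sub_zero, abs_of_pos h3]
    linarith
  have a3 : Tendsto (fun t => rho α t ^ ((1 : ℝ) / 2)) (𝓝[>] 0) (𝓝 0) := by
    have := (Real.continuousAt_rpow_const 0 (1 / 2 : ℝ) (Or.inr (by norm_num))).tendsto
    rw [Real.zero_rpow (by norm_num)] at this
    exact this.comp a2
  have := (a1.add a3).const_mul C
  simpa using this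

/-- The local constant is antitone. -/
theorem C_antitone {α : ℝ} (hC : S_CURVE) (h0 : 0 < α) (h1 : α < 1) {C1 : ℝ} (hC1 : 0 ≤ C1)
    (T : ℝ) : AntitoneOn (fun t => C1 * (1 / t + (1 / lam α t) ^ 2 + 1)) (Ioc 0 T) := by
  intro s hs t ht hst
  obtain ⟨p1, p2, -⟩ := hC α h0 h1
  have h2 := (p2 s t hs.1 hst).2.1
  have h3 := (p1 s hs.1).2.1
  have h4 : 1 / t ≤ 1 / s := one_div_le_one_div_of_le hs.1 hst
  have h5 : 1 / lam α t ≤ 1 / lam α s := one_div_le_one_div_of_le h3 h2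
  have h6 : 0 < lam α t := h3.trans_le h2
  have h7 : (1 / lam α t) ^ 2 ≤ (1 / lam α s) ^ 2 := pow_le_pow_left₀ (by positivity) h5 2
  exact mul_le_mul_of_nonneg_left (by linarith) hC1

/-- The soliton is bounded by `C ρ` in the region `wt ≤ 3/4`. -/
theorem Q_bd (hQ : S_QF) : ∃ C : ℝ, 0 ≤ C ∧ ∀ y, |Q y| ≤ C * Real.exp (-|y| / 2) := by
  obtain ⟨-, -, -, -, -, -, h, -⟩ := hQ
  obtain ⟨C, hC⟩ := h 0
  refine ⟨|C|, abs_nonneg _, fun y => ?_⟩
  have h1 := hC y
  rw [iteratedDeriv_zero] at h1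
  calc |Q y| ≤ C * Real.exp (-|y|) := h1
    _ ≤ |C| * Real.exp (-|y|) := mul_le_mul_of_nonneg_right (le_abs_self _) (Real.exp_pos _).le
    _ ≤ |C| * Real.exp (-|y| / 2) := by
      refine mul_le_mul_of_nonneg_left (Real.exp_le_exp.2 ?_) (abs_nonneg _)
      have := abs_nonneg y
      linarith

end Pool.Agent.Helper25.KV
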