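import Pool.Agent.Helper25.KV.Ap6
import Pool.Agent.Helper41.KV.GoalsD

/-!
# Project KV, assembly of `Goal_APPROX`, part 7: constants and the final assembly
-/

namespace Pool.Agent.Helper25.KV

open Real MeasureTheory Set Filter Topology
open Pool.Agent.Helper33.KV Pool.Agent.Helper48.KV
open Pool.Agent.Helper41.KV (Q wt S_QF S_FINW IsRP Zp BgL BgY)

theorem rpow_le_self {x p : ℝ} (hx : 0 < x) (hx1 : x ≤ 1) (hp : 1 ≤ p) : x ^ p ≤ x := by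
  calc x ^ p ≤ x ^ (1 : ℝ) := Real.rpow_le_rpow_of_exponent_ge hx hx1 hp
    _ = x := Real.rpow_one x

/-- Bounds of `V = v + z` in the transition region. -/
theorem V_bd {K ρ CQ C C2 s C3 CV : ℝ} {v zz : ℝ → ℝ} (hK : 2 ≤ K) (hρ : 0 < ρ) (hρ1 : 3 * ρ < 1)
    (hCQ : 0 ≤ CQ) (hQ : ∀ y, |Q y| ≤ CQ * Real.exp (-|y| / 2))
    (hv : ContDiff ℝ (⊤ : ℕ∞) v) (hz : ContDiff ℝ (⊤ : ℕ∞) zz)
    (h0 : ∀ y, y ≤ 0 → |v y - Q y| ≤ C2 * ρ)
    (h1 : ∀ y, |deriv v y| ≤ C * (Real.exp (-|y| / 2) + ρ ^ ((5 : ℝ) / 4)))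
    (h2 : ∀ y, |iteratedDeriv 2 v y| ≤ C * (Real.exp (-|y| / 2) + ρ ^ ((5 : ℝ) / 4)))
    (hzz : ∀ k ≤ 4, ∀ y, |iteratedDeriv k zz y| ≤ s * Real.exp (-(3 / 4) * |y|))
    (hs0 : 0 ≤ s) (hs : s ≤ C3 * ρ) (hCV1 : C2 + 3 * CQ + C3 ≤ CV) (hCV2 : 4 * |C| + C3 ≤ CV) :
    ∀ y, wt K ρ y ≤ 3 / 4 → |v y + zz y| ≤ CV * ρ ∧ |deriv (fun y => v y + zz y) y| ≤ CV * ρ ∧
      |deriv (deriv (fun y => v y + zz y)) y| ≤ CV * ρ := by
  intro y hy
  obtain ⟨hy0, hexp⟩ := wt_left hK hρ hρ1 hy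
  have hρ4 : ρ ^ ((5 : ℝ) / 4) ≤ ρ := rpow_le_self hρ (by linarith) (by norm_num)
  have hz' : ∀ k ≤ 4, |iteratedDeriv k zz y| ≤ C3 * ρ := by
    intro k hk
    refine (hzz k hk y).trans (le_trans (mul_le_of_le_one_right hs0 ?_) hs)
    apply Real.exp_le_one_iff.2
    have := abs_nonneg y
    linarith
  have hCv : ∀ X, |X| ≤ C * (Real.exp (-|y| / 2) + ρ ^ ((5 : ℝ) / 4)) → |X| ≤ 4 * |C| * ρ := by
    intro X hX
    have e1 : 0 ≤ Real.exp (-|y| / 2) + ρ ^ ((5 : ℝ) / 4) := by positivity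
    calc |X| ≤ C * (Real.exp (-|y| / 2) + ρ ^ ((5 : ℝ) / 4)) := hX
      _ ≤ |C| * (Real.exp (-|y| / 2) + ρ ^ ((5 : ℝ) / 4)) :=
          mul_le_mul_of_nonneg_right (le_abs_self C) e1
      _ ≤ |C| * (3 * ρ + ρ) := mul_le_mul_of_nonneg_left (by linarith) (abs_nonneg _)
      _ = _ := by ring
  have hvd : Differentiable ℝ v := hv.differentiable (by simp)
  have hzd : Differentiable ℝ zz := hz.differentiable (by simp)
  have hv1s : ContDiff ℝ (⊤ : ℕ∞) (deriv v) := (contDiff_infty_iff_deriv.1 hv).2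
  have hz1s : ContDiff ℝ (⊤ : ℕ∞) (deriv zz) := (contDiff_infty_iff_deriv.1 hz).2
  have hd1 : deriv (fun y => v y + zz y) = fun y => deriv v y + deriv zz y := by
    funext x
    exact ((hvd x).hasDerivAt.add (hzd x).hasDerivAt).deriv
  have hd2 : deriv (fun y => deriv v y + deriv zz y) = fun y => deriv (deriv v) y + deriv (deriv zz) y := by
    funext x
    exact (((hv1s.differentiable (by simp)) x).hasDerivAt.add
      ((hz1s.differentiable (by simp)) x).hasDerivAt).deriv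
  have k0 := hz' 0 (by norm_num)
  have k1 := hz' 1 (by norm_num)
  have k2 := hz' 2 (by norm_num)
  rw [iteratedDeriv_zero] at k0
  rw [iteratedDeriv_one] at k1
  rw [iteratedDeriv_succ, iteratedDeriv_one] at k2
  have l1 := hCv _ (h1 y)
  have l2 := hCv _ (h2 y)
  rw [iteratedDeriv_succ, iteratedDeriv_one] at l2
  have hCVρ2 : 4 * |C| * ρ + C3 * ρ ≤ CV * ρ := by
    have := mul_le_mul_of_nonneg_right hCV2 hρ.le
    linarith
  refine ⟨?_, ?_, ?_⟩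
  · have e1 : |v y| ≤ C2 * ρ + 3 * CQ * ρ := by
      have e2 : |v y| ≤ |v y - Q y| + |Q y| := by
        have := abs_add_le (v y - Q y) (Q y)
        simpa using this
      have e3 : |Q y| ≤ CQ * (3 * ρ) := (hQ y).trans (mul_le_mul_of_nonneg_left hexp hCQ)
      have e4 := h0 y hy0
      linarith
    have e5 := mul_le_mul_of_nonneg_right hCV1 hρ.le
    have e6 := abs_add_le (v y) (zz y)
    linarith
  · rw [hd1]
    exact (abs_add_le _ _).trans (by linarith)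
  · rw [hd1, hd2]
    exact (abs_add_le _ _).trans (by linarith)

/-- Choice of the exponent `N`. -/
theorem choose_N {α : ℝ} (h0 : 0 < α) (N1 : ℕ) (hN1 : 6 ≤ N1) : ∃ N : ℕ, N1 ≤ N ∧
    (2 * α + 1) / 2 ≤ 2 * α * ((N - 3 : ℕ) : ℝ) := by
  set m : ℕ := ⌈(2 * α + 1) / (4 * α)⌉₊ with hm
  refine ⟨N1 + m, by omega, ?_⟩
  have h1 : (2 * α + 1) / (4 * α) ≤ m := Nat.le_ceil _
  have h2 : (m : ℝ) ≤ ((N1 + m - 3 : ℕ) : ℝ) := by exact_mod_cast (by omega : m ≤ N1 + m - 3)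
  have h3 : (2 * α + 1) / (4 * α) ≤ ((N1 + m - 3 : ℕ) : ℝ) := h1.trans h2
  rw [div_le_iff₀ (by linarith)] at h3
  linarith

/-- Choice of `q`. -/
theorem choose_q {α : ℝ} (h0 : 0 < α) : ∃ q : ℕ, 2 ≤ q ∧
    4 * kq q ≤ 2 * α / (4 * α + 3) := by
  set m : ℕ := ⌈(4 * α + 3) / (2 * α)⌉₊ with hm
  refine ⟨m + 2, by omega, ?_⟩
  have h1 : (4 * α + 3) / (2 * α) ≤ m := Nat.le_ceil _
  rw [div_le_iff₀ (by linarith)] at h1
  unfold kq
  have hq : (0 : ℝ) < ((m + 2 : ℕ) : ℝ) := by positivity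
  have hq1 : ((m + 2 : ℕ) : ℝ) = m + 2 := by push_cast; ring
  rw [hq1] at hq ⊢
  rw [mul_one_div, div_le_div_iff₀ (by linarith) (by linarith)]
  nlinarith

end Pool.Agent.Helper25.KV
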