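import Pool.Agent.Helper25.KV.Ap7

/-!
# Project KV, assembly of `Goal_APPROX`, part 8
-/

namespace Pool.Agent.Helper25.KV

open Real MeasureTheory Set Filter Topology
open Pool.Agent.Helper33.KV Pool.Agent.Helper48.KV
open Pool.Agent.Helper41.KV (Q wt S_QF S_FINW IsRP Zp BgL BgY)

/-- `V = inn W + a tauA + b tauB`. -/
noncomputable def Vf (α : ℝ) (Z V2 : ℝ → ℝ) (W : ℝ → ℝ → ℝ) (a b : ℝ → ℝ) (t y : ℝ) : ℝ :=
  inn α W t y + (a t * tauA α Z (rho α t) y + b t * tauB α Z V2 (rho α t) y)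

theorem Vf_sub (α : ℝ) (Z V2 : ℝ → ℝ) (u W : ℝ → ℝ → ℝ) (a b : ℝ → ℝ) (t : ℝ) :
    (fun y => inn α u t y - Vf α Z V2 W a b t y) = etaI α Z V2 u W a b t := by
  funext y
  unfold Vf etaI
  ring

theorem Dn_disp (α K : ℝ) (η : ℝ → ℝ → ℝ) (t : ℝ) : Dn K (rho α t) (η t) = disp α K η t := by
  unfold Dn disp ph1
  congr 1
  funext y
  rw [iteratedDeriv_succ, iteratedDeriv_one]

theorem Hn_hsq (α K : ℝ) (η : ℝ → ℝ → ℝ) (t : ℝ) : Hn K (rho α t) (η t) = hsq α K η t := rfl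

theorem dJ_cont {α K t : ℝ} (hr : 0 < rho α t) : Continuous (dJ α K t) := by
  unfold dJ pW
  have hwc : Continuous (wt K (rho α t)) := Pool.Agent.Helper71.KV.wt_cont K hr
  exact Real.smoothTransition.continuous.comp
    (continuous_const.sub (continuous_const.mul (hwc.comp (by fun_prop))))

/-- What S_EXI gives at one time, in the form used here. -/
structure NearT (α : ℝ) (Z V2 : ℝ → ℝ) (u W : ℝ → ℝ → ℝ) (a b : ℝ → ℝ) (N : ℕ) (t : ℝ) : Prop where
  es : ContDiff ℝ (⊤ : ℕ∞) (etaI α Z V2 u W a b t)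
  eL : ∀ k : ℕ, MemLp (iteratedDeriv k (etaI α Z V2 u W a b t)) 2
  ab : |a t| ≤ rho α t ^ (N - 1)
  bb : |b t| ≤ rho α t ^ (N - 2)
  hs : hsq α 64 (etaI α Z V2 u W a b) t ≤ rho α t ^ (2 * N)

set_option maxHeartbeats 1000000 in
/-- **Assembly of the interface of part H.** -/
theorem approx_of (hCURVE : S_CURVE) (hSCL : S_SCL) (hQF : S_QF) (hTAUB : S_TAUB)
    (hCONTQ : S_CONTQ) (hCONTD : S_CONTD) (hYEX : S_YEX) (hEXI : S_EXI) (hFINW : S_FINW)
    (hJZ : S_JZ) (hCUT : S_CUT) (hPKQ : S_PKQ) (hJMAIN : S_JMAIN) : Goal_APPROX := by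
  intro α h0 h1
  obtain ⟨R, P, -, hF⟩ := hFINW
  obtain ⟨hZ, -, M, C, V2, -, hV2, hW⟩ := hF α h0 h1
  generalize Zp α R P = Z at hZ hV2 hW
  obtain ⟨Y, hY⟩ := hYEX Z hZ
  obtain ⟨hEs, CT, ρT, hρT, hρT1, hT⟩ := hTAUB α Z Y V2 hZ hY hV2
  obtain ⟨N1, hN1, hE⟩ := hEXI α 64 C 0 Z Y V2 h0 h1 le_rfl hZ hY hV2
  obtain ⟨N, hN, hN3⟩ := choose_N h0 N1 hN1
  have hN6 : 6 ≤ N := hN1.trans hN
  obtain ⟨δ1, hδ1, hE1⟩ := hE N (N + 2) hN le_rfl
  obtain ⟨T, C2, f0, W, Wt, r, r', hT0, hBg⟩ := hW (N + 2) 64 le_rfl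
  obtain ⟨p1, p2, p3⟩ := hCURVE α h0 h1
  obtain ⟨Ta, hTa, hTa'⟩ := p3 1 one_pos
  -- the time for the background
  set T2 : ℝ := min T Ta with hT2def
  have hT2 : 0 < T2 := lt_min hT0 hTa
  have hρT2 : rho α T2 ≤ 1 := (hTa' T2 hT2 (min_le_right _ _)).2.2
  obtain ⟨hB, hBL, hBY⟩ := hBg T2 hT2 (min_le_left _ _)
  obtain ⟨T1, hT1, hT12, hE2⟩ := hE1 T2 C2 M W Wt r r' hT2 hρT2 hB hBY 1 one_pos
  obtain ⟨CQ, hCQ, hQb⟩ := Q_bd hQF
  obtain ⟨q, hq2, hq4⟩ := choose_q h0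
  obtain ⟨z, A, hz⟩ := hJZ
  -- constants
  set CA : ℝ := |CT| with hCA
  have hCA0 : 0 ≤ CA := abs_nonneg _
  set CV : ℝ := 1 + 16 * |C2| + |C2| + 3 * CQ + 4 * |C| + 2 * CA with hCV
  have hCV1 : 1 ≤ CV := by
    have := abs_nonneg C2
    have := abs_nonneg C
    linarith
  obtain ⟨CJ, TJ, k00, hCJ, hTJ, hTJ1, hJM⟩ := hJMAIN α 64 CV A z q h0 h1 (by norm_num) hCV1 hq2 hq4 hz
  obtain ⟨CC, TC, -, hTC, hTC1, hTC2, hcut, -⟩ := hCUT α 64 h0 h1 (by norm_num)
  obtain ⟨k1, hk1⟩ := gp_small 10 (10 * q) (by norm_num) (by omega) δ1 hδ1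
  obtain ⟨k2, hk2⟩ := gp_exp hPKQ
  obtain ⟨Cp, hCp, hP⟩ := hPKQ
  set k0 : ℕ := max k00 (max k1 k2) with hk0
  have hk00 : k00 ≤ k0 := le_max_left _ _
  have hk01 : k1 ≤ k0 := (le_max_left _ _).trans (le_max_right _ _)
  have hk02 : k2 ≤ k0 := (le_max_right _ _).trans (le_max_right _ _)
  obtain ⟨Tm, hTm, hmass⟩ := hBY.mass 1 one_pos
  set ε0 : ℝ := min (1 / 10) (min ρT (1 / (2 * CA + 2))) with hε0
  have hε0pos : 0 < ε0 := by
    refine lt_min (by norm_num) (lt_min hρT ?_)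
    positivity
  obtain ⟨Tb, hTb, hTb'⟩ := p3 ε0 hε0pos
  set Tf : ℝ := min T1 (min TJ (min TC (min Tm Tb))) with hTf
  have hTf0 : 0 < Tf := lt_min hT1 (lt_min hTJ (lt_min hTC (lt_min hTm hTb)))
  have hTf1 : Tf ≤ T1 := min_le_left _ _
  have hTfJ : Tf ≤ TJ := (min_le_right _ _).trans (min_le_left _ _)
  have hTfC : Tf ≤ TC := (min_le_right _ _).trans ((min_le_right _ _).trans (min_le_left _ _))
  have hTfm : Tf ≤ Tm := (min_le_right _ _).trans ((min_le_right _ _).trans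
    ((min_le_right _ _).trans (min_le_left _ _)))
  have hTfb : Tf ≤ Tb := (min_le_right _ _).trans ((min_le_right _ _).trans
    ((min_le_right _ _).trans (min_le_right _ _)))
  have hTf2 : Tf ≤ T2 := hTf1.trans hT12
  have hTf11 : Tf ≤ 1 := hTfC.trans hTC1
  -- the scales
  have hsc : ∀ t, 0 < t → t ≤ Tf → 0 < sig α t ∧ sig α t ≤ 1 ∧ 0 < lam α t ∧ 0 < rho α t ∧
      rho α t ≤ 1 / 10 ∧ rho α t ≤ ρT ∧ rho α t ≤ 1 / (2 * CA + 2) := by
    intro t ht htT
    obtain ⟨a1, a2, a3, -⟩ := p1 t ht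
    obtain ⟨-, -, b3⟩ := hTb' t ht (htT.trans hTfb)
    have hs4 := (hcut t ht (htT.trans hTfC)).1
    exact ⟨a1, by linarith, a2, a3, b3.trans (min_le_left _ _),
      b3.trans ((min_le_right _ _).trans (min_le_left _ _)),
      b3.trans ((min_le_right _ _).trans (min_le_right _ _))⟩
  set MW : ℝ := (∫ x, W Tf x ^ 2) + 1 with hMW
  have hWm : ∀ t, 0 < t → t ≤ Tf → (∫ x, W t x ^ 2) ≤ MW := by
    intro t ht htT
    have := hmass t ⟨ht, htT.trans hTfm⟩ Tf ⟨hTf0, hTfm⟩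
    have := (abs_le.1 this).2
    linarith
  set Mu : ℝ := 2 * MW + 2 * δ1 with hMu
  obtain ⟨CR, hCR, hrt⟩ := rtight Mu
  set Mw : ℝ := 2 * Mu + 2 * δ1 with hMw
  set JJ : ℝ := ∫ y : ℝ, (1 + |y|) ^ (-2 : ℝ) with hJJ
  have hJJ0 : 0 ≤ JJ := integral_nonneg fun y => by positivity
  have hκ : 0 < kq q := by
    unfold kq
    have : (0 : ℝ) < q := by exact_mod_cast (by omega : 0 < q)
    positivity
  have hκ1 : kq q < 1 := by
    unfold kq
    have : (2 : ℝ) ≤ q := by exact_mod_cast hq2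
    rw [div_lt_one (by linarith)]
    linarith
  have hA : 101 ≤ A := by
    have e1 := hz.lin 1 le_rfl
    have e2 := hz.ge 1
    linarith
  set C1 : ℝ := 3 + 3 * |Mw| + CR + (A + 1) * (1 / kq q) +
    (3 * ((2 * |C|) ^ 2 * JJ) + 6 * (2 * CA) ^ 2 + 12) with hC1
  have hC10 : 0 ≤ C1 := by
    have : 0 ≤ (A + 1) * (1 / kq q) := by positivity
    positivity
  set Cw : ℝ := 16 * CJ + 16 * |C2| + 32 * CA ^ 2 + 8 + 2 * |C2| with hCw
  refine ⟨kq q, Tf, 10, 10 * q, k0, f0, fun t => Cw * (t ^ kq q + rho α t ^ ((1 : ℝ) / 2)),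
    fun t => C1 * (1 / t + (1 / lam α t) ^ 2 + 1), hκ, hκ1, hTf0, by norm_num, by omega, ?_,
    hBL.f0L2, omega_tendsto hCURVE h0 h1 hκ Cw, C_antitone hCURVE h0 h1 hC10 Tf, ?_⟩
  · have hq0 : (0 : ℝ) < q := by exact_mod_cast (by omega : 0 < q)
    unfold kq
    push_cast
    have : (10 : ℝ) * q * (1 / (5 * q)) = 2 := by
      field_simp
      norm_num
    rw [this]
    norm_num
  intro n τ hτ0 hτT
  -- the packets
  obtain ⟨g1, g2, -, -, g5, -⟩ := hP q k0 n hq2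
  have hg0 : ∀ t x, -3 < x → gq q k0 n t x = 0 := by
    intro t x hx
    refine (g2 t x fun j hj hxj => ?_).1
    have := ((g1 j).2.2.2 x hxj).2.2
    linarith
  have hgm : ∀ t, (∫ x, gq q k0 n t x ^ 2) ≤ δ1 := fun t => hk1 k0 hk01 n t
  have hgs : ∀ t, ContDiff ℝ (⊤ : ℕ∞) (gq q k0 n t) := fun t => (g5 t).1.1
  have hgL : ∀ t, Integrable (fun x => gq q k0 n t x ^ 2) := fun t => by
    have := (g5 t).1.2 0
    rw [iteratedDeriv_zero] at this
    exact this.integrable_sq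
  -- the solution
  obtain ⟨u, husol, hu0, a, b, a', b', -, -, hab⟩ := hE2 τ hτ0 (hτT.trans_le hTf1) (gq q k0 n τ)
    (hgs τ) (g5 τ).1.2 (fun x hx => hg0 τ x (by linarith)) (hk2 q hq2 k0 hk02 n τ) (hgm τ)
  have hτT1 : τ < T1 := hτT.trans_le hTf1
  have hsolT : SmoothSol u τ Tf := smoothSol_mono_right husol hTf1
  have hsub : Icc τ Tf ⊆ Icc τ T1 := Icc_subset_Icc_right hTf1
  have hac : ContinuousOn a (Icc τ T1) := fun t ht => (hab t ht).1.continuousWithinAt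
  have hbc : ContinuousOn b (Icc τ T1) := fun t ht => (hab t ht).2.1.continuousWithinAt
  obtain ⟨-, -, -, hreg⟩ := hCONTQ α (N + 2) 64 T2 C 0 Z Y V2 W Wt r r' h0 h1 le_rfl hT2 hZ hY hV2
    hB u τ T1 hτ0 hτT1 hT12 husol a b hac hbc
  have hdc := hCONTD α (N + 2) 64 T2 C 0 Z Y V2 W Wt r r' h0 h1 le_rfl hT2 hZ hY hV2
    hB u τ T1 hτ0 hτT1 hT12 husol a b hac hbc
  have hpos : ∀ t ∈ Icc τ Tf, 0 < t := fun t ht => hτ0.trans_le ht.1
  have hIoc : ∀ t ∈ Icc τ Tf, t ∈ Ioc 0 T2 := fun t ht => ⟨hpos t ht, ht.2.trans hTf2⟩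
  -- smoothness of W
  have hWs : ∀ t ∈ Icc τ Tf, ContDiff ℝ (⊤ : ℕ∞) (W t) := fun t ht =>
    (hB.hinf t T2 (hpos t ht) (ht.2.trans hTf2) le_rfl).1.smooth t ⟨le_rfl, ht.2.trans hTf2⟩
  have hus : ∀ t ∈ Icc τ Tf, ContDiff ℝ (⊤ : ℕ∞) (u t) := fun t ht => hsolT.hinf.smooth t ht
  have huL : ∀ t ∈ Icc τ Tf, Integrable (fun x => u t x ^ 2) := fun t ht => by
    have := hsolT.hinf.memLp 0 t ht
    rw [iteratedDeriv_zero] at this
    exact this.integrable_sq
  have hWL : ∀ t ∈ Icc τ Tf, Integrable (fun x => W t x ^ 2) := fun t ht => by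
    have := (hB.hinf t T2 (hpos t ht) (ht.2.trans hTf2) le_rfl).1.memLp 0 t ⟨le_rfl, ht.2.trans hTf2⟩
    rw [iteratedDeriv_zero] at this
    exact this.integrable_sq
  -- the data near the soliton
  have hnear : ∀ t ∈ Icc τ Tf, NearT α Z V2 u W a b N t := fun t ht => by
    obtain ⟨-, -, -, -, c1, c2, c3, -⟩ := hab t (hsub ht)
    exact ⟨(hreg t (hsub ht)).1, (hreg t (hsub ht)).2, c1, c2, c3⟩
  -- the correction
  have hzs : ∀ t, ContDiff ℝ (⊤ : ℕ∞) (fun y => a t * tauA α Z (rho α t) y +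
      b t * tauB α Z V2 (rho α t) y) := fun t =>
    (contDiff_const.mul (hEs (rho α t)).1.1).add (contDiff_const.mul (hEs (rho α t)).2.1.1)
  have hzz : ∀ t ∈ Icc τ Tf, ∀ k ≤ 4, ∀ y, |iteratedDeriv k (fun y => a t * tauA α Z (rho α t) y +
      b t * tauB α Z V2 (rho α t) y) y| ≤
      2 * CA * rho α t ^ (N - 2) * Real.exp (-(3 / 4) * |y|) := by
    intro t ht
    obtain ⟨s1, s2, s3, s4, s5, s6, s7⟩ := hsc t (hpos t ht) ht.2
    have hn := hnear t ht
    refine zz_bd (hEs (rho α t)).1.1 (hEs (rho α t)).2.1.1 (fun k hk y => ?_) ?_ hn.bb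
    · obtain ⟨e1, e2, -⟩ := (hT (rho α t) s4.le s6).1 k hk y
      have e3 : CT * Real.exp (-(3 / 4) * |y|) ≤ CA * Real.exp (-(3 / 4) * |y|) :=
        mul_le_mul_of_nonneg_right (le_abs_self CT) (Real.exp_pos _).le
      exact ⟨e1.trans e3, e2.trans e3⟩
    · exact hn.ab.trans (pow_le_pow_of_le_one s4.le (by linarith) (by omega))
  have hpw : ∀ t ∈ Icc τ Tf, rho α t ^ (N - 2) ≤ rho α t := fun t ht => by
    obtain ⟨s1, s2, s3, s4, s5, s6, s7⟩ := hsc t (hpos t ht) ht.2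
    calc rho α t ^ (N - 2) ≤ rho α t ^ 1 := pow_le_pow_of_le_one s4.le (by linarith) (by omega)
      _ = rho α t := pow_one _
  have hpw4 : ∀ t ∈ Icc τ Tf, rho α t ^ (2 * N) ≤ rho α t ^ 4 := fun t ht => by
    obtain ⟨s1, s2, s3, s4, s5, s6, s7⟩ := hsc t (hpos t ht) ht.2
    exact pow_le_pow_of_le_one s4.le (by linarith) (by omega)
  -- the left functional
  have hW0 : ∀ t ∈ Icc τ Tf, ∀ x, 1 ≤ x → W t x = 0 := fun t ht =>
    W_right (hWs t ht).continuous (hB.supp t (hIoc t ht))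
  have hτm : τ ∈ Icc τ Tf := ⟨le_rfl, hτT.le⟩
  have huτ : (fun x => u τ x - gq q k0 n τ x) = W τ := by
    funext x
    rw [hu0 x]
    ring
  have hJall := hJM k0 n τ Tf u (Vf α Z V2 W a b) hk00 hτ0 hτT hTfJ hsolT
    (fun t ht => by
      obtain ⟨s1, s2, s3, s4, s5, s6, s7⟩ := hsc t (hpos t ht) ht.2
      have hn := hnear t ht
      have hvs : ContDiff ℝ (⊤ : ℕ∞) (inn α W t) := inn_smooth (hWs t ht)
      rw [Vf_sub]
      refine ⟨hvs.add (hzs t), ⟨hn.es, hn.eL⟩, fun y hy1 hy2 => ?_, ?_⟩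
      · exact V_bd (K := 64) (ρ := rho α t) (CQ := CQ) (C := C) (C2 := |C2|)
          (s := 2 * CA * rho α t ^ (N - 2)) (C3 := 2 * CA) (CV := CV) (v := inn α W t)
          (zz := fun y => a t * tauA α Z (rho α t) y + b t * tauB α Z V2 (rho α t) y)
          (by norm_num) s4 (by linarith) hCQ hQb hvs (hzs t)
          (fun y hy => (hBL.b0L t (hIoc t ht) y hy).trans
            (mul_le_mul_of_nonneg_right (le_abs_self C2) s4.le))
          (hB.b1' t (hIoc t ht)) (hB.b2 t (hIoc t ht)) (hzz t ht) (by positivity)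
          (mul_le_mul_of_nonneg_left (hpw t ht) (by positivity))
          (by have := abs_nonneg C2; have := abs_nonneg C; linarith)
          (by have := abs_nonneg C2; linarith) y hy2
      · rw [Hn_hsq]
        exact hn.hs.trans (hpw4 t ht))
    (by
      refine (hdc.mono hsub).congr fun t ht => ?_
      rw [Vf_sub]
      exact Dn_disp α 64 (etaI α Z V2 u W a b) t)
    (fun t ht => by
      have e1 : (∫ s in τ..t, Dn 64 (rho α s) (fun y => inn α u s y - Vf α Z V2 W a b s y) /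
          lam α s ^ 3) = ∫ s in τ..t, disp α 64 (etaI α Z V2 u W a b) s / lam α s ^ 3 := by
        congr 1
        funext s
        rw [Vf_sub, Dn_disp α 64 (etaI α Z V2 u W a b) s]
      rw [e1]
      obtain ⟨-, -, -, -, -, -, -, -, -, c9⟩ := hab t (hsub ht)
      exact c9.trans (hpw4 t ht))
    (fun x hx => by
      have e1 := hB.supp τ (hIoc τ hτm) x (fun hm => absurd hm.1 (not_le.2 hx))
      rw [hu0 x, e1, zero_add])
    (by
      obtain ⟨s1, s2, s3, s4, s5, s6, s7⟩ := hsc τ hτ0 hτT.le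
      have e1 := (init_bd (K := 64) s3 s4 (hWs τ hτm) (hBY.lft τ (hIoc τ hτm)).1
        (hBY.lft τ (hIoc τ hτm)).2).1
      rw [huτ]
      have e2 : ∀ x, u τ x - gq q k0 n τ x = W τ x := fun x => congrFun huτ x
      simp only [e2]
      refine e1.trans ?_
      have e3 : 0 ≤ rho α τ ^ ((3 : ℝ) / 2) := by positivity
      have e4 : C2 * rho α τ ^ ((3 : ℝ) / 2) ≤ |C2| * rho α τ ^ ((3 : ℝ) / 2) :=
        mul_le_mul_of_nonneg_right (le_abs_self C2) e3
      have e5 : 16 * |C2| * rho α τ ^ ((3 : ℝ) / 2) ≤ CV * rho α τ ^ ((3 : ℝ) / 2) :=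
        mul_le_mul_of_nonneg_right (by
          have := abs_nonneg C2
          have := abs_nonneg C
          linarith) e3
      linarith)
  -- the snapshots
  have hsnap : ∀ t ∈ Icc τ Tf, Snap α 64 t u W (gq q k0 n)
      (fun y => a t * tauA α Z (rho α t) y + b t * tauB α Z V2 (rho α t) y)
      (etaI α Z V2 u W a b t) (2 * CA * rho α t ^ (N - 2)) := by
    intro t ht
    obtain ⟨s1, s2, s3, s4, s5, s6, s7⟩ := hsc t (hpos t ht) ht.2
    obtain ⟨c1, c2, c3, c4, c5, c6, c7, -⟩ := hcut t (hpos t ht) (ht.2.trans hTfC)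
    have hn := hnear t ht
    exact
      { K0 := by norm_num
        t0 := hpos t ht
        t1 := ht.2.trans hTf11
        lp := s3
        rp := s4
        r1 := by linarith
        us := hus t ht
        Ws := hWs t ht
        gs := hgs t
        zs := hzs t
        es := hn.es
        dec := fun y => by unfold etaI; ring
        g0 := hg0 t
        d0 := fun x => (c2 x).1
        d1 := fun x => (c2 x).2
        c1 := c3
        c2 := c4
        c3 := c5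
        c4 := c7
        dc := dJ_cont s4
        uL := huL t ht
        gL := hgL t
        eL := by have := hn.eL 0; rwa [iteratedDeriv_zero] at this
        eL1 := by have := hn.eL 1; rwa [iteratedDeriv_one] at this
        s0 := by positivity
        zb := fun y => by have := hzz t ht 0 (by norm_num) y; rwa [iteratedDeriv_zero] at this
        zb1 := fun y => by have := hzz t ht 1 (by norm_num) y; rwa [iteratedDeriv_one] at this }
  -- masses
  have hmu : ∀ t ∈ Icc τ Tf, (∫ x, u t x ^ 2) ≤ Mu := by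
    intro t ht
    rw [mass_sol hsolT ht]
    have e1 : ∀ x, u τ x ^ 2 = (W τ x + gq q k0 n τ x) ^ 2 := fun x => by rw [hu0 x]
    simp only [e1]
    have e2 := (int_add_sq (hWs τ hτm).continuous.aestronglyMeasurable
      (hgs τ).continuous.aestronglyMeasurable (hWL τ hτm) (hgL τ)).2
    have e3 := hWm τ hτ0 hτT.le
    have e4 := hgm τ
    linarith
  -- the right side
  have hright : ∀ t ∈ Icc τ Tf, ∀ x, 1 ≤ x → |u t x| ≤ 1 := by
    intro t ht
    obtain ⟨s1, s2, s3, s4, s5, s6, s7⟩ := hsc t (hpos t ht) ht.2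
    obtain ⟨c1, -⟩ := hcut t (hpos t ht) (ht.2.trans hTfC)
    refine (hsnap t ht).right_bd c1 (hW0 t ht) (hnear t ht).hs ?_
    have e1 : Real.sqrt (2 * rho α t ^ (2 * N)) ≤ 2 * rho α t ^ (N - 2) := by
      rw [Real.sqrt_le_left (by positivity)]
      have e2 : rho α t ^ (2 * N) ≤ rho α t ^ (2 * (N - 2)) :=
        pow_le_pow_of_le_one s4.le (by linarith) (by omega)
      have e3 : (2 * rho α t ^ (N - 2)) ^ 2 = 4 * rho α t ^ (2 * (N - 2)) := by
        rw [mul_pow, ← pow_mul, mul_comm (N - 2) 2]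
        norm_num
      rw [e3]
      have e4 : 0 ≤ rho α t ^ (2 * (N - 2)) := by positivity
      linarith
    have e5 : rho α t ^ (N - 3) ≤ Real.sqrt (lam α t) := pow_le_sqrt_lam s1 s2 hN3
    have e6 : rho α t ^ (N - 2) = rho α t ^ (N - 3) * rho α t := by
      rw [← pow_succ]
      congr 1
      omega
    have e7 : (2 * CA + 2) * rho α t ≤ 1 := by
      rw [le_div_iff₀ (by positivity)] at s7
      linarith
    have e8 : 0 ≤ rho α t ^ (N - 3) := by positivity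
    calc 2 * CA * rho α t ^ (N - 2) + Real.sqrt (2 * rho α t ^ (2 * N))
        ≤ 2 * CA * rho α t ^ (N - 2) + 2 * rho α t ^ (N - 2) := by linarith
      _ = rho α t ^ (N - 3) * ((2 * CA + 2) * rho α t) := by rw [e6]; ring
      _ ≤ rho α t ^ (N - 3) * 1 := mul_le_mul_of_nonneg_left e7 e8
      _ ≤ _ := by rw [mul_one]; exact e5
  have hrt' := hrt u τ Tf hτT (by linarith) hsolT hmu hright (fun x hx => by
    rw [hu0 x, hW0 τ hτm x hx, hg0 τ x (by linarith), zero_add])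
  refine ⟨u, hsolT, fun t ht => ?_⟩
  obtain ⟨s1, s2, s3, s4, s5, s6, s7⟩ := hsc t (hpos t ht) ht.2
  have hsn := hsnap t ht
  have hn := hnear t ht
  obtain ⟨j1, j2, j3, j4, j5⟩ := hJall t ht
  have ht0 := hpos t ht
  have hρ12 : rho α t ≤ rho α t ^ ((1 : ℝ) / 2) := by
    calc rho α t = rho α t ^ (1 : ℝ) := (Real.rpow_one _).symm
      _ ≤ _ := Real.rpow_le_rpow_of_exponent_ge s4 (by linarith) (by norm_num)
  have hρ32 : rho α t ^ ((3 : ℝ) / 2) ≤ rho α t ^ ((1 : ℝ) / 2) :=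
    Real.rpow_le_rpow_of_exponent_ge s4 (by linarith) (by norm_num)
  have hs2 : (2 * CA * rho α t ^ (N - 2)) ^ 2 ≤ 4 * CA ^ 2 * rho α t ^ ((1 : ℝ) / 2) := by
    have e1 := hpw t ht
    have e2 : rho α t ^ (N - 2) * rho α t ^ (N - 2) ≤ rho α t * 1 :=
      mul_le_mul e1 (e1.trans (by linarith)) (by positivity) s4.le
    have e3 : (2 * CA * rho α t ^ (N - 2)) ^ 2 =
        4 * CA ^ 2 * (rho α t ^ (N - 2) * rho α t ^ (N - 2)) := by ring
    rw [e3]
    exact mul_le_mul_of_nonneg_left (by linarith) (by positivity)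
  have hEn : rho α t ^ (2 * N) ≤ rho α t ^ ((1 : ℝ) / 2) := by
    calc rho α t ^ (2 * N) ≤ rho α t ^ 1 := pow_le_pow_of_le_one s4.le (by linarith) (by omega)
      _ = rho α t := pow_one _
      _ ≤ _ := hρ12
  have hEn1 : rho α t ^ (2 * N) ≤ 1 := pow_le_one₀ s4.le (by linarith)
  have hs21 : (2 * CA * rho α t ^ (N - 2)) ^ 2 ≤ (2 * CA) ^ 2 := by
    rw [mul_pow]
    refine mul_le_of_le_one_right (sq_nonneg _) (pow_le_one₀ (by positivity) ?_)
    exact pow_le_one₀ s4.le (by linarith)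
  refine ⟨?_, ?_, ?_⟩
  · -- (1)
    obtain ⟨-, i1, i2⟩ := init_bd (K := 64) s3 s4 (hWs t ht) (hBY.lft t (hIoc t ht)).1
        (hBY.lft t (hIoc t ht)).2
    have d1 := hsn.dist j1 i1 i2 hn.hs
    obtain ⟨v1, v2⟩ := hBL.conv t (hIoc t ht)
    have hmeas : AEStronglyMeasurable (fun x => W t x - outr α (fun _ => Q) t x - f0 x) volume := by
      have hQc : Continuous Q := hQF.1.continuous
      have c1 : Continuous (fun x => outr α (fun _ => Q) t x) := by
        unfold outr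
        exact continuous_const.mul (hQc.comp (by fun_prop))
      exact (((hWs t ht).continuous.sub c1).aestronglyMeasurable).sub hBL.f0L2.1
    have d2 := fin_dist (D0 := fun x => u t x - gq q k0 n t x - W t x)
      (S := fun x => outr α (fun _ => Q) t x) (f0 := f0) (Wt' := W t)
      ((((hus t ht).continuous.sub (hgs t).continuous).sub
        (hWs t ht).continuous).aestronglyMeasurable) hmeas d1.1 v1 d1.2 v2
    have heq : (fun x => (u t x - Sol α t x - f0 x - gp 10 (10 * q) k0 n t x) ^ 2) = fun x =>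
        ((u t x - gq q k0 n t x - W t x) + (W t x - outr α (fun _ => Q) t x - f0 x)) ^ 2 := by
      funext x
      unfold Sol gq
      ring
    rw [heq]
    refine ⟨d2.1, d2.2.trans ?_⟩
    have e3 : 0 ≤ rho α t ^ ((3 : ℝ) / 2) := by positivity
    have e3' : 0 ≤ rho α t ^ ((1 : ℝ) / 2) := by positivity
    have e4 : C2 * rho α t ^ ((3 : ℝ) / 2) ≤ |C2| * rho α t ^ ((1 : ℝ) / 2) :=
      (mul_le_mul_of_nonneg_right (le_abs_self C2) e3).trans
        (mul_le_mul_of_nonneg_left hρ32 (abs_nonneg _))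
    have e5 : C2 * rho α t ^ ((1 : ℝ) / 2) ≤ |C2| * rho α t ^ ((1 : ℝ) / 2) :=
      mul_le_mul_of_nonneg_right (le_abs_self C2) e3'
    have e6 : 0 ≤ t ^ kq q := by positivity
    have hC20 := abs_nonneg C2
    have e7 : 0 ≤ (16 * |C2| + 32 * CA ^ 2 + 8 + 2 * |C2|) * t ^ kq q := by positivity
    have e8 : 0 ≤ 16 * CJ * rho α t ^ ((1 : ℝ) / 2) := by positivity
    rw [hCw]
    nlinarith
  · -- (2)
    have m1 := hsn.mass_bd (κ := kq q) (A := A) (Mw := Mw) (CR := CR) hκ hκ1 hz.lin hA hz.ge j2 j3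
      (by
        have e1 := hmu t ht
        have e2 := hgm t
        linarith) (hrt' t ht).1 (hrt' t ht).2
    refine ⟨m1.1, m1.2.trans ?_⟩
    have e1 : 0 ≤ 1 / t + (1 / lam α t) ^ 2 := by positivity
    have e2 := mul_nonneg hC10 e1
    have e3 : Mw ≤ |Mw| := le_abs_self _
    have e4 : 0 ≤ (A + 1) * (1 / kq q) := by positivity
    have e5 : 0 ≤ 3 * ((2 * |C|) ^ 2 * JJ) + 6 * (2 * CA) ^ 2 + 12 := by positivity
    have e6 : C1 * (1 / t + (1 / lam α t) ^ 2 + 1) =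
      C1 * (1 / t + (1 / lam α t) ^ 2) + C1 := by ring
    show 3 + 3 * Mw + CR ≤ C1 * (1 / t + (1 / lam α t) ^ 2 + 1)
    rw [e6]
    linarith
  · -- (3)
    have hD : ∀ y, (1 + |y|) * |deriv (inn α W t) y| ≤ 2 * |C| := by
      intro y
      refine (hB.b1 t (hIoc t ht) y).trans ?_
      have e1 : Real.exp (-|y| / 2) ≤ 1 := Real.exp_le_one_iff.2 (by
        have := abs_nonneg y
        linarith)
      have e2 : rho α t ^ ((1 : ℝ) / 2) ≤ 1 := Real.rpow_le_one s4.le (by linarith) (by norm_num)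
      have e3 : 0 ≤ Real.exp (-|y| / 2) + rho α t ^ ((1 : ℝ) / 2) := by positivity
      calc C * (Real.exp (-|y| / 2) + rho α t ^ ((1 : ℝ) / 2))
          ≤ |C| * (Real.exp (-|y| / 2) + rho α t ^ ((1 : ℝ) / 2)) :=
            mul_le_mul_of_nonneg_right (le_abs_self C) e3
        _ ≤ |C| * 2 := mul_le_mul_of_nonneg_left (by linarith) (abs_nonneg _)
        _ = _ := by ring
    have m1 := hsn.deriv_bd (κ := kq q) (A := A) (J1 := 1 / kq q) (D := 2 * |C|)
      (En := rho α t ^ (2 * N)) hκ hκ1 hz.lin hA hz.ge j4 j5 hD hn.hs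
    refine ⟨m1.1, m1.2.trans ?_⟩
    set l2 : ℝ := (1 / lam α t) ^ 2 with hl2
    have hl20 : 0 ≤ l2 := sq_nonneg _
    have e1 : (A + 1) / (3 * t) * (1 / kq q) ≤ (A + 1) * (1 / kq q) * (1 / t) := by
      have e2 : (A + 1) / (3 * t) ≤ (A + 1) * (1 / t) := by
        rw [mul_one_div]
        exact div_le_div_of_nonneg_left (by linarith) ht0 (by linarith)
      calc (A + 1) / (3 * t) * (1 / kq q) ≤ (A + 1) * (1 / t) * (1 / kq q) :=
            mul_le_mul_of_nonneg_right e2 (by positivity)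
        _ = _ := by ring
    have e3 : l2 * (3 * ((2 * |C|) ^ 2 * JJ) + 6 * (2 * CA * rho α t ^ (N - 2)) ^ 2 +
        12 * rho α t ^ (2 * N)) ≤ l2 * (3 * ((2 * |C|) ^ 2 * JJ) + 6 * (2 * CA) ^ 2 + 12) :=
      mul_le_mul_of_nonneg_left (by linarith) hl20
    have e4 : 0 ≤ (A + 1) * (1 / kq q) := by positivity
    have e5 : 0 ≤ 3 * ((2 * |C|) ^ 2 * JJ) + 6 * (2 * CA) ^ 2 + 12 := by positivity
    have e6 : (A + 1) * (1 / kq q) ≤ C1 := by
      have := abs_nonneg Mw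
      linarith
    have e7 : 3 * ((2 * |C|) ^ 2 * JJ) + 6 * (2 * CA) ^ 2 + 12 ≤ C1 := by
      have := abs_nonneg Mw
      linarith
    have e8 : (A + 1) * (1 / kq q) * (1 / t) ≤ C1 * (1 / t) :=
      mul_le_mul_of_nonneg_right e6 (by positivity)
    have e9 : l2 * (3 * ((2 * |C|) ^ 2 * JJ) + 6 * (2 * CA) ^ 2 + 12) ≤ l2 * C1 :=
      mul_le_mul_of_nonneg_left e7 hl20
    have e10 : C1 * (1 / t + l2 + 1) = C1 * (1 / t) + l2 * C1 + C1 := by ring
    show _ ≤ C1 * (1 / t + l2 + 1)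
    rw [e10]
    linarith

end Pool.Agent.Helper25.KV
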