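import Pool.Agent.Helper33.KV.Defs

/-!
# Project KV (`MP_66be51_an`), part H: solutions, concentration, packets

All objects used by the final statement and by the limit argument.
-/

namespace Pool.Agent.Helper25.KV

open Real MeasureTheory Set Filter Topology
open scoped ENNReal
open Pool.Agent.Helper41.KV (Q)
open Pool.Agent.Helper33.KV (SmoothSol outr)

/-- The squared `H^κ` norm in Gagliardo form:
`∫ f^2 + ∬ (f x - f y)^2 / |x - y|^{1 + 2κ}`, as an extended nonnegative number (`0 < κ < 1`). -/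
noncomputable def hs (κ : ℝ) (f : ℝ → ℝ) : ℝ≥0∞ :=
  (∫⁻ x, ENNReal.ofReal (f x ^ 2)) +
    ∫⁻ x, ∫⁻ y, ENNReal.ofReal ((f x - f y) ^ 2 / |x - y| ^ (1 + 2 * κ))

/-- Membership in `H^κ(ℝ)`, `0 < κ < 1`. -/
def InHs (κ : ℝ) (f : ℝ → ℝ) : Prop := AEStronglyMeasurable f volume ∧ hs κ f < ∞

/-- Membership in `H^1(ℝ)`: `f ∈ L^2` and the distributional derivative is in `L^2`. -/
def InH1 (f : ℝ → ℝ) : Prop :=
  MemLp f 2 ∧ ∃ g : ℝ → ℝ, MemLp g 2 ∧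
    ∀ θ : ℝ → ℝ, ContDiff ℝ (⊤ : ℕ∞) θ → HasCompactSupport θ →
      (∫ x, f x * deriv θ x) = - ∫ x, g x * θ x

/-- `u ∈ C((0,T]; H^κ)` is a solution of the quintic gKdV equation on `(0,T]` in the sense of the
local well-posedness theory in `H^κ(ℝ)`: it is continuous with values in `H^κ`, jointly continuous as
a function of `(t,x)`, it satisfies the equation in the sense of distributions (in the form
integrated in time), and on each `[t0,T]`, `t0 > 0`, it is the limit in `C([t0,T]; H^κ)` of smooth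
solutions (`Pool.Agent.Helper33.KV.SmoothSol`: all space derivatives jointly continuous and bounded in
`L^2`, the equation holds pointwise with all its space derivatives). -/
structure IsSolution (κ T : ℝ) (u : ℝ → ℝ → ℝ) : Prop where
  mem : ∀ t ∈ Ioc 0 T, InHs κ (u t)
  contHs : ∀ t ∈ Ioc 0 T, Tendsto (fun s => hs κ (fun x => u s x - u t x)) (𝓝[Ioc 0 T] t) (𝓝 0)
  cont : ContinuousOn (fun p : ℝ × ℝ => u p.1 p.2) (Ioc 0 T ×ˢ univ)
  weak : ∀ θ : ℝ → ℝ, ContDiff ℝ (⊤ : ℕ∞) θ → HasCompactSupport θ → ∀ s ∈ Ioc 0 T, ∀ t ∈ Ioc 0 T,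
    (∫ x, u t x * θ x) - (∫ x, u s x * θ x) =
      ∫ r in s..t, ∫ x, (u r x * iteratedDeriv 3 θ x + u r x ^ 5 * deriv θ x)
  approx : ∀ t0 ∈ Ioo 0 T, ∃ v : ℕ → ℝ → ℝ → ℝ, (∀ n, SmoothSol (v n) t0 T) ∧
    Tendsto (fun n => ⨆ t ∈ Icc t0 T, hs κ (fun x => v n t x - u t x)) atTop (𝓝 0)

/-- `u` concentrates at `t = 0` with rate `ν`. -/
def Concentrates (ν T : ℝ) (u : ℝ → ℝ → ℝ) : Prop :=
  ∃ (lam sig : ℝ → ℝ) (c x0 : ℝ) (z : ℝ → ℝ), 0 < c ∧ (∀ t ∈ Ioc 0 T, 0 < lam t) ∧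
    Tendsto (fun t => lam t / t ^ ν) (𝓝[>] 0) (𝓝 c) ∧ Tendsto sig (𝓝[>] 0) (𝓝 x0) ∧ MemLp z 2 ∧
    Tendsto (fun t => eLpNorm (fun x =>
      u t x - lam t ^ (-(1 / 2) : ℝ) * Q ((x - sig t) / lam t) - z x) 2 volume)
      (𝓝[>] 0) (𝓝 0)

/-! ## The soliton -/

/-- The concentrating soliton `S(t,x) = λ^{-1/2} Q((x-σ)/λ)` on the reference curve. -/
noncomputable def Sol (α t x : ℝ) : ℝ := outr α (fun _ y => Q y) t x

/-! ## The wave packets at `-∞` -/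

/-- A smooth bump: `0 ≤ bmp ≤ 1`, `bmp = 1` on `[-1/2,1/2]`, `bmp = 0` off `[-1,1]`. -/
noncomputable def bmp (y : ℝ) : ℝ := Real.smoothTransition (2 + 2 * y) * Real.smoothTransition (2 - 2 * y)

/-- The `k`-th packet: frequency `2^k`, width `4^{mk}`, centre `-4·4^{Mk}`, amplitude `2^{-k-mk}`
(`1 ≤ m ≤ M`; the supports are pairwise disjoint, contained in `[-5·4^{Mk}, -3·4^{Mk}]`). -/
noncomputable def pk (m M k : ℕ) (t x : ℝ) : ℝ :=
  bmp ((x + 4 * 4 ^ (M * k)) / 4 ^ (m * k)) * Real.cos (2 ^ k * x + 8 ^ k * t) /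
    (2 ^ k * 2 ^ (m * k))

/-- The truncated sum of packets with numbers `k0 ≤ k < k0 + n`. -/
noncomputable def gp (m M k0 n : ℕ) (t x : ℝ) : ℝ := ∑ k ∈ Finset.range n, pk m M (k0 + k) t x

/-- The full sum of packets with numbers `k ≥ k0` (locally finite sum). -/
noncomputable def ginf (m M k0 : ℕ) (t x : ℝ) : ℝ := ∑' k : ℕ, pk m M (k0 + k) t x

/-- The test packets used to show `u(t) ∉ H^1`. -/
noncomputable def tpk (m M k : ℕ) (t x : ℝ) : ℝ :=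
  bmp ((x + 4 * 4 ^ (M * k)) / 4 ^ (m * k)) * Real.sin (2 ^ k * x + 8 ^ k * t) / 2 ^ (m * k)

/-! ## The interface: uniform family of smooth approximations -/

/-- **The interface of part H** (proved by parts A-G).  For given `α`: exponents `κ`, packet
parameters `m, M, k0`, a limit profile `f0 ∈ L^2`, a modulus `ω → 0`, locally bounded constants `C`,
and for each `n` and each small `τ` a smooth solution `u` on `[τ,T]` such that for `t ∈ [τ,T]`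
(1) `‖u(t) - Sol(t) - f0 - gp n (t)‖_2^2 ≤ ω(t)`,
(2) `w = u - gp n` satisfies `∫ w^2 (1+|x|)^κ ≤ C(t)`, `∫ w_x^2 (1+|x|)^{κ-1} ≤ C(t)`. -/
def ApproxFamily (α κ T : ℝ) (m M k0 : ℕ) (f0 ω C : ℝ → ℝ) : Prop :=
  ∀ (n : ℕ) (τ : ℝ), 0 < τ → τ < T → ∃ u : ℝ → ℝ → ℝ, SmoothSol u τ T ∧ ∀ t ∈ Icc τ T,
    (Integrable (fun x => (u t x - Sol α t x - f0 x - gp m M k0 n t x) ^ 2) ∧
      (∫ x, (u t x - Sol α t x - f0 x - gp m M k0 n t x) ^ 2) ≤ ω t) ∧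
    (Integrable (fun x => (u t x - gp m M k0 n t x) ^ 2 * (1 + |x|) ^ κ) ∧
      (∫ x, (u t x - gp m M k0 n t x) ^ 2 * (1 + |x|) ^ κ) ≤ C t) ∧
    (Integrable (fun x => deriv (fun y => u t y - gp m M k0 n t y) x ^ 2 * (1 + |x|) ^ (κ - 1)) ∧
      (∫ x, deriv (fun y => u t y - gp m M k0 n t y) x ^ 2 * (1 + |x|) ^ (κ - 1)) ≤ C t)

/-- What parts A-G have to prove: the approximate family exists for every `α ∈ (0,1)`. -/
def Goal_APPROX : Prop :=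
  ∀ α : ℝ, 0 < α → α < 1 → ∃ (κ T : ℝ) (m M k0 : ℕ) (f0 ω C : ℝ → ℝ), 0 < κ ∧ κ < 1 ∧
    0 < T ∧ 1 ≤ m ∧ m ≤ M ∧ 1 < M * κ ∧ MemLp f0 2 ∧ Tendsto ω (𝓝[>] 0) (𝓝 0) ∧
    AntitoneOn C (Ioc 0 T) ∧ ApproxFamily α κ T m M k0 f0 ω C

/-- The final theorem (positive answer to the question for every rate in `(1/3,3/7)`). -/
def Goal_FINAL : Prop :=
  ∀ ν : ℝ, 1 / 3 < ν → ν < 3 / 7 → ∃ (κ T : ℝ) (u : ℝ → ℝ → ℝ), 0 < κ ∧ κ < 1 ∧ 0 < T ∧
    IsSolution κ T u ∧ (∀ t ∈ Ioc 0 T, ¬ InH1 (u t)) ∧ Concentrates ν T u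

end Pool.Agent.Helper25.KV
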