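import Pool.Agent.Helper25.KV.Fin1

/-!
# Project KV, part H: assembly, second part (the limit in `H^κ`)
-/

namespace Pool.Agent.Helper25.KV

open Real MeasureTheory Set Filter Topology
open scoped ENNReal
open Pool.Agent.Helper41.KV (Q)
open Pool.Agent.Helper33.KV (SmoothSol outr)

/-- The limit `u` of the subsequence `U (ns j)`. -/
structure Lim (T : ℝ) (U : ℕ → ℝ → ℝ → ℝ) (ns : ℕ → ℕ) (u : ℝ → ℝ → ℝ) : Prop where
  hns : ∀ j, j ≤ ns j
  cont : ContinuousOn (fun p : ℝ × ℝ => u p.1 p.2) (Ioc 0 T ×ˢ univ)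
  conv : ∀ t0 : ℝ, 0 < t0 → t0 < T → ∀ R : ℝ, 0 < R → ∀ ε : ℝ, 0 < ε → ∀ᶠ j in atTop,
        ∀ t ∈ Icc t0 T, ∀ x, |x| ≤ R → |U (ns j) t x - u t x| ≤ ε

section
variable {κ T : ℝ} {m M k0 : ℕ} {C : ℝ → ℝ} {U : ℕ → ℝ → ℝ → ℝ} {ns : ℕ → ℕ} {u : ℝ → ℝ → ℝ}

theorem Lim.slice (hL : Lim T U ns u) {t : ℝ} (ht : t ∈ Ioc 0 T) : Continuous (u t) := by
  rw [← continuousOn_univ]
  have h := hL.cont
  have h2 : ContinuousOn (fun x : ℝ => (t, x)) univ := (by fun_prop)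
  exact ContinuousOn.comp (g := fun p : ℝ × ℝ => u p.1 p.2) (f := fun x : ℝ => (t, x)) h h2
    (fun x _ => ⟨ht, mem_univ _⟩)

theorem Lim.tendsto (hL : Lim T U ns u) : Tendsto ns atTop atTop :=
  tendsto_atTop_mono hL.hns tendsto_id

theorem Lim.ev_time (hL : Lim T U ns u) {t0 : ℝ} (ht0 : 0 < t0) :
    ∀ᶠ j : ℕ in atTop, T / ((ns j : ℝ) + 2) ≤ t0 :=
  hL.tendsto.eventually (KV.ev_time (T := T) ht0)

theorem Lim.convW (hL : Lim T U ns u) (h1 : H_GP1) (hm : 1 ≤ m) (hM : m ≤ M) {t0 : ℝ}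
    (ht0 : 0 < t0) (htT : t0 < T) {R : ℝ} (hR : 0 < R) {ε : ℝ} (hε : 0 < ε) :
    ∀ᶠ j in atTop, ∀ t ∈ Icc t0 T, ∀ x, |x| ≤ R →
      |(U (ns j) t x - gp m M k0 (ns j) t x) - (u t x - ginf m M k0 t x)| ≤ ε := by
  obtain ⟨n0, hn0⟩ := (h1.2 m M k0 hm hM).2.2.2.2.2.1 R
  filter_upwards [hL.conv t0 ht0 htT R hR ε hε, eventually_ge_atTop n0] with j hj hjn t ht x hx
  rw [hn0 (ns j) (hjn.trans (hL.hns j)) t x hx]
  have := hj t ht x hx
  refine le_trans (le_of_eq ?_) this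
  congr 1; ring

/-- Tightness: weighted bound for the limit and `L^2` convergence uniformly in time. -/
theorem Lim.tight (hL : Lim T U ns u) (hF : Fam κ T m M k0 C U) (hTi : H_TIGHT) (h1 : H_GP1)
    (hκ : 0 < κ) (hm : 1 ≤ m) (hM : m ≤ M) (hC : AntitoneOn C (Ioc 0 T)) {t0 : ℝ}
    (ht0 : 0 < t0) (htT : t0 < T) :
    (∀ t ∈ Icc t0 T, Integrable (fun x => (u t x - ginf m M k0 t x) ^ 2 * (1 + |x|) ^ κ) ∧
      (∫ x, (u t x - ginf m M k0 t x) ^ 2 * (1 + |x|) ^ κ) ≤ C t0) ∧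
    ∀ ε : ℝ, 0 < ε → ∀ᶠ j in atTop, ∀ t ∈ Icc t0 T,
      Integrable (fun x => ((U (ns j) t x - gp m M k0 (ns j) t x) -
        (u t x - ginf m M k0 t x)) ^ 2) ∧
      (∫ x, ((U (ns j) t x - gp m M k0 (ns j) t x) - (u t x - ginf m M k0 t x)) ^ 2) ≤ ε := by
  refine hTi.1 ℕ atTop (Icc t0 T) κ (C t0)
    (fun j t x => U (ns j) t x - gp m M k0 (ns j) t x) (fun t x => u t x - ginf m M k0 t x)
    inferInstance hκ ?_ ?_ ?_
  · filter_upwards [hL.ev_time ht0] with j hj t ht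
    have htn : t ∈ Icc (T / ((ns j : ℝ) + 2)) T := ⟨hj.trans ht.1, ht.2⟩
    have hb := hF.bd (ns j) t htn
    have hCt : C t ≤ C t0 := hC ⟨ht0, htT.le⟩ ⟨ht0.trans_le ht.1, ht.2⟩ ht.1
    exact ⟨(hF.smoothW h1 hm hM htn).continuous, hb.1.1, hb.1.2.trans hCt⟩
  · intro t ht
    exact (hL.slice ⟨ht0.trans_le ht.1, ht.2⟩).sub ((h1.2 m M k0 hm hM).2.2.2.1 t).continuous
  · intro R hR ε hε
    exact hL.convW h1 hm hM ht0 htT hR hε

/-- Nikolskii bounds for the approximations and the limit. -/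
theorem Lim.nik (hL : Lim T U ns u) (hF : Fam κ T m M k0 C U) (hTi : H_TIGHT) (hN : H_NIK)
    (h1 : H_GP1) (hκ : 0 < κ) (hκ1 : κ < 1) (hm : 1 ≤ m) (hM : m ≤ M)
    (hC : AntitoneOn C (Ioc 0 T)) {t0 : ℝ} (ht0 : 0 < t0) (htT : t0 < T) :
    (∀ᶠ j in atTop, ∀ t ∈ Icc t0 T, ∀ h : ℝ, 0 < h → h ≤ 1 →
      Integrable (fun x => ((U (ns j) t (x + h) - gp m M k0 (ns j) t (x + h)) -
        (U (ns j) t x - gp m M k0 (ns j) t x)) ^ 2) ∧
      (∫ x, ((U (ns j) t (x + h) - gp m M k0 (ns j) t (x + h)) -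
        (U (ns j) t x - gp m M k0 (ns j) t x)) ^ 2) ≤ 7 * C t0 * h ^ (2 * κ)) ∧
    (∀ t ∈ Icc t0 T, ∀ h : ℝ, 0 < h → h ≤ 1 →
      Integrable (fun x => ((u t (x + h) - ginf m M k0 t (x + h)) -
        (u t x - ginf m M k0 t x)) ^ 2) ∧
      (∫ x, ((u t (x + h) - ginf m M k0 t (x + h)) -
        (u t x - ginf m M k0 t x)) ^ 2) ≤ 7 * C t0 * h ^ (2 * κ)) := by
  have key : ∀ᶠ j in atTop, ∀ t ∈ Icc t0 T, ∀ h : ℝ, 0 < h → h ≤ 1 →
      Integrable (fun x => ((U (ns j) t (x + h) - gp m M k0 (ns j) t (x + h)) -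
        (U (ns j) t x - gp m M k0 (ns j) t x)) ^ 2) ∧
      (∫ x, ((U (ns j) t (x + h) - gp m M k0 (ns j) t (x + h)) -
        (U (ns j) t x - gp m M k0 (ns j) t x)) ^ 2) ≤ 7 * C t0 * h ^ (2 * κ) := by
    filter_upwards [hL.ev_time ht0] with j hj t ht h hh hh1
    have htn : t ∈ Icc (T / ((ns j : ℝ) + 2)) T := ⟨hj.trans ht.1, ht.2⟩
    have hb := hF.bd (ns j) t htn
    have hCt : C t ≤ C t0 := hC ⟨ht0, htT.le⟩ ⟨ht0.trans_le ht.1, ht.2⟩ ht.1
    exact hN κ hκ hκ1 (fun y => U (ns j) t y - gp m M k0 (ns j) t y) (C t0)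
      ((hF.smoothW h1 hm hM htn).of_le (by exact_mod_cast le_top)) hb.1.1 (hb.1.2.trans hCt) hb.2.1
      (hb.2.2.trans hCt) h hh hh1
  refine ⟨key, ?_⟩
  intro t ht h hh hh1
  refine hTi.2 (7 * C t0 * h ^ (2 * κ))
    (fun j x => (U (ns j) t (x + h) - gp m M k0 (ns j) t (x + h)) -
        (U (ns j) t x - gp m M k0 (ns j) t x))
    (fun x => (u t (x + h) - ginf m M k0 t (x + h)) - (u t x - ginf m M k0 t x)) ?_ ?_
  · filter_upwards [key, hL.ev_time ht0] with j hj hj2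
    have htn : t ∈ Icc (T / ((ns j : ℝ) + 2)) T := ⟨hj2.trans ht.1, ht.2⟩
    have hcont : Continuous (fun y => U (ns j) t y - gp m M k0 (ns j) t y) :=
      (hF.smoothW h1 hm hM htn).continuous
    refine ⟨?_, hj t ht h hh hh1⟩
    exact ((hcont.comp (continuous_add_const h)).sub hcont).aestronglyMeasurable
  · intro x
    have hpt : ∀ y : ℝ, Tendsto (fun j => U (ns j) t y - gp m M k0 (ns j) t y) atTop
        (𝓝 (u t y - ginf m M k0 t y)) := by
      intro y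
      rw [Metric.tendsto_nhds]
      intro ε hε
      filter_upwards [hL.convW (k0 := k0) h1 hm hM ht0 htT (R := |y| + 1) (by positivity)
        (half_pos hε)] with j hj
      rw [Real.dist_eq]
      exact (hj t ht y (by linarith)).trans_lt (by linarith)
    exact (hpt (x + h)).sub (hpt x)

/-- `L^2` and Nikolskii bounds of `U (ns j) - u`. -/
theorem Lim.diff (hL : Lim T U ns u) (hF : Fam κ T m M k0 C U) (hTi : H_TIGHT) (hN : H_NIK)
    (h1 : H_GP1) (h2 : H_GP2) (hκ : 0 < κ) (hκ1 : κ < 1) (hm : 1 ≤ m) (hM : m ≤ M)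
    (hC : AntitoneOn C (Ioc 0 T)) {t0 : ℝ} (ht0 : 0 < t0) (htT : t0 < T) :
    ∃ B : ℝ, 0 < B ∧ ∀ ε : ℝ, 0 < ε → ∀ᶠ j in atTop, ∀ t ∈ Icc t0 T,
      Continuous (fun x => U (ns j) t x - u t x) ∧
      Integrable (fun x => (U (ns j) t x - u t x) ^ 2) ∧ (∫ x, (U (ns j) t x - u t x) ^ 2) ≤ ε ∧
      ∀ h : ℝ, 0 < h → h ≤ 1 →
        Integrable (fun x => ((U (ns j) t (x + h) - u t (x + h)) - (U (ns j) t x - u t x)) ^ 2) ∧
        (∫ x, ((U (ns j) t (x + h) - u t (x + h)) - (U (ns j) t x - u t x)) ^ 2) ≤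
          B * h ^ (2 * κ) := by
  obtain ⟨G, hG, hg1, hg2, hg3, hg4, hg5, -⟩ := h2 m M k0 κ hm hM hκ hκ1
  obtain ⟨hti1, hti2⟩ := hL.tight hF hTi h1 hκ hm hM hC ht0 htT
  obtain ⟨hn1, hn2⟩ := hL.nik hF hTi hN h1 hκ hκ1 hm hM hC ht0 htT
  refine ⟨8 * G + 56 * |C t0| + 1, by positivity, ?_⟩
  intro ε hε
  have hgeo : ∀ᶠ j : ℕ in atTop, G * (1 / 4) ^ (ns j) ≤ ε / 4 := by
    have : Tendsto (fun n : ℕ => G * (1 / 4 : ℝ) ^ n) atTop (𝓝 (G * 0)) :=
      (tendsto_pow_atTop_nhds_zero_of_lt_one (by norm_num) (by norm_num)).const_mul G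
    rw [mul_zero] at this
    exact hL.tendsto.eventually (this.eventually (eventually_le_nhds (by positivity)))
  filter_upwards [hn1, hti2 (ε / 4) (by positivity), hgeo, hL.ev_time ht0] with j hj1 hj2 hj3 hj4
    t ht
  have htn : t ∈ Icc (T / ((ns j : ℝ) + 2)) T := ⟨hj4.trans ht.1, ht.2⟩
  have htI : t ∈ Ioc 0 T := ⟨ht0.trans_le ht.1, ht.2⟩
  have hcW : Continuous (fun y => U (ns j) t y - gp m M k0 (ns j) t y) :=
    (hF.smoothW h1 hm hM htn).continuous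
  have hcg : Continuous (fun y => gp m M k0 (ns j) t y) := (gp_smooth h1 hm hM _ t).continuous
  have hcgi : Continuous (fun y => ginf m M k0 t y) := ((h1.2 m M k0 hm hM).2.2.2.1 t).continuous
  have hcu : Continuous (u t) := hL.slice htI
  have hcU : Continuous (U (ns j) t) := (hF.smooth htn).continuous
  have hcw : Continuous (fun y => u t y - ginf m M k0 t y) := hcu.sub hcgi
  refine ⟨hcU.sub hcu, ?_⟩
  have hA := int_add_sq (f := fun x => (U (ns j) t x - gp m M k0 (ns j) t x) -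
        (u t x - ginf m M k0 t x)) (g := fun x => gp m M k0 (ns j) t x - ginf m M k0 t x)
    (hcW.sub hcw).aestronglyMeasurable (hcg.sub hcgi).aestronglyMeasurable
    (hj2 t ht).1 (hg5 (ns j) t).1
  have hAeq : (fun x => (U (ns j) t x - u t x) ^ 2) = fun x =>
      (((U (ns j) t x - gp m M k0 (ns j) t x) - (u t x - ginf m M k0 t x)) +
        (gp m M k0 (ns j) t x - ginf m M k0 t x)) ^ 2 := by
    funext x; ring
  refine ⟨by rw [hAeq]; exact hA.1, ?_, ?_⟩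
  · rw [hAeq]
    refine hA.2.trans ?_
    have := (hj2 t ht).2
    have := (hg5 (ns j) t).2
    linarith
  · intro h hh hh1
    have b1 := hj1 t ht h hh hh1
    have b2 := hn2 t ht h hh hh1
    have b3 := hg3 (ns j) t h hh hh1
    have b4 := hg4 t h hh hh1
    have tr : Continuous (fun x : ℝ => x + h) := continuous_add_const h
    have c1 : Continuous (fun x => (U (ns j) t (x + h) - gp m M k0 (ns j) t (x + h)) -
        (U (ns j) t x - gp m M k0 (ns j) t x)) := (hcW.comp tr).sub hcW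
    have c2 : Continuous (fun x => (u t (x + h) - ginf m M k0 t (x + h)) -
        (u t x - ginf m M k0 t x)) := (hcw.comp tr).sub hcw
    have c3 : Continuous (fun x => gp m M k0 (ns j) t (x + h) - gp m M k0 (ns j) t x) :=
      (hcg.comp tr).sub hcg
    have c4 : Continuous (fun x => ginf m M k0 t (x + h) - ginf m M k0 t x) :=
      (hcgi.comp tr).sub hcgi
    have s3 := int_four c1 c2 c3 c4 b1.1 b2.1 b3.1 b4.1
    have heq : (fun x => ((U (ns j) t (x + h) - u t (x + h)) - (U (ns j) t x - u t x)) ^ 2) =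
        fun x => (((U (ns j) t (x + h) - gp m M k0 (ns j) t (x + h)) -
        (U (ns j) t x - gp m M k0 (ns j) t x)) - ((u t (x + h) - ginf m M k0 t (x + h)) -
        (u t x - ginf m M k0 t x)) + ((gp m M k0 (ns j) t (x + h) - gp m M k0 (ns j) t x) -
        (ginf m M k0 t (x + h) - ginf m M k0 t x))) ^ 2 := by
      funext x; ring
    refine ⟨by rw [heq]; exact s3.1, ?_⟩
    rw [heq]
    refine s3.2.trans ?_
    have hp : 0 ≤ h ^ (2 * κ) := by positivity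
    have hCa : C t0 ≤ |C t0| := le_abs_self _
    have k1 := b1.2
    have k2 := b2.2
    have k3 := b3.2
    have k4 := b4.2
    have k5 : C t0 * h ^ (2 * κ) ≤ |C t0| * h ^ (2 * κ) := mul_le_mul_of_nonneg_right hCa hp
    have k6 : 0 ≤ G * h ^ (2 * κ) := by positivity
    nlinarith

end

end Pool.Agent.Helper25.KV
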