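import Pool.Agent.Helper25.KV.Fin2

/-!
# Project KV, part H: assembly, third part (convergence and continuity in `H^κ`)
-/

namespace Pool.Agent.Helper25.KV

open Real MeasureTheory Set Filter Topology
open scoped ENNReal
open Pool.Agent.Helper41.KV (Q)
open Pool.Agent.Helper33.KV (SmoothSol outr)

theorem hs_small (hH : H_HS) {κ' κ B : ℝ} (h0 : 0 < κ') (h01 : κ' < κ) (h1 : κ < 1)
    {ε : ℝ≥0∞} (hε : 0 < ε) :
    ∃ a : ℝ, 0 < a ∧ ∀ f : ℝ → ℝ, Continuous f → Integrable (fun x => f x ^ 2) →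
      (∫ x, f x ^ 2) ≤ a →
      (∀ h : ℝ, 0 < h → h ≤ 1 → Integrable (fun x => (f (x + h) - f x) ^ 2) ∧
        (∫ x, (f (x + h) - f x) ^ 2) ≤ B * h ^ (2 * κ)) → hs κ' f ≤ ε := by
  obtain ⟨e, he, hee⟩ : ∃ e : ℝ, 0 < e ∧ ENNReal.ofReal e ≤ ε := by
    by_cases htop : ε = ⊤
    · exact ⟨1, one_pos, by rw [htop]; exact le_top⟩
    · exact ⟨ε.toReal, ENNReal.toReal_pos hε.ne' htop, by rw [ENNReal.ofReal_toReal htop]⟩
  have hp : 0 < 2 * (κ - κ') := by linarith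
  have hlim : Tendsto (fun δ : ℝ => B * δ ^ (2 * (κ - κ')) / (κ - κ')) (𝓝[>] 0) (𝓝 0) := by
    have h2 : Tendsto (fun δ : ℝ => δ ^ (2 * (κ - κ'))) (𝓝[>] 0) (𝓝 0) := by
      have h3 := (Real.continuousAt_rpow_const 0 (2 * (κ - κ')) (Or.inr hp.le)).tendsto
      rw [Real.zero_rpow hp.ne'] at h3
      exact h3.mono_left nhdsWithin_le_nhds
    have h4 := (h2.const_mul B).div_const (κ - κ')
    simpa using h4
  have hev1 : ∀ᶠ δ : ℝ in 𝓝[>] 0, B * δ ^ (2 * (κ - κ')) / (κ - κ') ≤ e / 2 :=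
    hlim.eventually (eventually_le_nhds (by positivity))
  have hev2 : ∀ᶠ δ : ℝ in 𝓝[>] (0 : ℝ), δ ≤ 1 :=
    nhdsWithin_le_nhds (eventually_le_nhds one_pos)
  have hev3 : ∀ᶠ δ : ℝ in 𝓝[>] (0 : ℝ), 0 < δ := eventually_mem_nhdsWithin
  obtain ⟨δ, hδ1, hδ2, hδ3⟩ := (hev1.and (hev2.and hev3)).exists
  have hc : 0 < 1 + 4 * δ ^ (-(2 * κ')) / κ' := by positivity
  refine ⟨(e / 2) / (1 + 4 * δ ^ (-(2 * κ')) / κ'), by positivity, ?_⟩
  intro f hf hf2 hfa hN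
  refine (hH κ' κ h0 h01 h1 f _ B hf hf2 hfa hN δ hδ3 hδ2).trans (le_trans ?_ hee)
  apply ENNReal.ofReal_le_ofReal
  have hkey : (e / 2) / (1 + 4 * δ ^ (-(2 * κ')) / κ') +
      4 * ((e / 2) / (1 + 4 * δ ^ (-(2 * κ')) / κ')) * δ ^ (-(2 * κ')) / κ' = e / 2 := by
    have hk : κ' ≠ 0 := h0.ne'
    have : (e / 2) / (1 + 4 * δ ^ (-(2 * κ')) / κ') +
      4 * ((e / 2) / (1 + 4 * δ ^ (-(2 * κ')) / κ')) * δ ^ (-(2 * κ')) / κ' =
      (e / 2) / (1 + 4 * δ ^ (-(2 * κ')) / κ') * (1 + 4 * δ ^ (-(2 * κ')) / κ') := by ring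
    rw [this, div_mul_cancel₀ _ hc.ne']
  linarith

section
variable {κ T : ℝ} {m M k0 : ℕ} {C : ℝ → ℝ} {U : ℕ → ℝ → ℝ → ℝ} {ns : ℕ → ℕ} {u : ℝ → ℝ → ℝ}

/-- Convergence in `C([t0,T]; H^{κ'})`. -/
theorem Lim.hsconv (hL : Lim T U ns u) (hF : Fam κ T m M k0 C U) (hTi : H_TIGHT) (hN : H_NIK)
    (hH : H_HS) (h1 : H_GP1) (h2 : H_GP2) (hκ : 0 < κ) (hκ1 : κ < 1) (hm : 1 ≤ m) (hM : m ≤ M)
    (hC : AntitoneOn C (Ioc 0 T)) {κ' : ℝ} (hk : 0 < κ') (hk2 : κ' < κ) {t0 : ℝ} (ht0 : 0 < t0)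
    (htT : t0 < T) :
    Tendsto (fun j => ⨆ t ∈ Icc t0 T, hs κ' (fun x => U (ns j) t x - u t x)) atTop (𝓝 0) := by
  obtain ⟨B, hB, hd⟩ := hL.diff hF hTi hN h1 h2 hκ hκ1 hm hM hC ht0 htT
  rw [ENNReal.tendsto_nhds_zero]
  intro ε hε
  obtain ⟨a, ha, hsm⟩ := hs_small (B := B) hH hk hk2 hκ1 hε
  filter_upwards [hd a ha] with j hj
  refine iSup₂_le fun t ht => ?_
  obtain ⟨c1, c2, c3, c4⟩ := hj t ht
  exact hsm _ c1 c2 c3 c4

/-- `L^2` and Nikolskii bounds of the limit. -/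
theorem Lim.bdu (hL : Lim T U ns u) (hF : Fam κ T m M k0 C U) (hTi : H_TIGHT) (hN : H_NIK)
    (h1 : H_GP1) (h2 : H_GP2) (hκ : 0 < κ) (hκ1 : κ < 1) (hm : 1 ≤ m) (hM : m ≤ M)
    (hC : AntitoneOn C (Ioc 0 T)) {t0 : ℝ} (ht0 : 0 < t0) (htT : t0 < T) :
    ∃ B : ℝ, 0 < B ∧ ∀ t ∈ Icc t0 T, Continuous (u t) ∧ Integrable (fun x => u t x ^ 2) ∧
      (∫ x, u t x ^ 2) ≤ B ∧
      ∀ h : ℝ, 0 < h → h ≤ 1 →
        Integrable (fun x => (u t (x + h) - u t x) ^ 2) ∧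
        (∫ x, (u t (x + h) - u t x) ^ 2) ≤ B * h ^ (2 * κ) := by
  obtain ⟨G, hG, hg1, hg2, hg3, hg4, hg5, -⟩ := h2 m M k0 κ hm hM hκ hκ1
  obtain ⟨hti1, -⟩ := hL.tight hF hTi h1 hκ hm hM hC ht0 htT
  obtain ⟨-, hn2⟩ := hL.nik hF hTi hN h1 hκ hκ1 hm hM hC ht0 htT
  refine ⟨2 * G + 14 * |C t0| + 1, by positivity, ?_⟩
  intro t ht
  have htI : t ∈ Ioc 0 T := ⟨ht0.trans_le ht.1, ht.2⟩
  have hcu : Continuous (u t) := hL.slice htI
  have hcgi : Continuous (fun y => ginf m M k0 t y) := ((h1.2 m M k0 hm hM).2.2.2.1 t).continuous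
  have hcw : Continuous (fun y => u t y - ginf m M k0 t y) := hcu.sub hcgi
  have hCa : C t0 ≤ |C t0| := le_abs_self _
  have hw2 : Integrable (fun x => (u t x - ginf m M k0 t x) ^ 2) ∧
      (∫ x, (u t x - ginf m M k0 t x) ^ 2) ≤ C t0 := by
    have hle : ∀ x, (u t x - ginf m M k0 t x) ^ 2 ≤
        (u t x - ginf m M k0 t x) ^ 2 * (1 + |x|) ^ κ := by
      intro x
      have : 1 ≤ (1 + |x|) ^ κ := Real.one_le_rpow (by linarith [abs_nonneg x]) hκ.le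
      exact le_mul_of_one_le_right (sq_nonneg _) this
    have hi : Integrable (fun x => (u t x - ginf m M k0 t x) ^ 2) := by
      refine (hti1 t ht).1.mono' (hcw.pow 2).aestronglyMeasurable (Eventually.of_forall fun x => ?_)
      rw [Real.norm_eq_abs, abs_of_nonneg (sq_nonneg _)]
      exact hle x
    exact ⟨hi, (integral_mono hi (hti1 t ht).1 hle).trans (hti1 t ht).2⟩
  have hs1 := int_add_sq hcw.aestronglyMeasurable hcgi.aestronglyMeasurable hw2.1 (hg2 t).1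
  have heq : (fun x => u t x ^ 2) = fun x =>
      ((u t x - ginf m M k0 t x) + ginf m M k0 t x) ^ 2 := by funext x; ring
  refine ⟨hcu, by rw [heq]; exact hs1.1, ?_, ?_⟩
  · rw [heq]
    refine hs1.2.trans ?_
    have := (hg2 t).2
    have := abs_nonneg (C t0)
    linarith [hw2.2]
  · intro h hh hh1
    have b2 := hn2 t ht h hh hh1
    have b4 := hg4 t h hh hh1
    have tr : Continuous (fun x : ℝ => x + h) := continuous_add_const h
    have c2 : Continuous (fun x => (u t (x + h) - ginf m M k0 t (x + h)) -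
        (u t x - ginf m M k0 t x)) := (hcw.comp tr).sub hcw
    have c4 : Continuous (fun x => ginf m M k0 t (x + h) - ginf m M k0 t x) :=
      (hcgi.comp tr).sub hcgi
    have s := int_add_sq c2.aestronglyMeasurable c4.aestronglyMeasurable b2.1 b4.1
    have heq2 : (fun x => (u t (x + h) - u t x) ^ 2) = fun x =>
        (((u t (x + h) - ginf m M k0 t (x + h)) - (u t x - ginf m M k0 t x)) +
          (ginf m M k0 t (x + h) - ginf m M k0 t x)) ^ 2 := by funext x; ring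
    refine ⟨by rw [heq2]; exact s.1, ?_⟩
    rw [heq2]
    refine s.2.trans ?_
    have hp : 0 ≤ h ^ (2 * κ) := by positivity
    have k2 := b2.2
    have k4 := b4.2
    have k5 : C t0 * h ^ (2 * κ) ≤ |C t0| * h ^ (2 * κ) := mul_le_mul_of_nonneg_right hCa hp
    nlinarith

theorem Lim.mem (hL : Lim T U ns u) (hF : Fam κ T m M k0 C U) (hTi : H_TIGHT) (hN : H_NIK)
    (hH : H_HS) (h1 : H_GP1) (h2 : H_GP2) (hκ : 0 < κ) (hκ1 : κ < 1) (hm : 1 ≤ m) (hM : m ≤ M)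
    (hC : AntitoneOn C (Ioc 0 T)) {κ' : ℝ} (hk : 0 < κ') (hk2 : κ' < κ) {t : ℝ}
    (ht : t ∈ Ioc 0 T) : InHs κ' (u t) := by
  have ht2 : 0 < t / 2 := by have := ht.1; linarith
  have ht3 : t / 2 < T := by have := ht.1; have := ht.2; linarith
  obtain ⟨B, hB, hb⟩ := hL.bdu hF hTi hN h1 h2 hκ hκ1 hm hM hC ht2 ht3
  obtain ⟨b1, b2, b3, b4⟩ := hb t ⟨by have := ht.1; linarith, ht.2⟩
  refine ⟨b1.aestronglyMeasurable, ?_⟩
  refine (hH κ' κ hk hk2 hκ1 (u t) B B b1 b2 b3 b4 1 one_pos le_rfl).trans_lt ENNReal.ofReal_lt_top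

theorem Lim.contHs (hL : Lim T U ns u) (hF : Fam κ T m M k0 C U) (hTi : H_TIGHT) (hN : H_NIK)
    (hH : H_HS) (h1 : H_GP1) (h2 : H_GP2) (hκ : 0 < κ) (hκ1 : κ < 1) (hm : 1 ≤ m) (hM : m ≤ M)
    (hC : AntitoneOn C (Ioc 0 T)) {κ' : ℝ} (hk : 0 < κ') (hk2 : κ' < κ) {t : ℝ}
    (ht : t ∈ Ioc 0 T) :
    Tendsto (fun s => hs κ' (fun x => u s x - u t x)) (𝓝[Ioc 0 T] t) (𝓝 0) := by
  have ht2 : 0 < t / 2 := by have := ht.1; linarith
  have ht3 : t / 2 < T := by have := ht.1; have := ht.2; linarith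
  have hne : (𝓝[Ioc 0 T] t).NeBot := mem_closure_iff_nhdsWithin_neBot.1 (subset_closure ht)
  have hnear : ∀ᶠ s in 𝓝[Ioc 0 T] t, s ∈ Icc (t / 2) T := by
    have h3 : ∀ᶠ s in 𝓝[Ioc 0 T] t, t / 2 < s :=
      nhdsWithin_le_nhds (eventually_gt_nhds (by have := ht.1; linarith))
    filter_upwards [h3, self_mem_nhdsWithin] with s hs1 hs2
    exact ⟨hs1.le, hs2.2⟩
  have htI : t ∈ Icc (t / 2) T := ⟨by have := ht.1; linarith, ht.2⟩
  obtain ⟨B, hB, hb⟩ := hL.bdu hF hTi hN h1 h2 hκ hκ1 hm hM hC ht2 ht3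
  obtain ⟨hti1, -⟩ := hL.tight hF hTi h1 hκ hm hM hC ht2 ht3
  obtain ⟨G, hG, hg1, hg2, hg3, hg4, hg5, hg6⟩ := h2 m M k0 κ hm hM hκ hκ1
  have hcgi2 : Continuous (fun p : ℝ × ℝ => ginf m M k0 p.1 p.2) :=
    (h1.2 m M k0 hm hM).2.2.2.2.1
  have hloc : ∀ R : ℝ, 0 < R → ∀ ε : ℝ, 0 < ε → ∀ᶠ s in 𝓝[Ioc 0 T] t, ∀ r ∈ ({t} : Set ℝ),
      ∀ x, |x| ≤ R →
      |(u s x - ginf m M k0 s x) - (u t x - ginf m M k0 t x)| ≤ ε := by
    intro R hR ε hε
    have hK : IsCompact (Icc (t / 2) T ×ˢ Icc (-R) R) := isCompact_Icc.prod isCompact_Icc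
    have hcont : ContinuousOn (fun p : ℝ × ℝ => u p.1 p.2 - ginf m M k0 p.1 p.2)
        (Icc (t / 2) T ×ˢ Icc (-R) R) := by
      refine (hL.cont.mono ?_).sub hcgi2.continuousOn
      rintro ⟨a, b⟩ ⟨ha, -⟩
      exact ⟨⟨ht2.trans_le ha.1, ha.2⟩, mem_univ _⟩
    have hunif := hK.uniformContinuousOn_of_continuous hcont
    rw [Metric.uniformContinuousOn_iff] at hunif
    obtain ⟨δ, hδ, hu⟩ := hunif ε hε
    have hd : ∀ᶠ s in 𝓝[Ioc 0 T] t, dist s t < δ :=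
      nhdsWithin_le_nhds (Metric.ball_mem_nhds t hδ)
    filter_upwards [hd, hnear] with s hs1 hs2 r _ x hx
    have hxI : x ∈ Icc (-R) R := abs_le.1 hx
    have := hu (s, x) ⟨hs2, hxI⟩ (t, x) ⟨htI, hxI⟩ (by
      rw [Prod.dist_eq, dist_self, max_eq_left dist_nonneg]; exact hs1)
    rw [Real.dist_eq] at this
    exact this.le
  have hTt := (hTi.1 ℝ (𝓝[Ioc 0 T] t) {t} κ (C (t / 2))
    (fun s _ x => u s x - ginf m M k0 s x) (fun _ x => u t x - ginf m M k0 t x) hne hκ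
    (by
      filter_upwards [hnear] with s hs r _
      exact ⟨(hL.slice ⟨ht2.trans_le hs.1, hs.2⟩).sub
        ((h1.2 m M k0 hm hM).2.2.2.1 s).continuous, hti1 s hs⟩)
    (by
      intro r _
      exact (hL.slice ht).sub ((h1.2 m M k0 hm hM).2.2.2.1 t).continuous) hloc).2
  rw [ENNReal.tendsto_nhds_zero]
  intro ε hε
  obtain ⟨a, ha, hsm⟩ := hs_small hH hk hk2 hκ1 (B := 4 * B) hε
  have hgt : ∀ᶠ s in 𝓝[Ioc 0 T] t, G * |s - t| ^ ((1 : ℝ) / 3) ≤ a / 4 := by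
    have hc : ContinuousAt (fun s : ℝ => G * |s - t| ^ ((1 : ℝ) / 3)) t := by
      apply ContinuousAt.mul continuousAt_const
      apply ContinuousAt.rpow_const
      · fun_prop
      · exact Or.inr (by norm_num)
    have hval : G * |t - t| ^ ((1 : ℝ) / 3) = 0 := by
      rw [sub_self, abs_zero, Real.zero_rpow (by norm_num), mul_zero]
    have h5 := hc.tendsto
    rw [hval] at h5
    exact nhdsWithin_le_nhds (h5.eventually (eventually_le_nhds (by positivity)))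
  filter_upwards [hnear, hgt, hTt (a / 4) (by positivity)] with s hs hs2 hs3
  have hs4 := hs3 t rfl
  obtain ⟨bs1, bs2, bs3, bs4⟩ := hb s hs
  obtain ⟨bt1, bt2, bt3, bt4⟩ := hb t htI
  have hcgs : Continuous (fun y => ginf m M k0 s y) := ((h1.2 m M k0 hm hM).2.2.2.1 s).continuous
  have hcgt : Continuous (fun y => ginf m M k0 t y) := ((h1.2 m M k0 hm hM).2.2.2.1 t).continuous
  have g6 := hg6 s t
  have hA := int_add_sq (f := fun x => (u s x - ginf m M k0 s x) - (u t x - ginf m M k0 t x))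
    (g := fun x => ginf m M k0 s x - ginf m M k0 t x)
    ((bs1.sub hcgs).sub (bt1.sub hcgt)).aestronglyMeasurable
    (hcgs.sub hcgt).aestronglyMeasurable hs4.1 g6.1
  have hAeq : (fun x => (u s x - u t x) ^ 2) = fun x =>
      (((u s x - ginf m M k0 s x) - (u t x - ginf m M k0 t x)) +
        (ginf m M k0 s x - ginf m M k0 t x)) ^ 2 := by
    funext x; ring
  refine hsm (fun x => u s x - u t x) (bs1.sub bt1) (by rw [hAeq]; exact hA.1) ?_ ?_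
  · rw [hAeq]
    refine hA.2.trans ?_
    linarith [hs4.2, g6.2]
  · intro h hh hh1
    have tr : Continuous (fun x : ℝ => x + h) := continuous_add_const h
    have c1 : Continuous (fun x => u s (x + h) - u s x) := (bs1.comp tr).sub bs1
    have c2 : Continuous (fun x => u t (x + h) - u t x) := (bt1.comp tr).sub bt1
    have s1 := int_sub_sq c1.aestronglyMeasurable c2.aestronglyMeasurable (bs4 h hh hh1).1
      (bt4 h hh hh1).1
    have heq : (fun x => (u s (x + h) - u t (x + h) - (u s x - u t x)) ^ 2) = fun x =>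
      ((u s (x + h) - u s x) - (u t (x + h) - u t x)) ^ 2 := by funext x; ring
    refine ⟨by rw [heq]; exact s1.1, ?_⟩
    rw [heq]
    refine s1.2.trans ?_
    have k1 := (bs4 h hh hh1).2
    have k2 := (bt4 h hh hh1).2
    linarith

end

end Pool.Agent.Helper25.KV
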