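import Pool.Agent.Helper25.KV.Fin3

/-!
# Project KV, part H: assembly, fourth part (the weak equation, concentration, final statement)
-/

namespace Pool.Agent.Helper25.KV

open Real MeasureTheory Set Filter Topology
open scoped ENNReal
open Pool.Agent.Helper41.KV (Q)
open Pool.Agent.Helper33.KV (SmoothSol outr)

theorem exists_radius {f : ℝ → ℝ} (hf : HasCompactSupport f) :
    ∃ R : ℝ, 0 < R ∧ ∀ x, R < |x| → f x = 0 := by
  obtain ⟨R, hR⟩ := hf.isCompact.isBounded.subset_closedBall (0 : ℝ)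
  refine ⟨max R 1, lt_max_of_lt_right one_pos, fun x hx => ?_⟩
  by_contra hne
  have hx2 : x ∈ tsupport f := subset_tsupport f hne
  have := hR hx2
  rw [Metric.mem_closedBall, Real.dist_eq, sub_zero] at this
  have := le_max_left R 1
  linarith

theorem hcs_three {θ : ℝ → ℝ} (h : HasCompactSupport θ) : HasCompactSupport (iteratedDeriv 3 θ) := by
  have : iteratedDeriv 3 θ = deriv (deriv (deriv θ)) := by
    rw [iteratedDeriv_succ, iteratedDeriv_succ, iteratedDeriv_succ, iteratedDeriv_zero]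
  rw [this]
  exact h.deriv.deriv.deriv

/-- Passing to the limit in the weak formulation. -/
theorem weak_lim {T t0 : ℝ} (v : ℕ → ℝ → ℝ → ℝ) (u : ℝ → ℝ → ℝ)
    (hv : ∀ᶠ j in atTop, ContinuousOn (fun p : ℝ × ℝ => v j p.1 p.2) (Icc t0 T ×ˢ univ))
    (hu : ContinuousOn (fun p : ℝ × ℝ => u p.1 p.2) (Icc t0 T ×ˢ univ))
    (hconv : ∀ R : ℝ, 0 < R → ∀ ε : ℝ, 0 < ε → ∀ᶠ j in atTop,
        ∀ t ∈ Icc t0 T, ∀ x, |x| ≤ R → |v j t x - u t x| ≤ ε)
    (θ η1 η3 : ℝ → ℝ) (hθ : Continuous θ) (hθs : HasCompactSupport θ)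
    (h1 : Continuous η1) (h1s : HasCompactSupport η1)
    (h3 : Continuous η3) (h3s : HasCompactSupport η3)
    (heq : ∀ᶠ j in atTop, ∀ s ∈ Icc t0 T, ∀ t ∈ Icc t0 T,
      (∫ x, v j t x * θ x) - (∫ x, v j s x * θ x) =
        ∫ r in s..t, ∫ x, (v j r x * η3 x + v j r x ^ 5 * η1 x)) :
    ∀ s ∈ Icc t0 T, ∀ t ∈ Icc t0 T,
      (∫ x, u t x * θ x) - (∫ x, u s x * θ x) =
        ∫ r in s..t, ∫ x, (u r x * η3 x + u r x ^ 5 * η1 x) := by
  intro s hs t ht
  obtain ⟨R0, hR0, hR0'⟩ := exists_radius hθs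
  obtain ⟨R1, hR1, hR1'⟩ := exists_radius h1s
  obtain ⟨R3, hR3, hR3'⟩ := exists_radius h3s
  set R := R0 + R1 + R3 with hR
  have hRpos : 0 < R := by positivity
  have z0 : ∀ x, R < |x| → θ x = 0 := fun x hx => hR0' x (by linarith)
  have z1 : ∀ x, R < |x| → η1 x = 0 := fun x hx => hR1' x (by linarith)
  have z3 : ∀ x, R < |x| → η3 x = 0 := fun x hx => hR3' x (by linarith)
  -- pointwise convergence
  have hpt : ∀ r ∈ Icc t0 T, ∀ x, Tendsto (fun j => v j r x) atTop (𝓝 (u r x)) := by
    intro r hr x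
    rw [Metric.tendsto_nhds]
    intro ε hε
    filter_upwards [hconv (|x| + 1) (by positivity) (ε / 2) (by positivity)] with j hj
    rw [Real.dist_eq]
    exact (hj r hr x (by linarith)).trans_lt (by linarith)
  -- local bound
  have hK : IsCompact (Icc t0 T ×ˢ Icc (-R) R) := isCompact_Icc.prod isCompact_Icc
  obtain ⟨A, hA⟩ : ∃ A : ℝ, ∀ r ∈ Icc t0 T, ∀ x, |x| ≤ R → |u r x| ≤ A := by
    obtain ⟨A, hA⟩ := hK.exists_bound_of_continuousOn
      (hu.mono (prod_mono subset_rfl (subset_univ _)))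
    exact ⟨A, fun r hr x hx => hA (r, x) ⟨hr, abs_le.1 hx⟩⟩
  have hA0 : 0 ≤ A := (abs_nonneg _).trans (hA s hs 0 (by simpa using hRpos.le))
  have hbd : ∀ᶠ j in atTop, ∀ r ∈ Icc t0 T, ∀ x, |x| ≤ R → |v j r x| ≤ A + 1 := by
    filter_upwards [hconv R hRpos 1 one_pos] with j hj r hr x hx
    have e1 := hj r hr x hx
    have e2 := hA r hr x hx
    have e3 : |v j r x| ≤ |v j r x - u r x| + |u r x| := by
      have := abs_add_le (v j r x - u r x) (u r x)
      simpa using this
    linarith
  have hslice : ∀ᶠ j in atTop, ∀ r ∈ Icc t0 T, Continuous (v j r) := by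
    filter_upwards [hv] with j hj r hr
    rw [← continuousOn_univ]
    exact ContinuousOn.comp (g := fun p : ℝ × ℝ => v j p.1 p.2) (f := fun x : ℝ => (r, x)) hj
      (by fun_prop) (fun x _ => ⟨hr, mem_univ _⟩)
  -- left-hand side
  have hleft : ∀ r ∈ Icc t0 T, Tendsto (fun j => ∫ x, v j r x * θ x) atTop (𝓝 (∫ x, u r x * θ x)) := by
    intro r hr
    refine tendsto_integral_filter_of_dominated_convergence (fun x => (A + 1) * |θ x|) ?_ ?_ ?_ ?_
    · filter_upwards [hslice] with j hj
      exact ((hj r hr).mul hθ).aestronglyMeasurable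
    · filter_upwards [hbd] with j hj
      refine Eventually.of_forall fun x => ?_
      rw [Real.norm_eq_abs, abs_mul]
      by_cases hx : |x| ≤ R
      · exact mul_le_mul_of_nonneg_right (hj r hr x hx) (abs_nonneg _)
      · rw [z0 x (not_le.1 hx)]; simp
    · exact ((hθ.abs.integrable_of_hasCompactSupport hθs.abs).const_mul _)
    · exact Eventually.of_forall fun x => (hpt r hr x).mul_const _
  have hleft2 := (hleft t ht).sub (hleft s hs)
  -- right-hand side
  have hinner : ∀ r ∈ Icc t0 T, Tendsto (fun j => ∫ x, (v j r x * η3 x + v j r x ^ 5 * η1 x)) atTop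
      (𝓝 (∫ x, (u r x * η3 x + u r x ^ 5 * η1 x))) := by
    intro r hr
    refine tendsto_integral_filter_of_dominated_convergence
      (fun x => (A + 1) * |η3 x| + (A + 1) ^ 5 * |η1 x|) ?_ ?_ ?_ ?_
    · filter_upwards [hslice] with j hj
      exact (((hj r hr).mul h3).add (((hj r hr).pow 5).mul h1)).aestronglyMeasurable
    · filter_upwards [hbd] with j hj
      refine Eventually.of_forall fun x => ?_
      rw [Real.norm_eq_abs]
      by_cases hx : |x| ≤ R
      · have hb := hj r hr x hx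
        refine (abs_add_le _ _).trans ?_
        rw [abs_mul, abs_mul, abs_pow]
        gcongr
      · rw [z1 x (not_le.1 hx), z3 x (not_le.1 hx)]; simp
    · exact ((h3.abs.integrable_of_hasCompactSupport h3s.abs).const_mul _).add
        ((h1.abs.integrable_of_hasCompactSupport h1s.abs).const_mul _)
    · exact Eventually.of_forall fun x =>
        ((hpt r hr x).mul_const _).add (((hpt r hr x).pow 5).mul_const _)
  have hsub : Set.uIoc s t ⊆ Icc t0 T := by
    intro r hr
    have := Set.uIoc_subset_uIcc hr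
    exact (Set.uIcc_subset_Icc hs ht) this
  have hright : Tendsto (fun j => ∫ r in s..t, ∫ x, (v j r x * η3 x + v j r x ^ 5 * η1 x)) atTop
      (𝓝 (∫ r in s..t, ∫ x, (u r x * η3 x + u r x ^ 5 * η1 x))) := by
    refine intervalIntegral.tendsto_integral_filter_of_dominated_convergence
      (fun _ => ∫ x, ((A + 1) * |η3 x| + (A + 1) ^ 5 * |η1 x|)) ?_ ?_ ?_ ?_
    · filter_upwards [hv] with j hj
      have hc : ContinuousOn (fun r => ∫ x, (v j r x * η3 x + v j r x ^ 5 * η1 x)) (Icc t0 T) := by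
        refine continuousOn_integral_of_compact_support (k := Icc (-R) R) isCompact_Icc ?_ ?_
        · have h3' : ContinuousOn (fun p : ℝ × ℝ => η3 p.2) (Icc t0 T ×ˢ univ) :=
            (h3.comp continuous_snd).continuousOn
          have h1' : ContinuousOn (fun p : ℝ × ℝ => η1 p.2) (Icc t0 T ×ˢ univ) :=
            (h1.comp continuous_snd).continuousOn
          exact (hj.mul h3').add ((hj.pow 5).mul h1')
        · intro r x hr hx
          have : R < |x| := by
            by_contra hcon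
            exact hx (abs_le.1 (not_lt.1 hcon))
          rw [z1 x this, z3 x this]; simp
      exact (hc.mono hsub).aestronglyMeasurable measurableSet_uIoc
    · filter_upwards [hbd, hslice] with j hj hjs
      refine Eventually.of_forall fun r hr => ?_
      have hrI := hsub hr
      refine (norm_integral_le_integral_norm _).trans ?_
      apply integral_mono_of_nonneg (Eventually.of_forall fun x => norm_nonneg _)
      · exact ((h3.abs.integrable_of_hasCompactSupport h3s.abs).const_mul _).add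
          ((h1.abs.integrable_of_hasCompactSupport h1s.abs).const_mul _)
      · refine Eventually.of_forall fun x => ?_
        show ‖v j r x * η3 x + v j r x ^ 5 * η1 x‖ ≤ (A + 1) * |η3 x| + (A + 1) ^ 5 * |η1 x|
        rw [Real.norm_eq_abs]
        by_cases hx : |x| ≤ R
        · have hb := hj r hrI x hx
          refine (abs_add_le _ _).trans ?_
          rw [abs_mul, abs_mul, abs_pow]
          gcongr
        · rw [z1 x (not_le.1 hx), z3 x (not_le.1 hx)]; simp
    · exact intervalIntegrable_const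
    · exact Eventually.of_forall fun r hr => hinner r (hsub hr)
  refine tendsto_nhds_unique hleft2 (hright.congr' ?_)
  filter_upwards [heq] with j hj
  exact (hj s hs t ht).symm

section
variable {κ T : ℝ} {m M k0 : ℕ} {C : ℝ → ℝ} {U : ℕ → ℝ → ℝ → ℝ} {ns : ℕ → ℕ} {u : ℝ → ℝ → ℝ}

theorem Lim.weak (hL : Lim T U ns u) (hF : Fam κ T m M k0 C U) (hW : H_WEAK)
    (θ : ℝ → ℝ) (hθ : ContDiff ℝ (⊤ : ℕ∞) θ) (hθs : HasCompactSupport θ) :
    ∀ s ∈ Ioc 0 T, ∀ t ∈ Ioc 0 T,
    (∫ x, u t x * θ x) - (∫ x, u s x * θ x) =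
      ∫ r in s..t, ∫ x, (u r x * iteratedDeriv 3 θ x + u r x ^ 5 * deriv θ x) := by
  intro s hs t ht
  have hmin : 0 < min s t := lt_min hs.1 ht.1
  have ht0 : 0 < min s t / 2 := by linarith
  have htT : min s t / 2 < T := by
    have := min_le_left s t
    have := hs.2
    linarith
  have hsI : s ∈ Icc (min s t / 2) T := ⟨by have := min_le_left s t; linarith, hs.2⟩
  have htI : t ∈ Icc (min s t / 2) T := ⟨by have := min_le_right s t; linarith, ht.2⟩
  refine weak_lim (T := T) (t0 := min s t / 2) (fun j => U (ns j)) u ?_ ?_ ?_ θ (deriv θ)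
    (iteratedDeriv 3 θ) hθ.continuous hθs ?_ hθs.deriv ?_ (hcs_three hθs) ?_ s hsI t htI
  · filter_upwards [hL.ev_time ht0] with j hj
    have h0 := (smoothSol_mono (hF.sol (ns j)) hj).hinf.cont 0
    simpa [iteratedDeriv_zero] using h0
  · refine hL.cont.mono (prod_mono ?_ subset_rfl)
    intro r hr
    exact ⟨ht0.trans_le hr.1, hr.2⟩
  · intro R hR ε hε
    exact hL.conv _ ht0 htT R hR ε hε
  · exact hθ.continuous_deriv (by exact_mod_cast le_top)
  · have h3 : iteratedDeriv 3 θ = deriv (deriv (deriv θ)) := by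
      rw [iteratedDeriv_succ, iteratedDeriv_succ, iteratedDeriv_succ, iteratedDeriv_zero]
    rw [h3]
    have c1 : ContDiff ℝ (⊤ : ℕ∞) (deriv θ) := (contDiff_infty_iff_deriv.1 hθ).2
    have c2 : ContDiff ℝ (⊤ : ℕ∞) (deriv (deriv θ)) := (contDiff_infty_iff_deriv.1 c1).2
    exact (contDiff_infty_iff_deriv.1 c2).2.continuous
  · filter_upwards [hL.ev_time ht0] with j hj s hs t ht
    exact hW _ _ (U (ns j)) (smoothSol_mono (hF.sol (ns j)) hj) θ hθ hθs s hs t ht

end

end Pool.Agent.Helper25.KV
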