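import Pool.Agent.Helper25.KV.Fin4

/-!
# Project KV, part H: assembly, fifth part (concentration at `t = 0`, final statement)
-/

namespace Pool.Agent.Helper25.KV

open Real MeasureTheory Set Filter Topology
open scoped ENNReal
open Pool.Agent.Helper41.KV (Q)
open Pool.Agent.Helper33.KV (SmoothSol outr)

theorem Q_continuous : Continuous Q := by
  unfold Pool.Agent.Helper41.KV.Q
  have hc : ∀ x : ℝ, 0 < Real.cosh (2 * x) := fun x => Real.cosh_pos _
  refine Continuous.rpow_const ?_ (fun x => Or.inr (by norm_num))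
  exact continuous_const.div ((Real.continuous_cosh.comp (by fun_prop)).pow 2)
    (fun x => pow_ne_zero _ (hc x).ne')

theorem Sol_continuous (α t : ℝ) : Continuous (Sol α t) := by
  unfold Sol outr
  exact continuous_const.mul (Q_continuous.comp (by fun_prop))

/-- The reference curve has exactly the rate `ν = (2α+1)/(4α+3)`. -/
theorem curve_rate {α t : ℝ} (hα : 0 < α) (ht : 0 < t) :
    Pool.Agent.Helper33.KV.lam α t / t ^ ((2 * α + 1) / (4 * α + 3)) =
      (4 * α + 3) ^ ((2 * α + 1) / (4 * α + 3)) := by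
  have h3 : 0 < 4 * α + 3 := by linarith
  unfold Pool.Agent.Helper33.KV.lam Pool.Agent.Helper33.KV.sig
  rw [← Real.rpow_mul (by positivity), div_mul_eq_mul_div, one_mul,
    Real.mul_rpow h3.le ht.le, mul_div_assoc, div_self (Real.rpow_pos_of_pos ht _).ne', mul_one]

theorem curve_pos {α t : ℝ} (hα : 0 < α) (ht : 0 < t) : 0 < Pool.Agent.Helper33.KV.lam α t := by
  have h3 : 0 < 4 * α + 3 := by linarith
  unfold Pool.Agent.Helper33.KV.lam Pool.Agent.Helper33.KV.sig
  positivity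

theorem sig_tendsto {α : ℝ} (hα : 0 < α) :
    Tendsto (Pool.Agent.Helper33.KV.sig α) (𝓝[>] 0) (𝓝 0) := by
  have h3 : 0 < 4 * α + 3 := by linarith
  have hp : 0 < 1 / (4 * α + 3) := by positivity
  have h1 : ContinuousAt (fun t : ℝ => ((4 * α + 3) * t) ^ (1 / (4 * α + 3))) 0 :=
    ContinuousAt.rpow_const (by fun_prop) (Or.inr hp.le)
  have h2 := h1.tendsto
  simp only [mul_zero] at h2
  rw [Real.zero_rpow hp.ne'] at h2
  exact h2.mono_left nhdsWithin_le_nhds

theorem sol_eq {α t : ℝ} (hα : 0 < α) (ht : 0 < t) (x : ℝ) :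
    Sol α t x = Pool.Agent.Helper33.KV.lam α t ^ (-(1 / 2) : ℝ) *
      Q ((x - Pool.Agent.Helper33.KV.sig α t) / Pool.Agent.Helper33.KV.lam α t) := by
  unfold Sol outr
  rw [Real.rpow_neg (curve_pos hα ht).le, ← Real.sqrt_eq_rpow, one_div]

section
variable {α κ T : ℝ} {m M k0 : ℕ} {f0 ω C : ℝ → ℝ} {U : ℕ → ℝ → ℝ → ℝ} {ns : ℕ → ℕ}
  {u : ℝ → ℝ → ℝ}

/-- `L^2` distance of the limit to soliton plus fixed profile plus packets. -/
theorem Lim.dist (hL : Lim T U ns u) (hTi : H_TIGHT) (h1 : H_GP1) (hm : 1 ≤ m) (hM : m ≤ M)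
    (hf0 : MemLp f0 2)
    (hU : ∀ n : ℕ, ∀ t ∈ Icc (T / ((n : ℝ) + 2)) T,
      Continuous (U n t) ∧ Integrable (fun x => (U n t x - Sol α t x - f0 x - gp m M k0 n t x) ^ 2) ∧
      (∫ x, (U n t x - Sol α t x - f0 x - gp m M k0 n t x) ^ 2) ≤ ω t) {t : ℝ}
    (ht : t ∈ Ioc 0 T) :
    Integrable (fun x => (u t x - Sol α t x - f0 x - ginf m M k0 t x) ^ 2) ∧
      (∫ x, (u t x - Sol α t x - f0 x - ginf m M k0 t x) ^ 2) ≤ ω t := by
  have ht2 : 0 < t / 2 := by have := ht.1; linarith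
  have ht3 : t / 2 < T := by have := ht.1; have := ht.2; linarith
  have htI : t ∈ Icc (t / 2) T := ⟨by have := ht.1; linarith, ht.2⟩
  refine hTi.2 (ω t) (fun j x => U (ns j) t x - Sol α t x - f0 x - gp m M k0 (ns j) t x)
    (fun x => u t x - Sol α t x - f0 x - ginf m M k0 t x) ?_ ?_
  · filter_upwards [hL.ev_time ht.1] with j hj
    obtain ⟨c1, c2, c3⟩ := hU (ns j) t ⟨hj, ht.2⟩
    exact ⟨((c1.aestronglyMeasurable.sub (Sol_continuous α t).aestronglyMeasurable).sub
      hf0.aestronglyMeasurable).sub (gp_smooth h1 hm hM _ t).continuous.aestronglyMeasurable, c2, c3⟩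
  · intro x
    have hpt : Tendsto (fun j => U (ns j) t x - gp m M k0 (ns j) t x) atTop
        (𝓝 (u t x - ginf m M k0 t x)) := by
      rw [Metric.tendsto_nhds]
      intro ε hε
      filter_upwards [hL.convW (k0 := k0) h1 hm hM ht2 ht3 (R := |x| + 1) (by positivity)
        (half_pos hε)] with j hj
      rw [Real.dist_eq]
      exact (hj t htI x (by linarith)).trans_lt (by linarith)
    have h5 := (hpt.sub_const (Sol α t x)).sub_const (f0 x)
    refine (h5.congr fun j => by ring).trans (le_of_eq ?_)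
    congr 1
    ring

/-- Concentration of the limit. -/
theorem Lim.conc (hL : Lim T U ns u) (hTi : H_TIGHT) (h1 : H_GP1) (h2 : H_GP2) (hm : 1 ≤ m)
    (hM : m ≤ M) (hα : 0 < α) (hT : 0 < T)
    (hf0 : MemLp f0 2) (hω : Tendsto ω (𝓝[>] 0) (𝓝 0))
    (hU : ∀ n : ℕ, ∀ t ∈ Icc (T / ((n : ℝ) + 2)) T,
      Continuous (U n t) ∧ Integrable (fun x => (U n t x - Sol α t x - f0 x - gp m M k0 n t x) ^ 2) ∧
      (∫ x, (U n t x - Sol α t x - f0 x - gp m M k0 n t x) ^ 2) ≤ ω t) :
    Concentrates ((2 * α + 1) / (4 * α + 3)) T u := by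
  obtain ⟨G, hG, hg1, hg2, hg3, hg4, hg5, hg6⟩ := h2 m M k0 (1 / 2) hm hM (by norm_num) (by norm_num)
  have hgc : Continuous (fun y => ginf m M k0 0 y) := ((h1.2 m M k0 hm hM).2.2.2.1 0).continuous
  have hg0 : MemLp (fun y => ginf m M k0 0 y) 2 :=
    (memLp_two_iff_integrable_sq hgc.aestronglyMeasurable).2 (hg2 0).1
  refine ⟨Pool.Agent.Helper33.KV.lam α, Pool.Agent.Helper33.KV.sig α,
    (4 * α + 3) ^ ((2 * α + 1) / (4 * α + 3)), 0, fun x => f0 x + ginf m M k0 0 x, by positivity,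
    fun t ht => curve_pos hα ht.1, ?_, sig_tendsto hα, hf0.add hg0, ?_⟩
  · refine tendsto_const_nhds.congr' ?_
    filter_upwards [self_mem_nhdsWithin] with t ht
    exact (curve_rate hα ht).symm
  · -- the L^2 convergence
    have hup : Tendsto (fun t => ENNReal.ofReal (Real.sqrt (2 * ω t + 2 * (G * |t - 0| ^ ((1 : ℝ) / 3)))))
        (𝓝[>] 0) (𝓝 0) := by
      have ha : Tendsto (fun t : ℝ => G * |t - 0| ^ ((1 : ℝ) / 3)) (𝓝[>] 0) (𝓝 0) := by
        have hc : ContinuousAt (fun s : ℝ => G * |s - 0| ^ ((1 : ℝ) / 3)) 0 := by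
          apply ContinuousAt.mul continuousAt_const
          apply ContinuousAt.rpow_const
          · fun_prop
          · exact Or.inr (by norm_num)
        have hval : G * |(0 : ℝ) - 0| ^ ((1 : ℝ) / 3) = 0 := by
          rw [sub_self, abs_zero, Real.zero_rpow (by norm_num), mul_zero]
        have h5 := hc.tendsto
        rw [hval] at h5
        exact h5.mono_left nhdsWithin_le_nhds
      have hb := (hω.const_mul 2).add (ha.const_mul 2)
      simp only [mul_zero, add_zero] at hb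
      have hs := (Real.continuous_sqrt.tendsto 0).comp hb
      rw [Real.sqrt_zero] at hs
      have he := (ENNReal.continuous_ofReal.tendsto 0).comp hs
      rw [ENNReal.ofReal_zero] at he
      exact he
    refine tendsto_of_tendsto_of_tendsto_of_le_of_le' tendsto_const_nhds hup
      (Eventually.of_forall fun t => bot_le) ?_
    have hev : ∀ᶠ t in 𝓝[>] (0 : ℝ), t ∈ Ioc 0 T := by
      have h6 : ∀ᶠ t in 𝓝[>] (0 : ℝ), t ≤ T := nhdsWithin_le_nhds (eventually_le_nhds hT)
      filter_upwards [self_mem_nhdsWithin, h6] with t h7 h8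
      exact ⟨h7, h8⟩
    filter_upwards [hev] with t ht
    have hd := hL.dist hTi h1 hm hM hf0 hU ht
    have hgt : Continuous (fun y => ginf m M k0 t y) := ((h1.2 m M k0 hm hM).2.2.2.1 t).continuous
    have hut : Continuous (u t) := hL.slice ht
    have hm1 : AEStronglyMeasurable (fun x => u t x - Sol α t x - f0 x - ginf m M k0 t x) volume :=
      ((hut.aestronglyMeasurable.sub (Sol_continuous α t).aestronglyMeasurable).sub
        hf0.aestronglyMeasurable).sub hgt.aestronglyMeasurable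
    have hm2 : AEStronglyMeasurable (fun x => ginf m M k0 t x - ginf m M k0 0 x) volume :=
      (hgt.sub hgc).aestronglyMeasurable
    have hs := int_add_sq hm1 hm2 hd.1 (hg6 t 0).1
    have hfun : (fun x => u t x - Pool.Agent.Helper33.KV.lam α t ^ (-(1 / 2) : ℝ) *
        Q ((x - Pool.Agent.Helper33.KV.sig α t) / Pool.Agent.Helper33.KV.lam α t) -
        (f0 x + ginf m M k0 0 x)) = fun x =>
        (u t x - Sol α t x - f0 x - ginf m M k0 t x) + (ginf m M k0 t x - ginf m M k0 0 x) := by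
      funext x
      rw [← sol_eq hα ht.1]
      ring
    have hm12 : AEStronglyMeasurable (fun x => (u t x - Sol α t x - f0 x - ginf m M k0 t x) +
        (ginf m M k0 t x - ginf m M k0 0 x)) volume := hm1.add hm2
    rw [hfun, eLpNorm_two_eq hm12 hs.1]
    apply ENNReal.ofReal_le_ofReal
    apply Real.sqrt_le_sqrt
    refine hs.2.trans ?_
    have := (hg6 t 0).2
    linarith [hd.2]

end

/-- **Assembly of part H.** -/
theorem thm_FIN : H_FIN := by
  intro hN hH hW hQ hLi hTi hLo h1 h2 hNo hA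
  intro ν hν1 hν2
  -- the exponent
  have hden : 0 < 2 - 4 * ν := by linarith
  set α : ℝ := (3 * ν - 1) / (2 - 4 * ν) with hαdef
  have hα : 0 < α := div_pos (by linarith) hden
  have hα1 : α < 1 := by rw [hαdef, div_lt_one hden]; linarith
  have hνα : (2 * α + 1) / (4 * α + 3) = ν := by
    have h43 : 0 < 4 * α + 3 := by linarith
    have hmul : α * (2 - 4 * ν) = 3 * ν - 1 := by rw [hαdef, div_mul_cancel₀ _ hden.ne']
    rw [div_eq_iff h43.ne']
    linarith
  obtain ⟨κ, T, m, M, k0, f0, ω, C, hκ, hκ1, hT, hm, hM, hMκ, hf0, hω, hC, hfam⟩ := hA α hα hα1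
  have hτ : ∀ n : ℕ, 0 < T / ((n : ℝ) + 2) ∧ T / ((n : ℝ) + 2) < T := by
    intro n
    have h2 : (0 : ℝ) < (n : ℝ) + 2 := by positivity
    refine ⟨by positivity, ?_⟩
    rw [div_lt_iff₀ h2]
    have : (0 : ℝ) ≤ n := Nat.cast_nonneg n
    nlinarith
  choose U hUsol hUbd using fun n : ℕ => hfam n (T / ((n : ℝ) + 2)) (hτ n).1 (hτ n).2
  have hF : Fam κ T m M k0 C U := ⟨hUsol, fun n t ht => ⟨(hUbd n t ht).2.1, (hUbd n t ht).2.2⟩⟩
  obtain ⟨ns, u, hns, hcont, hconv⟩ := hLi T U hT (hF.limHyp hLo h1 hQ hκ hκ1 hm hM hC)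
  have hL : Lim T U ns u := ⟨hns, hcont, hconv⟩
  have hk : 0 < κ / 2 := by positivity
  have hk2 : κ / 2 < κ := by linarith
  have hU2 : ∀ n : ℕ, ∀ t ∈ Icc (T / ((n : ℝ) + 2)) T,
      Continuous (U n t) ∧ Integrable (fun x => (U n t x - Sol α t x - f0 x - gp m M k0 n t x) ^ 2) ∧
      (∫ x, (U n t x - Sol α t x - f0 x - gp m M k0 n t x) ^ 2) ≤ ω t := by
    intro n t ht
    exact ⟨(hF.smooth ht).continuous, (hUbd n t ht).1.1, (hUbd n t ht).1.2⟩
  refine ⟨κ / 2, T, u, hk, by linarith, hT, ?_, ?_, ?_⟩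
  · refine ⟨fun t ht => hL.mem hF hTi hN hH h1 h2 hκ hκ1 hm hM hC hk hk2 ht,
      fun t ht => hL.contHs hF hTi hN hH h1 h2 hκ hκ1 hm hM hC hk hk2 ht, hcont,
      fun θ hθ hθs => hL.weak hF hW θ hθ hθs, ?_⟩
    intro t0 ht0
    -- shift the sequence so that all members are solutions on `[t0,T]`
    obtain ⟨J, hJ⟩ := eventually_atTop.1 (hL.ev_time ht0.1)
    refine ⟨fun j => U (ns (j + J)), fun j => smoothSol_mono (hF.sol _) (hJ (j + J) (by omega)), ?_⟩
    have h3 := hL.hsconv hF hTi hN hH h1 h2 hκ hκ1 hm hM hC hk hk2 ht0.1 ht0.2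
    exact h3.comp (tendsto_add_atTop_nat J)
  · intro t ht
    have ht2 : 0 < t / 2 := by have := ht.1; linarith
    have ht3 : t / 2 < T := by have := ht.1; have := ht.2; linarith
    have hti := (hL.tight hF hTi h1 hκ hm hM hC ht2 ht3).1 t ⟨by have := ht.1; linarith, ht.2⟩
    exact hNo m M k0 κ hm hM hκ hMκ t (u t) (hL.slice ht) hti.1
  · rw [← hνα]
    exact hL.conc hTi h1 h2 hm hM hα hT hf0 hω hU2

end Pool.Agent.Helper25.KV
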