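import Pool.Agent.Helper25.KV.Fin5
import Pool.Agent.Helper26.KV.HHS
import Pool.Agent.Helper31.KV.HTEQ
import Pool.Agent.Helper59.KV.HGP2
import Pool.Agent.Helper65.KV.HLOC
import Pool.Agent.Helper69.KV.HTIGHT
import Pool.Agent.Helper70.KV.HLIM
import Pool.Agent.Helper74.KV.HNIK
import Pool.Agent.Helper75.KV.HNOTH1
import Pool.Agent.Helper89.KV.HWEAK
import Pool.Agent.Helper90.KV.HGP1

/-!
# Project KV (`MP_66be51_an`), part H complete: the approximating family implies the final theorem
-/

namespace Pool.Agent.Helper25.KV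

/-- **Part H.** If the uniform family of smooth approximations exists (parts A-G), then for every
`ν ∈ (1/3, 3/7)` there is an infinite-energy solution concentrating with rate `ν`. -/
theorem partH (hA : Goal_APPROX) : Goal_FINAL :=
  thm_FIN Pool.Agent.Helper74.KV.thm_NIK Pool.Agent.Helper26.KV.thm_HS thm_WEAK (thm_TEQ thm_WEAK)
    thm_LIM thm_TIGHT Pool.Agent.Helper65.KV.thm_LOC Pool.Agent.Helper90.KV.GP.thm_GP1
    (thm_GP2 Pool.Agent.Helper90.KV.GP.thm_GP1) (thm_NOTH1 Pool.Agent.Helper90.KV.GP.thm_GP1) hA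

end Pool.Agent.Helper25.KV
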