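import Pool.Agent.Helper25.KV.Defs

/-!
# Project KV (`MP_66be51_an`), part H: goals

Every goal is a `def H_... : Prop` with a complete proof in the doc string. They are independent of
each other except where a goal is said to be available as a hypothesis.
-/

namespace Pool.Agent.Helper25.KV

open Real MeasureTheory Set Filter Topology
open scoped ENNReal
open Pool.Agent.Helper41.KV (Q)
open Pool.Agent.Helper33.KV (SmoothSol outr)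

/-- **NIK (1 h).** `H^κ` smoothness (in the Nikolskii sense) from the two weighted norms.
PROOF.  Let `R = h^{-2} ≥ 1`, `F = f^2 (1+|x|)^κ`, `G = (f')^2 (1+|x|)^{κ-1}`.  Pointwise for all `x`:
`(f(x+h)-f(x))^2 ≤ h (3R)^{1-κ} ∫_0^h G(x+s) ds + 2 R^{-κ} (F(x+h) + F(x))`.      (*)
If `|x| ≤ R`: `(f(x+h)-f(x))^2 ≤ h ∫_0^h f'(x+s)^2 ds` (Cauchy-Schwarz) and `1+|x+s| ≤ 1+R+1 ≤ 3R`, so
`f'(x+s)^2 ≤ (3R)^{1-κ} G(x+s)` (as `κ - 1 ≤ 0`).  If `|x| > R`: `(f(x+h)-f(x))^2 ≤ 2f(x+h)^2 + 2f(x)^2`,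
`1+|x| ≥ R` and `1+|x+h| ≥ 1+R-h ≥ R`, so `f(x)^2 ≤ R^{-κ}F(x)`, `f(x+h)^2 ≤ R^{-κ} F(x+h)`.
Integrate (*) in `x` (Tonelli, translation invariance): `∫ ≤ h^2 (3R)^{1-κ} C + 4 R^{-κ} C
= 3^{1-κ} h^{2κ} C + 4 h^{2κ} C ≤ 7 C h^{2κ}`. (Note `C ≥ 0`.) -/
def H_NIK : Prop :=
  ∀ κ : ℝ, 0 < κ → κ < 1 → ∀ (f : ℝ → ℝ) (C : ℝ), ContDiff ℝ 1 f →
    Integrable (fun x => f x ^ 2 * (1 + |x|) ^ κ) → (∫ x, f x ^ 2 * (1 + |x|) ^ κ) ≤ C →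
    Integrable (fun x => deriv f x ^ 2 * (1 + |x|) ^ (κ - 1)) →
    (∫ x, deriv f x ^ 2 * (1 + |x|) ^ (κ - 1)) ≤ C →
    ∀ h : ℝ, 0 < h → h ≤ 1 → Integrable (fun x => (f (x + h) - f x) ^ 2) ∧
      (∫ x, (f (x + h) - f x) ^ 2) ≤ 7 * C * h ^ (2 * κ)

/-- **HS (1 h).** Gagliardo norm from the `L^2` norm and the Nikolskii bound.
PROOF.  `f` is continuous, so everything is measurable. By Tonelli and the substitution `y = x + h`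
(for fixed `x`; `lintegral_add_left_eq_self`) and `lintegral_lintegral_swap`,
`∬ (f x - f y)^2/|x-y|^{1+2κ} = ∫⁻_h |h|^{-1-2κ} N(h) dh`, `N(h) = ∫⁻_x (f(x+h)-f(x))^2`.
`N(-h) = N(h)` (translation), so this is `2 ∫⁻_{h>0} h^{-1-2κ} N(h)` (the point `h = 0` is a null set).
For `h ≤ δ`: `N(h) ≤ B h^{2ϰ}`, `∫_0^δ h^{2ϰ-2κ-1} = δ^{2(ϰ-κ)}/(2(ϰ-κ))`. For `h > δ`: `N(h) ≤ 4 ∫ f^2 ≤ 4A`
(`(a-b)^2 ≤ 2a^2+2b^2`), `∫_δ^∞ h^{-1-2κ} = δ^{-2κ}/(2κ)`.  Sum. -/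
def H_HS : Prop :=
  ∀ κ ϰ : ℝ, 0 < κ → κ < ϰ → ϰ < 1 → ∀ (f : ℝ → ℝ) (A B : ℝ), Continuous f →
    Integrable (fun x => f x ^ 2) → (∫ x, f x ^ 2) ≤ A →
    (∀ h : ℝ, 0 < h → h ≤ 1 → Integrable (fun x => (f (x + h) - f x) ^ 2) ∧
      (∫ x, (f (x + h) - f x) ^ 2) ≤ B * h ^ (2 * ϰ)) →
    ∀ δ : ℝ, 0 < δ → δ ≤ 1 →
      hs κ f ≤ ENNReal.ofReal (A + B * δ ^ (2 * (ϰ - κ)) / (ϰ - κ) + 4 * A * δ ^ (-(2 * κ)) / κ)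

/-- **WEAK (1 h).** Smooth solutions satisfy the weak equation integrated in time.
PROOF.  It suffices to treat `s ≤ t` (both sides change sign).  For fixed `x` the function
`r ↦ u r x` has the (within `[a,b]`) derivative `-(flux u)_x = -(u_xxx + (u^5)_x)(r,x)` (field `eqn`, `k = 0`),
continuous in `r` (field `cont` for `k = 3`, and `(u^5)_x = 5 u^4 u_x` with `cont` for `k = 0, 1`), so
`u t x - u s x = - ∫_s^t (u_xxx + (u^5)_x)(r,x) dr`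
(`intervalIntegral.integral_eq_sub_of_hasDeriv_right` or `..._of_hasDerivAt_of_le` on `(s,t)`).
Multiply by `θ x`, integrate in `x`, exchange the integrals (`integrable` on the compact
`[s,t] × tsupport θ`, the integrand is continuous there and vanishes elsewhere):
`= - ∫_s^t ∫ (u_xxx + (u^5)_x)(r,x) θ(x) dx dr`, and integrate by parts three times (once) in `x`
(`integral_mul_deriv_eq_deriv_mul_of_integrable` / compact support): `-∫ u_xxx θ = ∫ u θ'''`,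
`-∫ (u^5)_x θ = ∫ u^5 θ'`. -/
def H_WEAK : Prop :=
  ∀ (a b : ℝ) (u : ℝ → ℝ → ℝ), SmoothSol u a b → ∀ θ : ℝ → ℝ, ContDiff ℝ (⊤ : ℕ∞) θ →
    HasCompactSupport θ → ∀ s ∈ Icc a b, ∀ t ∈ Icc a b,
    (∫ x, u t x * θ x) - (∫ x, u s x * θ x) =
      ∫ r in s..t, ∫ x, (u r x * iteratedDeriv 3 θ x + u r x ^ 5 * deriv θ x)

/-- **TEQ (1 h).** Equicontinuity in time. Hypothesis allowed: `H_WEAK`.
PROOF.  Let `ψ` be a fixed smooth function, `ψ ≥ 0`, `ψ = 0` off `[-1,1]`, `∫ ψ = 1`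
(e.g. `bmp/∫bmp` or a `ContDiffBump` normalised), `A1 = ∫|ψ'|`, `A3 = ∫|ψ'''|`.
For `t = s` nothing to prove. Let `ε = |t-s|^{2/7} ∈ (0,1]`, `θ(y) = ε^{-1} ψ((y-x)/ε)`.  By H_WEAK,
`|∫ (u t - u s) θ| ≤ |t-s| sup_r ∫ (|u||θ'''| + |u|^5|θ'|) ≤ |t-s| (M ε^{-3} A3 + M^5 ε^{-1} A1)
≤ (M A3 + M^5 A1) |t-s| ε^{-3} = (M A3 + M^5 A1)|t-s|^{1/7}` (`supp θ ⊂ [x-1,x+1] ⊂ [-R-1,R+1]`).
`|u t x - ∫ u t θ| = |∫ (u t x - u t y) θ(y) dy| ≤ M ε^{1/2} = M |t-s|^{1/7}`, the same for `s`.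
Total constant `C = 2M + M A3 + M^5 A1`. -/
def H_TEQ : Prop :=
  ∀ M : ℝ, 0 < M → ∃ C : ℝ, 0 < C ∧ ∀ (a b : ℝ) (u : ℝ → ℝ → ℝ), SmoothSol u a b →
    ∀ R : ℝ, 0 ≤ R → (∀ t ∈ Icc a b, ∀ x, |x| ≤ R + 1 → |u t x| ≤ M) →
    (∀ t ∈ Icc a b, ∀ x y, |x| ≤ R + 1 → |y| ≤ R + 1 →
      |u t x - u t y| ≤ M * |x - y| ^ ((1 : ℝ) / 2)) →
    ∀ s ∈ Icc a b, ∀ t ∈ Icc a b, |t - s| ≤ 1 → ∀ x, |x| ≤ R →
      |u t x - u s x| ≤ C * |t - s| ^ ((1 : ℝ) / 7)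

/-- **LIM (1 h).** Compactness (abstract Arzela-Ascoli with a diagonal sequence).
PROOF.  Let `𝓤 = hyperfilter ℕ` (`≤ atTop`).  For `0 < t ≤ T` and `x`, `U n t x` is bounded by some `M` for all
large `n` (apply the hypothesis with `t0 = min t (T/2)`, `R = |x|+1`), hence `u t x := lim_𝓤 U n t x`
exists (`IsCompact.ultrafilter_le_nhds` for `Icc (-M) M`).  Passing to the limit in the modulus
of continuity, `u` satisfies the same bounds on `[t0,T] × [-R,R]`; this gives the continuity of `u` on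
`(0,T] × ℝ` (each point `(t,x)` has a neighbourhood in `(0,T] × ℝ` contained in `[t0,T] × [-R,R]`).
Local uniform convergence along `𝓤`: given `t0, R, ε` let `M ≥ 0` be from the hypothesis, `δ ∈ (0,1]` with
`M (δ^{1/2} + δ^{1/7}) ≤ ε/3`, and take a finite `δ`-net `p_i` of `[t0,T] × [-R,R]` (compactness).  For
`𝓤`-almost all `n`, `|U n p_i - u p_i| ≤ ε/3` for all `i`, and then `|U n p - u p| ≤ ε` for all `p` in the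
set by the triangle inequality.
Diagonal: for `j` let `t_j = T/(j+2)`, `R_j = j+1`.  The set of `n` with `n ≥ j` and
`|U n t x - u t x| ≤ 1/(j+1)` for `t ∈ [t_j,T], |x| ≤ R_j` belongs to `𝓤`, so it is nonempty: choose `ns j`
in it.  Given `t0, R, ε`: for `j` large `t_j ≤ t0`, `R_j ≥ R`, `1/(j+1) ≤ ε`. -/
def H_LIM : Prop :=
  ∀ (T : ℝ) (U : ℕ → ℝ → ℝ → ℝ), 0 < T →
    (∀ t0 : ℝ, 0 < t0 → t0 < T → ∀ R : ℝ, 0 < R → ∃ M : ℝ, ∀ᶠ n in atTop,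
      ∀ t ∈ Icc t0 T, ∀ x, |x| ≤ R → |U n t x| ≤ M ∧
        ∀ s ∈ Icc t0 T, ∀ y, |y| ≤ R → |t - s| ≤ 1 →
          |U n t x - U n s y| ≤ M * (|x - y| ^ ((1 : ℝ) / 2) + |t - s| ^ ((1 : ℝ) / 7))) →
    ∃ (ns : ℕ → ℕ) (u : ℝ → ℝ → ℝ), (∀ j, j ≤ ns j) ∧
      ContinuousOn (fun p : ℝ × ℝ => u p.1 p.2) (Ioc 0 T ×ˢ univ) ∧
      ∀ t0 : ℝ, 0 < t0 → t0 < T → ∀ R : ℝ, 0 < R → ∀ ε : ℝ, 0 < ε → ∀ᶠ j in atTop,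
        ∀ t ∈ Icc t0 T, ∀ x, |x| ≤ R → |U (ns j) t x - u t x| ≤ ε

/-- **TIGHT (1 h).** Local uniform convergence + uniform weighted bound gives `L^2` convergence,
uniformly over a parameter set `I`.
PROOF.  (1) Fix `t ∈ I`.  For `R > 0`, `ε' > 0` there is `i` with `|F i t x - f t x| ≤ ε'` on `|x| ≤ R` and with
the bound `C`; hence `(∫_{|x|≤R} f^2 (1+|x|)^κ)^{1/2} ≤ C^{1/2} + ε' (∫_{|x|≤R}(1+|x|)^κ)^{1/2}` (Minkowski), or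
elementary: for every `η > 0`, `f^2 ≤ (1+η)F^2 + (1+1/η)(f-F)^2`. Let `ε' → 0`, then `η → 0`, then
`R → ∞` (monotone convergence): `∫ f^2 (1+|x|)^κ ≤ C` and integrability.
(2) For `|x| > R`: `(F-f)^2 ≤ 2F^2+2f^2 ≤ 2(1+R)^{-κ}(F^2+f^2)(1+|x|)^κ`, so
`∫ (F-f)^2 ≤ 2R sup_{|x|≤R}|F-f|^2 + 4C(1+R)^{-κ}`; choose `R` with `4C(1+R)^{-κ} ≤ ε/2`, then eventually
`sup^2 ≤ ε/(4R)`. Integrability: `(F-f)^2 ≤ 2F^2 + 2f^2` and `F^2 ≤ F^2(1+|x|)^κ`, continuity.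
(3) second part (Fatou): `∫⁻ ofReal (f^2) ≤ liminf ∫⁻ ofReal (F j ^2) ≤ ofReal C` (`lintegral_liminf_le`). -/
def H_TIGHT : Prop :=
  (∀ (ι : Type) (l : Filter ι) (I : Set ℝ) (κ C : ℝ) (F : ι → ℝ → ℝ → ℝ) (f : ℝ → ℝ → ℝ),
    l.NeBot → 0 < κ →
    (∀ᶠ i in l, ∀ t ∈ I, Continuous (F i t) ∧ Integrable (fun x => F i t x ^ 2 * (1 + |x|) ^ κ) ∧
      (∫ x, F i t x ^ 2 * (1 + |x|) ^ κ) ≤ C) →
    (∀ t ∈ I, Continuous (f t)) →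
    (∀ R : ℝ, 0 < R → ∀ ε : ℝ, 0 < ε → ∀ᶠ i in l, ∀ t ∈ I, ∀ x, |x| ≤ R → |F i t x - f t x| ≤ ε) →
    (∀ t ∈ I, Integrable (fun x => f t x ^ 2 * (1 + |x|) ^ κ) ∧
      (∫ x, f t x ^ 2 * (1 + |x|) ^ κ) ≤ C) ∧
    ∀ ε : ℝ, 0 < ε → ∀ᶠ i in l, ∀ t ∈ I, Integrable (fun x => (F i t x - f t x) ^ 2) ∧
      (∫ x, (F i t x - f t x) ^ 2) ≤ ε) ∧
  (∀ (C : ℝ) (F : ℕ → ℝ → ℝ) (f : ℝ → ℝ),
    (∀ᶠ j in atTop, AEStronglyMeasurable (F j) volume ∧ Integrable (fun x => F j x ^ 2) ∧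
      (∫ x, F j x ^ 2) ≤ C) →
    (∀ x, Tendsto (fun j => F j x) atTop (𝓝 (f x))) →
    Integrable (fun x => f x ^ 2) ∧ (∫ x, f x ^ 2) ≤ C)

/-- **LOC (0.7 h).** Local sup and Hölder bounds from the weighted norms.
PROOF.  For `|x|,|y| ≤ R`: `|f x - f y| ≤ |x-y|^{1/2} (∫_{[x,y]} f'^2)^{1/2}`, `f'^2 ≤ (1+R)^{1-κ} G` on
`[-R,R]` with `G = f'^2(1+|x|)^{κ-1}`, `∫G ≤ C`: so `≤ ((1+R)^{1-κ} C)^{1/2}|x-y|^{1/2}`.  Sup bound (with `R+1`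
in place of `R`): for `y ∈ [x,x+1]`, `|f x|^2 ≤ 2 f y^2 + 2 K |x-y| ≤ 2 f y^2 + 2K`, `K = (2+R)^{1-κ}C`;
integrate over `y ∈ [x,x+1]`: `f x^2 ≤ 2 ∫ f^2 + 2K ≤ 2C + 2K`. -/
def H_LOC : Prop :=
  ∀ κ C R : ℝ, 0 < κ → κ < 1 → 0 < R → ∃ M : ℝ, 0 < M ∧ ∀ f : ℝ → ℝ, ContDiff ℝ 1 f →
    Integrable (fun x => f x ^ 2 * (1 + |x|) ^ κ) → (∫ x, f x ^ 2 * (1 + |x|) ^ κ) ≤ C →
    Integrable (fun x => deriv f x ^ 2 * (1 + |x|) ^ (κ - 1)) →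
    (∫ x, deriv f x ^ 2 * (1 + |x|) ^ (κ - 1)) ≤ C →
    ∀ x y : ℝ, |x| ≤ R → |y| ≤ R → |f x| ≤ M ∧ |f x - f y| ≤ M * |x - y| ^ ((1 : ℝ) / 2)

/-- **GP1 (1 h).** Elementary facts on the bump and the packets.
PROOF.  `Real.smoothTransition` is smooth, values in `[0,1]`, `= 0` on `(-∞,0]`, `= 1` on `[1,∞)`; so
`bmp` is smooth, in `[0,1]`, zero for `|y| ≥ 1`, one for `|y| ≤ 1/2`, with bounded derivative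
(continuous with compact support).  If `pk m M k t x ≠ 0` then `|x + 4·4^{Mk}| < 4^{mk} ≤ 4^{Mk}`, i.e.
`-5·4^{Mk} < x < -3·4^{Mk}`; since `5·4^{Mk} + 1 ≤ 12·4^{Mk} ≤ 3·4^{M(k+1)}`, for every `x` there is at most one
`k` with `pk m M k t x ≠ 0` or `pk m M k t (x+h) ≠ 0` for some `h ∈ [0,1]`.
So for `|x| ≤ R` and `3·4^{M(k0+n)} > R` all packets with number `≥ k0+n` vanish at `x` and
`gp n = ginf` there; `n` with this property exists; `tsum_eq_sum`.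
`|pk| ≤ 1`, `|∂_x pk| ≤ (sup|bmp'| 4^{-mk} + 2^k)/(2^k 2^{mk}) ≤ sup|bmp'| + 1 =: D`; at most one packet is
nonzero at `x` and at most one at `y`, so `|gp n t x - gp n t y| ≤ 2 D |x-y|` and `|gp| ≤ 1`. -/
def H_GP1 : Prop :=
  (ContDiff ℝ (⊤ : ℕ∞) bmp ∧ (∀ y, 0 ≤ bmp y) ∧ (∀ y, bmp y ≤ 1) ∧ (∀ y, 1 ≤ |y| → bmp y = 0) ∧
    (∀ y, |y| ≤ 1 / 2 → bmp y = 1) ∧ ∃ D : ℝ, ∀ y, |deriv bmp y| ≤ D) ∧
  (∀ m M k0 : ℕ, 1 ≤ m → m ≤ M →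
    (∀ k t x, pk m M k t x ≠ 0 → -(5 * 4 ^ (M * k)) < x ∧ x < -(3 * 4 ^ (M * k))) ∧
    (∀ j k : ℕ, j < k → (3 : ℝ) * 4 ^ (M * k) ≥ 5 * 4 ^ (M * j) + 1) ∧
    (∀ n, ContDiff ℝ (⊤ : ℕ∞) (fun p : ℝ × ℝ => gp m M k0 n p.1 p.2)) ∧
    (∀ t, ContDiff ℝ (⊤ : ℕ∞) (fun x => ginf m M k0 t x)) ∧
    Continuous (fun p : ℝ × ℝ => ginf m M k0 p.1 p.2) ∧
    (∀ R : ℝ, ∃ n0 : ℕ, ∀ n, n0 ≤ n → ∀ t x, |x| ≤ R → gp m M k0 n t x = ginf m M k0 t x) ∧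
    ∃ D : ℝ, 0 < D ∧ (∀ n t x, |gp m M k0 n t x| ≤ D) ∧
      (∀ n t x y, |gp m M k0 n t x - gp m M k0 n t y| ≤ D * |x - y|) ∧
      ∀ t x, |ginf m M k0 t x| ≤ D)

/-- **GP2 (1.3 h).** `L^2` bounds of the packets. Hypothesis allowed: `H_GP1`.
PROOF.  Write `p_k = pk m M (k0+k)`, `K = k0 + k`.  By disjointness (GP1), pointwise
`(Σ_{k∈S} (p_k(t,x+h) - p_k(t,x)))^2 = Σ_{k∈S} (...)^2` for `0 ≤ h ≤ 1`, and the same for sums of `p_k(t,x)` and of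
`p_k(t,x) - p_k(s,x)`.
(a) `∫ p_k^2 ≤ 4^{-K} 4^{-mK} ∫ 1_{|x+4·4^{MK}| ≤ 4^{mK}} = 2·4^{-K}`.
(b) `∫ (∂_x p_k)^2 ≤ (D + 1)^2·2` with `D = sup|bmp'|`: `|∂_x p_k| ≤ (D 4^{-mK} + 2^K)/(2^K 2^{mK}) ≤ (D+1) 2^{-mK}`
on an interval of length `2·4^{mK}`.  Hence `∫ (p_k(x+h)-p_k(x))^2 ≤ min(8·4^{-K}, 2(D+1)^2 h^2)
≤ C 4^{-K(1-κ)} h^{2κ}` (`min(a,b) ≤ a^{1-κ} b^κ`), summable over `k`.
(c) `|cos a - cos b|^2 ≤ 4 min(1,|a-b|^2) ≤ 4|a-b|^{1/3}`: `∫ (p_k(t)-p_k(s))^2 ≤ 4·8^{K/3}|t-s|^{1/3}·2·4^{-K}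
= 8·2^{-K}|t-s|^{1/3}`.
(d) `∫ (ginf - gp n)^2 = Σ_{k≥n} ∫ p_k^2 ≤ 2 Σ_{k≥n} 4^{-k} ≤ 3·4^{-n}`.
For `ginf`: at each `x` only finitely many (one) packets are nonzero; use `lintegral_tsum` or the second
part of TIGHT / monotone convergence from the finite sums. -/
def H_GP2 : Prop :=
  ∀ (m M k0 : ℕ) (κ : ℝ), 1 ≤ m → m ≤ M → 0 < κ → κ < 1 → ∃ C : ℝ, 0 < C ∧
    (∀ n t, Integrable (fun x => gp m M k0 n t x ^ 2) ∧ (∫ x, gp m M k0 n t x ^ 2) ≤ C) ∧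
    (∀ t, Integrable (fun x => ginf m M k0 t x ^ 2) ∧ (∫ x, ginf m M k0 t x ^ 2) ≤ C) ∧
    (∀ n t h, 0 < h → h ≤ 1 →
      Integrable (fun x => (gp m M k0 n t (x + h) - gp m M k0 n t x) ^ 2) ∧
      (∫ x, (gp m M k0 n t (x + h) - gp m M k0 n t x) ^ 2) ≤ C * h ^ (2 * κ)) ∧
    (∀ t h, 0 < h → h ≤ 1 →
      Integrable (fun x => (ginf m M k0 t (x + h) - ginf m M k0 t x) ^ 2) ∧
      (∫ x, (ginf m M k0 t (x + h) - ginf m M k0 t x) ^ 2) ≤ C * h ^ (2 * κ)) ∧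
    (∀ n t, Integrable (fun x => (gp m M k0 n t x - ginf m M k0 t x) ^ 2) ∧
      (∫ x, (gp m M k0 n t x - ginf m M k0 t x) ^ 2) ≤ C * (1 / 4) ^ n) ∧
    (∀ t s, Integrable (fun x => (ginf m M k0 t x - ginf m M k0 s x) ^ 2) ∧
      (∫ x, (ginf m M k0 t x - ginf m M k0 s x) ^ 2) ≤ C * |t - s| ^ ((1 : ℝ) / 3))

/-- **NOTH1 (1.3 h).** The packets keep `u` out of `H^1`. Hypothesis allowed: `H_GP1`.
PROOF.  Suppose `InH1 u`, derivative `g ∈ L^2`. Let `v = u - ginf t`, `∫ v^2 (1+|x|)^κ = C < ∞`.  For `k ≥ k0`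
let `θ = tpk m M k t` (smooth, compact support in `I_k = [-5·4^{Mk}, -3·4^{Mk}]`, `|θ| ≤ 2^{-mk}`, support of
length `2·4^{mk}`, so `∫ θ^2 ≤ 2`, `|θ'| ≤ (D 4^{-mk} + 2^k) 2^{-mk} ≤ (D+1) 2^k 2^{-mk}`, `∫ θ'^2 ≤ 2(D+1)^2 4^k`).
(1) `|∫ g θ| ≤ (∫_{I_k} g^2)^{1/2} √2 → 0` (`k → ∞`, tails of an integrable function; `I_k ⊂ (-∞,-3·4^{Mk}]`).
(2) `|∫ v θ'| ≤ (∫_{I_k} v^2)^{1/2} (2(D+1)^2 4^k)^{1/2} ≤ (C 4^{-Mkκ})^{1/2} √2 (D+1) 2^k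
    = √(2C) (D+1) 2^{k(1-Mκ)} → 0` since `Mκ > 1` (`(1+|x|)^κ ≥ (4^{Mk})^κ` on `I_k`).
(3) `∫ ginf θ' = ∫ p_k θ'` (disjoint supports, `p_k = pk m M k t`).  With `B(x) = bmp((x+4·4^{Mk})/4^{mk})`,
`φ = 2^k x + 8^k t`: `p_k θ' = [4^{-mk} B bmp' sin φ cos φ + 2^k B^2 cos^2 φ]/(2^k 4^{mk})`, so
`∫ p_k θ' ≥ 4^{-mk} ∫ B^2 cos^2 φ - 2^{-k} 4^{-mk} 2 D`, and, as `B = 1` on an interval `J` of length `4^{mk}`,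
`4^{-mk}∫ B^2 cos^2 φ ≥ 4^{-mk} ∫_J (1 + cos 2φ)/2 ≥ 1/2 - 4^{-mk} 2^{-k}/2 ≥ 1/2 - 1/8 = 3/8`
(`∫_J cos 2φ` is bounded by `2/(2·2^k)`). So `∫ p_k θ' ≥ 1/4` for `k` large.
(4) `∫ u θ' = ∫ v θ' + ∫ ginf θ' = -∫ g θ`: contradiction for `k` large.
(All integrals exist: `u, v, ginf` continuous, `θ` compactly supported.) -/
def H_NOTH1 : Prop :=
  ∀ (m M k0 : ℕ) (κ : ℝ), 1 ≤ m → m ≤ M → 0 < κ → 1 < M * κ → ∀ (t : ℝ) (u : ℝ → ℝ),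
    Continuous u → Integrable (fun x => (u x - ginf m M k0 t x) ^ 2 * (1 + |x|) ^ κ) → ¬ InH1 u

/-- **FIN (own).** The assembly of part H. -/
def H_FIN : Prop :=
  H_NIK → H_HS → H_WEAK → H_TEQ → H_LIM → H_TIGHT → H_LOC → H_GP1 → H_GP2 → H_NOTH1 →
    Goal_APPROX → Goal_FINAL

end Pool.Agent.Helper25.KV
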