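import Pool.Agent.Helper25.KV.Ap8
import Pool.Agent.Helper25.KV.PartH
import Pool.Agent.Helper41.KV.FINW
import Pool.Agent.Helper33.KV.Main
import Pool.Agent.Helper31.KV.SCL
import Pool.Agent.Helper59.KV.JZ
import Pool.Agent.Helper97.KV.CUT
import Pool.Agent.Helper61.KV.PKQ
import Pool.Agent.Helper60.KV.JMAIN
import Pool.Agent.Helper32.KV.JSTEP
import Pool.Agent.Helper32.KV.CQ
import Pool.Agent.Helper79.KV.JPT
import Pool.Agent.Helper13.KV.JINEQ
import Pool.Agent.Helper77.KV.KINEQ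
import Pool.Agent.Helper42.KV.JWGN
import Pool.Agent.Helper40.KV.JFLD
import Pool.Agent.Helper19.KV.JW
import Pool.Agent.Helper61.KV.NEARB
import Pool.Agent.Helper2.KV.XJ1
import Pool.Agent.Helper90.KV.LAM
import Pool.Agent.Helper69.KV.DW
import Pool.Agent.Helper61.KV.P5

/-!
# Project KV (`MP_66be51_an`): the final theorem, all hypotheses discharged
-/

namespace Pool.Agent.Helper25.KV

open Pool.Agent.Helper33.KV Pool.Agent.Helper41.KV

/-- Left functional: `S_JMAIN`. -/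
theorem jmain_all : Pool.Agent.Helper48.KV.S_JMAIN ∧ Pool.Agent.Helper48.KV.S_CUT ∧
    Pool.Agent.Helper48.KV.S_PKQ ∧ Pool.Agent.Helper48.KV.S_SCL := by
  have w0 : Pool.Agent.Helper48.KV.S_WT0 := Pool.Agent.Helper61.KV.wt0
  have wf : Pool.Agent.Helper48.KV.S_WTF := Pool.Agent.Helper61.KV.wtf w0
  have hAL : Pool.Agent.Helper48.KV.S_ALG := Pool.Agent.Helper59.KV.alg
  have hWG : Pool.Agent.Helper41.KV.S_WGN := Pool.Agent.Helper5.KV.thm_WGN
  have hST : Pool.Agent.Helper48.KV.S_STAT := Pool.Agent.Helper79.KV.stat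
  have hTI : Pool.Agent.Helper48.KV.S_TIME := Pool.Agent.Helper75.KV.time hST
  have hSC : Pool.Agent.Helper48.KV.S_SCL := Pool.Agent.Helper31.KV.scl
  have hJW : Pool.Agent.Helper48.KV.S_JW := Pool.Agent.Helper19.KV.jw
  have hCU : Pool.Agent.Helper48.KV.S_CUT := Pool.Agent.Helper97.KV.cut w0 wf hSC
  have hJF : Pool.Agent.Helper48.KV.S_JFLD := Pool.Agent.Helper40.KV.jfld hJW hCU hSC
  have hJG : Pool.Agent.Helper48.KV.S_JWGN := Pool.Agent.Helper42.KV.jwgn hJW hCU hJF hSC hWG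
  have hJP : Pool.Agent.Helper48.KV.S_JPT := Pool.Agent.Helper79.KV.jpt hJW hCU hJF hSC hAL
  have hJI : Pool.Agent.Helper48.KV.S_JINEQ :=
    Pool.Agent.Helper13.KV.jineq hJW hCU hJF hJG hJP hSC
  have hKI : Pool.Agent.Helper48.KV.S_KINEQ := Pool.Agent.Helper77.KV.kineq w0 hCU hSC hAL hWG
  have hNB : Pool.Agent.Helper48.KV.S_NEARB := Pool.Agent.Helper61.KV.nearb w0 hSC hCU
  have hGP : H_GP1 := Pool.Agent.Helper90.KV.GP.thm_GP1
  have hPK : Pool.Agent.Helper48.KV.S_PKQ := Pool.Agent.Helper61.KV.pkq hGP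
  have hP5 : Pool.Agent.Helper48.KV.S_P5 := Pool.Agent.Helper61.KV.p5
  have hXJ : Pool.Agent.Helper48.KV.S_XJ1 := Pool.Agent.Helper2.KV.xj1 hPK hP5 hJW hCU w0 hSC
  have hLA : Pool.Agent.Helper48.KV.S_LAM := Pool.Agent.Helper90.KV.lam'
  have hDW : Pool.Agent.Helper48.KV.S_DW := Pool.Agent.Helper69.KV.dw hSC
  have hCQ : Pool.Agent.Helper48.KV.S_CQ := Pool.Agent.Helper32.KV.cq
  have hJS : Pool.Agent.Helper48.KV.S_JSTEP := Pool.Agent.Helper32.KV.jstep hST hTI hSC hJW hCU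
    hJF hJG hJI hKI hNB hPK hXJ hLA hDW hCQ hAL
  exact ⟨Pool.Agent.Helper60.KV.jmain hJS hJW hCU hSC hPK, hCU, hPK, hSC⟩

/-- The approximating family exists for every `α ∈ (0,1)`. -/
theorem goal_APPROX : Goal_APPROX := by
  obtain ⟨hJM, hCU, hPK, hSC⟩ := jmain_all
  exact approx_of thm_CURVE hSC thm_QF m_TAUB m_CONTQ m_CONTD m_YEX m_EXI FINW
    Pool.Agent.Helper59.KV.jz hCU hPK hJM

/-- **The final theorem.** -/
theorem final : Goal_FINAL := partH goal_APPROX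

end Pool.Agent.Helper25.KV
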