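import Pool.Agent.Helper26.KV.HInfAlg
import Pool.Agent.Helper75.KV.TIME
import Pool.Agent.Helper79.KV.STAT

/-!
# Project KV: tightness on the right (Kato's weighted mass identity)

For a smooth solution on `[t1,t2]` with `u(t1) = 0` on `x ≥ 1`, `|u| ≤ 1` on `x ≥ 1`, `∫ u^2 ≤ M`:
`∫_{x > 2} u(t)^2 (1+|x|) dx ≤ C(M) (1 + t2 - t1)`.
-/

namespace Pool.Agent.Helper25.KV

open Real MeasureTheory Set Filter Topology
open Pool.Agent.Helper33.KV Pool.Agent.Helper48.KV

/-- The derivative of the weight: a smooth plateau on `[2, R+1]`, support in `[1, R+2]`. -/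
noncomputable def thR (R x : ℝ) : ℝ := Real.smoothTransition (x - 1) * Real.smoothTransition (R + 2 - x)

/-- The weight. -/
noncomputable def wR (R x : ℝ) : ℝ := ∫ y in (0 : ℝ)..x, thR R y

theorem thR_smooth (R : ℝ) : ContDiff ℝ (⊤ : ℕ∞) (thR R) := by
  unfold thR
  refine ContDiff.mul ?_ ?_
  · exact Real.smoothTransition.contDiff.comp (contDiff_id.sub contDiff_const)
  · exact Real.smoothTransition.contDiff.comp (contDiff_const.sub contDiff_id)

theorem thR_nonneg (R x : ℝ) : 0 ≤ thR R x :=
  mul_nonneg (Real.smoothTransition.nonneg _) (Real.smoothTransition.nonneg _)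

theorem thR_le_one (R x : ℝ) : thR R x ≤ 1 :=
  mul_le_one₀ (Real.smoothTransition.le_one _) (Real.smoothTransition.nonneg _)
    (Real.smoothTransition.le_one _)

theorem thR_left {R x : ℝ} (hx : x ≤ 1) : thR R x = 0 := by
  unfold thR; rw [Real.smoothTransition.zero_of_nonpos (by linarith), zero_mul]

theorem thR_right {R x : ℝ} (hx : R + 2 ≤ x) : thR R x = 0 := by
  unfold thR; rw [Real.smoothTransition.zero_of_nonpos (x := R + 2 - x) (by linarith), mul_zero]

theorem thR_one {R x : ℝ} (hx : 2 ≤ x) (hx2 : x ≤ R + 1) : thR R x = 1 := by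
  unfold thR
  rw [Real.smoothTransition.one_of_one_le (by linarith),
    Real.smoothTransition.one_of_one_le (by linarith), one_mul]

theorem thR_hcs (R : ℝ) : HasCompactSupport (thR R) := by
  refine HasCompactSupport.of_support_subset_isCompact (isCompact_Icc (a := (1 : ℝ)) (b := R + 2)) ?_
  intro x hx
  rw [Function.mem_support] at hx
  constructor
  · by_contra h
    exact hx (thR_left (by linarith))
  · by_contra h
    exact hx (thR_right (by linarith))

theorem wR_hasDerivAt (R x : ℝ) : HasDerivAt (wR R) (thR R x) x :=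
  intervalIntegral.integral_hasDerivAt_right ((thR_smooth R).continuous.intervalIntegrable _ _)
    ((thR_smooth R).continuous.stronglyMeasurableAtFilter _ _) (thR_smooth R).continuous.continuousAt

theorem wR_deriv (R : ℝ) : deriv (wR R) = thR R := by
  funext x; exact (wR_hasDerivAt R x).deriv

theorem wR_smooth (R : ℝ) : ContDiff ℝ (⊤ : ℕ∞) (wR R) := by
  rw [contDiff_infty_iff_deriv]
  refine ⟨fun x => (wR_hasDerivAt R x).differentiableAt, ?_⟩
  rw [wR_deriv]
  exact thR_smooth R

theorem wR_left {R x : ℝ} (hx : x ≤ 1) : wR R x = 0 := by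
  unfold wR
  have : ∀ y ∈ Set.uIcc (0 : ℝ) x, thR R y = 0 := by
    intro y hy
    apply thR_left
    rw [Set.mem_uIcc] at hy
    rcases hy with h | h
    · exact h.2.trans hx
    · linarith [h.2]
  rw [intervalIntegral.integral_congr this]
  simp

theorem wR_mono (R : ℝ) : Monotone (wR R) :=
  monotone_of_deriv_nonneg (fun x => (wR_hasDerivAt R x).differentiableAt) (fun x => by
    rw [(wR_hasDerivAt R x).deriv]; exact thR_nonneg R x)

theorem wR_nonneg (R x : ℝ) : 0 ≤ wR R x := by
  rcases le_total x 1 with h | h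
  · rw [wR_left h]
  · have := wR_mono R h
    rwa [wR_left le_rfl] at this

theorem wR_bdd (R : ℝ) : ∃ C : ℝ, ∀ x, |wR R x| ≤ C := by
  refine ⟨wR R (R + 2), fun x => ?_⟩
  rw [abs_of_nonneg (wR_nonneg R x)]
  rcases le_total x (R + 2) with h | h
  · exact wR_mono R h
  · have h2 : wR R x = wR R (R + 2) + ∫ y in (R + 2)..x, thR R y := by
      unfold wR
      rw [intervalIntegral.integral_add_adjacent_intervals] <;>
        exact (thR_smooth R).continuous.intervalIntegrable _ _
    have h3 : (∫ y in (R + 2)..x, thR R y) = 0 := by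
      have : ∀ y ∈ Set.uIcc (R + 2) x, thR R y = 0 := by
        intro y hy
        rw [Set.uIcc_of_le h] at hy
        exact thR_right hy.1
      rw [intervalIntegral.integral_congr this]
      simp
    rw [h2, h3, add_zero]

theorem wR_lower {R x : ℝ} (hx : 2 ≤ x) (hx2 : x ≤ R + 1) : x - 2 ≤ wR R x := by
  have h2 : wR R x = wR R 2 + ∫ y in (2 : ℝ)..x, thR R y := by
    unfold wR
    rw [intervalIntegral.integral_add_adjacent_intervals] <;>
      exact (thR_smooth R).continuous.intervalIntegrable _ _
  have h3 : (∫ y in (2 : ℝ)..x, thR R y) = x - 2 := by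
    have : ∀ y ∈ Set.uIcc (2 : ℝ) x, thR R y = 1 := by
      intro y hy
      rw [Set.uIcc_of_le hx] at hy
      exact thR_one hy.1 (hy.2.trans hx2)
    rw [intervalIntegral.integral_congr this]
    simp
  rw [h2, h3]
  linarith [wR_nonneg R 2]

theorem iter_bdd_of_hcs {f : ℝ → ℝ} (hf : ContDiff ℝ (⊤ : ℕ∞) f) (hs : HasCompactSupport f) (k : ℕ) :
    ContDiff ℝ (⊤ : ℕ∞) (iteratedDeriv k f) ∧ HasCompactSupport (iteratedDeriv k f) ∧
      ∃ C : ℝ, ∀ x, |iteratedDeriv k f x| ≤ C := by
  have key : ContDiff ℝ (⊤ : ℕ∞) (iteratedDeriv k f) ∧ HasCompactSupport (iteratedDeriv k f) := by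
    induction k with
    | zero => rw [iteratedDeriv_zero]; exact ⟨hf, hs⟩
    | succ k ih =>
      rw [iteratedDeriv_succ]
      exact ⟨(contDiff_infty_iff_deriv.1 ih.1).2, ih.2.deriv⟩
  refine ⟨key.1, key.2, ?_⟩
  obtain ⟨C, hC⟩ := key.2.exists_bound_of_continuous key.1.continuous
  exact ⟨C, hC⟩

theorem wR_iter (R : ℝ) (k : ℕ) : iteratedDeriv (k + 1) (wR R) = iteratedDeriv k (thR R) := by
  rw [iteratedDeriv_succ', wR_deriv]

/-- Derivatives of the smooth transition are bounded. -/
theorem sT_bdd : ∃ C : ℝ, 0 ≤ C ∧ ∀ x, |deriv Real.smoothTransition x| ≤ C ∧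
    |deriv (deriv Real.smoothTransition) x| ≤ C := by
  have h0 : ContDiff ℝ (⊤ : ℕ∞) Real.smoothTransition := Real.smoothTransition.contDiff
  have h1 : ContDiff ℝ (⊤ : ℕ∞) (deriv Real.smoothTransition) := (contDiff_infty_iff_deriv.1 h0).2
  have h2 : ContDiff ℝ (⊤ : ℕ∞) (deriv (deriv Real.smoothTransition)) :=
    (contDiff_infty_iff_deriv.1 h1).2
  have hsupp : HasCompactSupport (deriv Real.smoothTransition) := by
    refine HasCompactSupport.of_support_subset_isCompact (isCompact_Icc (a := (0 : ℝ)) (b := 1)) ?_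
    intro x hx
    rw [Function.mem_support] at hx
    constructor
    · by_contra h
      push Not at h
      apply hx
      have : Real.smoothTransition =ᶠ[𝓝 x] fun _ => 0 := by
        filter_upwards [Iio_mem_nhds h] with y hy
        exact Real.smoothTransition.zero_of_nonpos (le_of_lt hy)
      rw [this.deriv_eq]; simp
    · by_contra h
      push Not at h
      apply hx
      have : Real.smoothTransition =ᶠ[𝓝 x] fun _ => 1 := by
        filter_upwards [Ioi_mem_nhds h] with y hy
        exact Real.smoothTransition.one_of_one_le (le_of_lt hy)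
      rw [this.deriv_eq]; simp
  obtain ⟨C1, hC1⟩ := hsupp.exists_bound_of_continuous h1.continuous
  obtain ⟨C2, hC2⟩ := hsupp.deriv.exists_bound_of_continuous h2.continuous
  refine ⟨max C1 C2, ?_, fun x => ⟨(hC1 x).trans (le_max_left _ _), (hC2 x).trans (le_max_right _ _)⟩⟩
  exact (norm_nonneg _).trans ((hC1 0).trans (le_max_left _ _))

/-- The third derivative of the weight is bounded uniformly in `R`. -/
theorem wR_third : ∃ C : ℝ, 0 ≤ C ∧ ∀ R x, |iteratedDeriv 3 (wR R) x| ≤ C := by
  obtain ⟨C, hC, hb⟩ := sT_bdd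
  refine ⟨2 * C + 2 * C ^ 2, by positivity, fun R x => ?_⟩
  have h0 : ContDiff ℝ (⊤ : ℕ∞) Real.smoothTransition := Real.smoothTransition.contDiff
  have h1 : ContDiff ℝ (⊤ : ℕ∞) (deriv Real.smoothTransition) := (contDiff_infty_iff_deriv.1 h0).2
  have d0 : ∀ y, HasDerivAt Real.smoothTransition (deriv Real.smoothTransition y) y :=
    fun y => (h0.differentiable (by simp) y).hasDerivAt
  have d1 : ∀ y, HasDerivAt (deriv Real.smoothTransition) (deriv (deriv Real.smoothTransition) y) y :=
    fun y => (h1.differentiable (by simp) y).hasDerivAt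
  have da : ∀ y : ℝ, HasDerivAt (fun z => Real.smoothTransition (z - 1))
      (deriv Real.smoothTransition (y - 1)) y := fun y => (d0 (y - 1)).comp_sub_const y 1
  have db : ∀ y : ℝ, HasDerivAt (fun z => Real.smoothTransition (R + 2 - z))
      (-deriv Real.smoothTransition (R + 2 - y)) y := fun y => (d0 (R + 2 - y)).comp_const_sub (R + 2) y
  have da2 : ∀ y : ℝ, HasDerivAt (fun z => deriv Real.smoothTransition (z - 1))
      (deriv (deriv Real.smoothTransition) (y - 1)) y := fun y => (d1 (y - 1)).comp_sub_const y 1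
  have db2 : ∀ y : ℝ, HasDerivAt (fun z => -deriv Real.smoothTransition (R + 2 - z))
      (deriv (deriv Real.smoothTransition) (R + 2 - y)) y := fun y => by
    have := ((d1 (R + 2 - y)).comp_const_sub (R + 2) y).fun_neg
    rwa [neg_neg] at this
  have e1 : deriv (thR R) = fun y => deriv Real.smoothTransition (y - 1) *
      Real.smoothTransition (R + 2 - y) + Real.smoothTransition (y - 1) *
      (-deriv Real.smoothTransition (R + 2 - y)) := by
    funext y
    exact ((da y).mul (db y)).deriv
  have e2 : iteratedDeriv 3 (wR R) x = (deriv (deriv Real.smoothTransition) (x - 1) *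
      Real.smoothTransition (R + 2 - x) + deriv Real.smoothTransition (x - 1) *
      (-deriv Real.smoothTransition (R + 2 - x))) + (deriv Real.smoothTransition (x - 1) *
      (-deriv Real.smoothTransition (R + 2 - x)) + Real.smoothTransition (x - 1) *
      deriv (deriv Real.smoothTransition) (R + 2 - x)) := by
    rw [wR_iter R 2, iteratedDeriv_succ, iteratedDeriv_one, e1]
    exact (((da2 x).mul (db x)).add ((da x).mul (db2 x))).deriv
  rw [e2]
  have n1 := Real.smoothTransition.nonneg (x - 1)
  have n2 := Real.smoothTransition.le_one (x - 1)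
  have n3 := Real.smoothTransition.nonneg (R + 2 - x)
  have n4 := Real.smoothTransition.le_one (R + 2 - x)
  have b1 := hb (x - 1)
  have b2 := hb (R + 2 - x)
  have t1 : |deriv (deriv Real.smoothTransition) (x - 1) * Real.smoothTransition (R + 2 - x)| ≤ C := by
    rw [abs_mul, abs_of_nonneg n3]
    exact (mul_le_of_le_one_right (abs_nonneg _) n4).trans b1.2
  have t2 : |deriv Real.smoothTransition (x - 1) * (-deriv Real.smoothTransition (R + 2 - x))| ≤
      C ^ 2 := by
    rw [abs_mul, abs_neg, sq]
    exact mul_le_mul b1.1 b2.1 (abs_nonneg _) hC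
  have t3 : |Real.smoothTransition (x - 1) * deriv (deriv Real.smoothTransition) (R + 2 - x)| ≤ C := by
    rw [abs_mul, abs_of_nonneg n1]
    exact (mul_le_of_le_one_left (abs_nonneg _) n2).trans b2.2
  calc _ ≤ (C + C ^ 2) + (C ^ 2 + C) := by
        refine (abs_add_le _ _).trans (add_le_add ((abs_add_le _ _).trans (add_le_add t1 t2))
          ((abs_add_le _ _).trans (add_le_add t2 t3)))
    _ = 2 * C + 2 * C ^ 2 := by ring

end Pool.Agent.Helper25.KV
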